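import Pool.Agent.Lib.OddN.Stk
import Pool.Agent.Lib.EdP.Main

/-! The stuck situation without even circuits: perfect matchings with a prescribed edge from the
perfect matching polytope. -/

set_option autoImplicit false

namespace OddN

open Finset Classical

variable {V E : Type*} {s t : E → V} {vs : Finset V} {es F : Finset E} {R : Tree V E} {m : ℕ}

/-! ### Edmonds' theorem for a finite set of edges -/

/-- total weight of the edges of `es` crossing `X` -/
noncomputable def bs_ws (s t : E → V) (es : Finset E) (w : E → ℝ) (X : Finset V) : ℝ :=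
  ∑ g ∈ es, (if cr s t X g then w g else 0)

theorem bs_edm_es {w : E → ℝ} (ends : ∀ g ∈ es, s g ∈ vs ∧ t g ∈ vs)
    (noloop : ∀ g ∈ es, s g ≠ t g) (nn : ∀ g ∈ es, 0 ≤ w g)
    (deg : ∀ v ∈ vs, bs_ws s t es w {v} = 1)
    (odd : ∀ X ⊆ vs, Odd X.card → 1 ≤ bs_ws s t es w X) (c : E → ℝ) :
    ∃ M ⊆ es, (∀ v ∈ vs, cn s t M {v} = 1) ∧ ∑ g ∈ M, c g ≤ ∑ g ∈ es, w g * c g := by
  have hw : ∀ X, EdP.wt (fun g : es => s g) (fun g : es => t g) (fun g : es => w g) X =
      bs_ws s t es w X := by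
    intro X
    unfold EdP.wt bs_ws
    exact Finset.sum_coe_sort es (fun g => if cr s t X g then w g else 0)
  have hfr : EdP.Frac (fun g : es => s g) (fun g : es => t g) vs (fun g : es => w g) :=
    { nn := fun g => nn g g.2
      ends := fun g _ => ⟨(ends g g.2).1, (ends g g.2).2, noloop g g.2⟩
      deg := fun v hv => by rw [hw]; exact deg v hv
      odd := fun X hX ho => by rw [hw]; exact odd X hX ho }
  obtain ⟨M, hM, hc⟩ := EdP.edm _ _ _ vs _ rfl hfr (fun g => c g)
  refine ⟨M.map (Function.Embedding.subtype _), ?_, ?_, ?_⟩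
  · intro g hg
    rw [mem_map] at hg
    obtain ⟨g', -, rfl⟩ := hg
    exact g'.2
  · intro v hv
    have h1 := hM.one v hv
    unfold cn
    rw [sum_map]
    exact h1
  · rw [sum_map]
    refine hc.trans (le_of_eq ?_)
    exact Finset.sum_coe_sort es (fun g => w g * c g)

lemma bs_ws_const (s t : E → V) (es : Finset E) (r : ℝ) (X : Finset V) :
    bs_ws s t es (fun _ => r) X = r * cn s t es X := by
  unfold bs_ws cn
  push_cast
  rw [mul_sum]
  refine sum_congr rfl fun g _ => ?_
  unfold ci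
  split_ifs <;> simp

lemma bs_ws_add (s t : E → V) (es : Finset E) (u w : E → ℝ) (X : Finset V) :
    bs_ws s t es (fun g => u g + w g) X = bs_ws s t es u X + bs_ws s t es w X := by
  unfold bs_ws
  rw [← sum_add_distrib]
  refine sum_congr rfl fun g _ => ?_
  split_ifs <;> simp

lemma bs_ws_smul (s t : E → V) (es : Finset E) (r : ℝ) (w : E → ℝ) (X : Finset V) :
    bs_ws s t es (fun g => r * w g) X = r * bs_ws s t es w X := by
  unfold bs_ws
  rw [mul_sum]
  refine sum_congr rfl fun g _ => ?_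
  split_ifs <;> simp

lemma bs_ws_abs (s t : E → V) (es : Finset E) (w : E → ℝ) (X : Finset V) :
    |bs_ws s t es w X| ≤ ∑ g ∈ es, |w g| := by
  unfold bs_ws
  refine (abs_sum_le_sum_abs _ _).trans (sum_le_sum fun g _ => ?_)
  split_ifs
  · exact le_refl _
  · simp

lemma bs_ws_compl (ends : ∀ g ∈ es, s g ∈ vs ∧ t g ∈ vs) (w : E → ℝ) (X : Finset V) :
    bs_ws s t es w (vs \ X) = bs_ws s t es w X := by
  unfold bs_ws
  refine sum_congr rfl fun g hg => ?_
  rw [if_congr (cr_compl (ends g hg).1 (ends g hg).2 X) rfl rfl]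

/-- the uniform point of the polytope -/
theorem bs_pm_uniform (ends : ∀ g ∈ es, s g ∈ vs ∧ t g ∈ vs) (noloop : ∀ g ∈ es, s g ≠ t g)
    (cubic : ∀ v ∈ vs, cn s t es {v} = 3) (oddcut : ∀ X ⊆ vs, Odd X.card → 3 ≤ cn s t es X)
    (c : E → ℝ) : ∃ M ⊆ es, (∀ v ∈ vs, cn s t M {v} = 1) ∧ 3 * ∑ g ∈ M, c g ≤ ∑ g ∈ es, c g := by
  obtain ⟨M, hM, h1, h2⟩ := bs_edm_es (w := fun _ => (1 / 3 : ℝ)) ends noloop
    (fun _ _ => by norm_num)
    (fun v hv => by rw [bs_ws_const, cubic v hv]; norm_num)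
    (fun X hX ho => by
      rw [bs_ws_const]
      have h1 : (3 : ℝ) ≤ cn s t es X := by exact_mod_cast oddcut X hX ho
      linarith) c
  refine ⟨M, hM, h1, ?_⟩
  rw [← mul_sum] at h2
  linarith

/-- a perfect matching with the edge `e` which does not contain all the edges crossing `X` -/
theorem bs_pm_cut (ends : ∀ g ∈ es, s g ∈ vs ∧ t g ∈ vs) (noloop : ∀ g ∈ es, s g ≠ t g)
    (cubic : ∀ v ∈ vs, cn s t es {v} = 3) (oddcut : ∀ X ⊆ vs, Odd X.card → 3 ≤ cn s t es X)
    {e : E} (he : e ∈ es) {X : Finset V} (hX : X ⊆ vs) (ho : Odd X.card) :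
    ∃ M ⊆ es, e ∈ M ∧ (∀ v ∈ vs, cn s t M {v} = 1) ∧ cn s t M X < cn s t es X := by
  obtain ⟨M, hM, h1, h2⟩ := bs_pm_uniform ends noloop cubic oddcut
    (fun g => (ci s t X g : ℝ) - ((cn s t es X : ℝ) - 1) * (if g = e then 1 else 0))
  have hd := oddcut X hX ho
  have hpos : Odd (cn s t M X) := by
    rw [odd_cn fun g hg => noloop g (hM hg)]
    · exact ho
    · intro v hv
      rw [h1 v (hX hv)]
      decide
  have e1 : ∑ g ∈ es, ((ci s t X g : ℝ) - ((cn s t es X : ℝ) - 1) * (if g = e then 1 else 0)) =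
      1 := by
    rw [sum_sub_distrib, ← mul_sum, sum_ite_eq' es e, if_pos he]
    unfold cn
    push_cast
    ring
  rw [e1, sum_sub_distrib, ← mul_sum, sum_ite_eq' M e] at h2
  have e2 : ∑ g ∈ M, (ci s t X g : ℝ) = (cn s t M X : ℝ) := by
    unfold cn
    push_cast
    rfl
  rw [e2] at h2
  have h3 : 0 < cn s t M X := hpos.pos
  by_cases hm : e ∈ M
  · refine ⟨M, hM, hm, h1, ?_⟩
    rw [if_pos hm] at h2
    have h4 : (cn s t M X : ℝ) < cn s t es X := by linarith
    exact_mod_cast h4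
  · rw [if_neg hm] at h2
    have h4 : (1 : ℝ) ≤ cn s t M X := by exact_mod_cast h3
    linarith

/-- a perturbation which separates `e` from `g₀` gives a perfect matching with `e`, without `g₀` -/
theorem bs_pm_avoid (ends : ∀ g ∈ es, s g ∈ vs ∧ t g ∈ vs) (noloop : ∀ g ∈ es, s g ≠ t g)
    (cubic : ∀ v ∈ vs, cn s t es {v} = 3)
    (five : ∀ X ⊆ vs, Odd X.card → X.card ≠ 1 → X.card + 1 ≠ vs.card → 5 ≤ cn s t es X)
    {e g₀ : E} (he : e ∈ es) (hg₀ : g₀ ∈ es) {h : E → ℝ} (hz : ∀ v ∈ vs, bs_ws s t es h {v} = 0)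
    (hne : h g₀ < h e) :
    ∃ M ⊆ es, e ∈ M ∧ g₀ ∉ M ∧ (∀ v ∈ vs, cn s t M {v} = 1) := by
  set K : ℝ := 1 + ∑ g ∈ es, |h g| with hK
  have hK0 : 0 ≤ ∑ g ∈ es, |h g| := sum_nonneg fun g _ => abs_nonneg _
  have hK1 : 0 < K := by linarith
  set ε : ℝ := 1 / (3 * K) with hε
  have hε0 : 0 < ε := by positivity
  have hεK : ε * K = 1 / 3 := by
    rw [hε]
    field_simp
  have hle : ∀ g ∈ es, |h g| ≤ K := fun g hg => by
    have := single_le_sum (f := fun g => |h g|) (fun g _ => abs_nonneg (h g)) hg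
    linarith
  have hw : ∀ X, bs_ws s t es (fun g => (1 / 3 : ℝ) + ε * h g) X =
      1 / 3 * cn s t es X + ε * bs_ws s t es h X := by
    intro X
    rw [bs_ws_add s t es (fun _ => (1 / 3 : ℝ)) (fun g => ε * h g), bs_ws_const, bs_ws_smul]
  have hdeg : ∀ v ∈ vs, bs_ws s t es (fun g => (1 / 3 : ℝ) + ε * h g) {v} = 1 := by
    intro v hv
    rw [hw, hz v hv, cubic v hv]
    norm_num
  obtain ⟨M, hM, h1, h2⟩ := bs_edm_es (w := fun g => (1 / 3 : ℝ) + ε * h g) ends noloop
    (fun g hg => by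
      have h3 := neg_abs_le (h g)
      have h4 := hle g hg
      have h5 : ε * (-K) ≤ ε * h g := mul_le_mul_of_nonneg_left (by linarith) hε0.le
      linarith)
    hdeg
    (fun X hX ho => by
      by_cases c1 : X.card = 1
      · obtain ⟨v, rfl⟩ := card_eq_one.1 c1
        exact (hdeg v (hX (mem_singleton_self v))).ge
      · by_cases c2 : X.card + 1 = vs.card
        · have c3 : (vs \ X).card = 1 := by
            rw [card_sdiff_of_subset hX]
            omega
          obtain ⟨v, hv⟩ := card_eq_one.1 c3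
          rw [← bs_ws_compl ends, hv]
          refine (hdeg v ?_).ge
          have : v ∈ vs \ X := by rw [hv]; exact mem_singleton_self v
          exact (mem_sdiff.1 this).1
        · have h5 : (5 : ℝ) ≤ cn s t es X := by exact_mod_cast five X hX ho c1 c2
          rw [hw]
          have h6 := bs_ws_abs s t es h X
          have h7 := neg_abs_le (bs_ws s t es h X)
          have h8 : ε * (-K) ≤ ε * bs_ws s t es h X :=
            mul_le_mul_of_nonneg_left (by linarith) hε0.le
          linarith)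
    (fun g => (if g = g₀ then 1 else 0) - (if g = e then 1 else 0))
  have e1 : ∑ g ∈ es, ((1 / 3 : ℝ) + ε * h g) *
      ((if g = g₀ then 1 else 0) - (if g = e then 1 else 0)) = ε * h g₀ - ε * h e := by
    simp only [mul_sub, mul_ite, mul_one, mul_zero]
    rw [sum_sub_distrib, sum_ite_eq' es g₀, sum_ite_eq' es e, if_pos he, if_pos hg₀]
    ring
  rw [e1, sum_sub_distrib, sum_ite_eq' M g₀, sum_ite_eq' M e] at h2
  have h3 : ε * h g₀ < ε * h e := mul_lt_mul_of_pos_left hne hε0
  by_cases c1 : e ∈ M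
  · by_cases c2 : g₀ ∈ M
    · rw [if_pos c1, if_pos c2] at h2
      linarith
    · exact ⟨M, hM, c1, c2, h1⟩
  · rw [if_neg c1] at h2
    split_ifs at h2 <;> linarith

/-! ### duality -/

/-- if every circulation takes the same value at `e` and `g₀`, there is a potential -/
theorem bs_exists_pot (ends : ∀ g ∈ es, s g ∈ vs ∧ t g ∈ vs) (noloop : ∀ g ∈ es, s g ≠ t g)
    {e g₀ : E} (he : e ∈ es) (hg₀ : g₀ ∈ es)
    (hall : ∀ h : E → ℝ, (∀ v ∈ vs, bs_ws s t es h {v} = 0) → h g₀ = h e) :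
    ∃ y : V → ℝ, ∀ g ∈ es, y (s g) + y (t g) = (if g = g₀ then 1 else 0) -
      (if g = e then 1 else 0) := by
  let A : (es → ℝ) →ₗ[ℝ] (vs → ℝ) :=
    { toFun := fun x v => ∑ g : es, (if cr s t {(v : V)} (g : E) then x g else 0)
      map_add' := by
        intro x y
        ext v
        simp only [Pi.add_apply]
        rw [← sum_add_distrib]
        refine sum_congr rfl fun g _ => ?_
        split_ifs <;> simp
      map_smul' := by
        intro r x
        ext v
        simp only [Pi.smul_apply, smul_eq_mul, RingHom.id_apply, mul_sum]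
        refine sum_congr rfl fun g _ => ?_
        split_ifs <;> simp }
  have hA : ∀ x v, A x v = ∑ g : es, (if cr s t {(v : V)} (g : E) then x g else 0) :=
    fun _ _ => rfl
  let φ : Module.Dual ℝ (es → ℝ) := LinearMap.proj ⟨g₀, hg₀⟩ - LinearMap.proj ⟨e, he⟩
  have hφ : ∀ x, φ x = x ⟨g₀, hg₀⟩ - x ⟨e, he⟩ := fun _ => rfl
  have hmem : φ ∈ (LinearMap.ker A).dualAnnihilator := by
    rw [Submodule.mem_dualAnnihilator]
    intro x hx
    rw [LinearMap.mem_ker] at hx
    let h : E → ℝ := fun g => if hg : g ∈ es then x ⟨g, hg⟩ else 0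
    have hh : ∀ g : es, h g = x g := fun g => by
      simp only [h, g.2, dif_pos]
    have h1 := hall h (fun v hv => by
      have h2 : A x ⟨v, hv⟩ = 0 := by rw [hx]; rfl
      rw [hA] at h2
      unfold bs_ws
      rw [← Finset.sum_coe_sort es (fun g => if cr s t {v} g then h g else 0)]
      refine Eq.trans (sum_congr rfl fun g _ => ?_) h2
      rw [hh])
    rw [hφ]
    have h3 := hh ⟨g₀, hg₀⟩
    have h4 := hh ⟨e, he⟩
    simp only at h3 h4
    rw [← h3, ← h4, h1, sub_self]
  rw [← LinearMap.range_dualMap_eq_dualAnnihilator_ker] at hmem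
  obtain ⟨ψ, hψ⟩ := hmem
  refine ⟨fun v => if hv : v ∈ vs then ψ (Pi.single ⟨v, hv⟩ 1) else 0, fun g hg => ?_⟩
  have hs := (ends g hg).1
  have ht := (ends g hg).2
  simp only [hs, ht, dif_pos]
  rw [← map_add]
  have h1 : A (Pi.single ⟨g, hg⟩ 1) = Pi.single ⟨s g, hs⟩ 1 + Pi.single ⟨t g, ht⟩ 1 := by
    ext v
    rw [hA, Pi.add_apply]
    have h2 : ∀ g' : es, (if cr s t {(v : V)} (g' : E) then
        (Pi.single (⟨g, hg⟩ : es) (1 : ℝ) : es → ℝ) g' else 0) =
        if g' = ⟨g, hg⟩ then (if cr s t {(v : V)} g then 1 else 0) else 0 := by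
      intro g'
      by_cases h3 : g' = ⟨g, hg⟩
      · subst h3
        simp
      · rw [Pi.single_eq_of_ne h3, if_neg h3]
        simp
    simp only [h2]
    rw [Finset.sum_ite_eq' univ, if_pos (mem_univ _)]
    have hl := noloop g hg
    by_cases h3 : (v : V) = s g
    · have h4 : (v : V) ≠ t g := fun h => hl (h3.symm.trans h)
      have h5 : v = ⟨s g, hs⟩ := Subtype.ext h3
      have h6 : v ≠ ⟨t g, ht⟩ := fun h => h4 (congrArg Subtype.val h)
      have h7 : cr s t {(v : V)} g := by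
        unfold cr
        simp only [mem_singleton]
        intro h8
        exact h4 (h8.1 h3.symm).symm
      rw [if_pos h7, Pi.single_eq_of_ne h6, h5, Pi.single_eq_same, add_zero]
    · by_cases h4 : (v : V) = t g
      · have h5 : v = ⟨t g, ht⟩ := Subtype.ext h4
        have h6 : v ≠ ⟨s g, hs⟩ := fun h => h3 (congrArg Subtype.val h)
        have h7 : cr s t {(v : V)} g := by
          unfold cr
          simp only [mem_singleton]
          intro h8
          exact h3 (h8.2 h4.symm).symm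
        rw [if_pos h7, Pi.single_eq_of_ne h6, h5, Pi.single_eq_same, zero_add]
      · have h5 : v ≠ ⟨t g, ht⟩ := fun h => h4 (congrArg Subtype.val h)
        have h6 : v ≠ ⟨s g, hs⟩ := fun h => h3 (congrArg Subtype.val h)
        have h7 : ¬ cr s t {(v : V)} g := by
          unfold cr
          simp only [mem_singleton]
          intro h8
          exact h8 ⟨fun h => absurd h.symm h3, fun h => absurd h.symm h4⟩
        rw [if_neg h7, Pi.single_eq_of_ne h6, Pi.single_eq_of_ne h5, add_zero]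
  rw [← h1]
  have h2 : ψ (A (Pi.single ⟨g, hg⟩ 1)) = φ (Pi.single ⟨g, hg⟩ 1) := by
    rw [← hψ]
    rfl
  rw [h2, hφ]
  congr 1
  · by_cases h3 : g = g₀
    · subst h3
      simp
    · rw [if_neg h3, Pi.single_eq_of_ne]
      intro h4
      exact h3 (congrArg Subtype.val h4).symm
  · by_cases h3 : g = e
    · subst h3
      simp
    · rw [if_neg h3, Pi.single_eq_of_ne]
      intro h4
      exact h3 (congrArg Subtype.val h4).symm

/-! ### potentials vanish on odd circuits -/

lemma bs_pot_zero (ends : ∀ g ∈ es, s g ∈ vs ∧ t g ∈ vs) (noloop : ∀ g ∈ es, s g ≠ t g)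
    {v₀ : V} (hv₀ : v₀ ∈ vs) (hodd : Odd (comp s t vs es F v₀).card)
    (deg2 : ∀ v ∈ comp s t vs es F v₀, cn s t (es \ F) {v} = 2) {y : V → ℝ}
    (hy : ∀ g ∈ es, g ∉ F → y (s g) + y (t g) = 0) : ∀ v ∈ comp s t vs es F v₀, y v = 0 := by
  set O := comp s t vs es F v₀ with hO
  have hX : Cl s t vs es F (vs.filter fun v => |y v| = |y v₀|) := by
    refine ⟨filter_subset _ _, fun g hg hc => ?_⟩
    by_contra hF
    apply hc
    have h1 : y (s g) = - y (t g) := by linarith [hy g hg hF]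
    have h2 : |y (s g)| = |y (t g)| := by rw [h1, abs_neg]
    rw [mem_filter, mem_filter, h2]
    exact ⟨fun h => ⟨(ends g hg).2, h.2⟩, fun h => ⟨(ends g hg).1, h.2⟩⟩
  have hall : ∀ v ∈ O, |y v| = |y v₀| := by
    intro v hv
    have h1 := (mem_filter.1 hv).2 _ hX (mem_filter.2 ⟨hv₀, rfl⟩)
    exact (mem_filter.1 h1).2
  have hcl := comp_closed (F := F) ends v₀
  have hin : ∀ g ∈ es \ F, (s g ∈ O ↔ t g ∈ O) := by
    intro g hg
    by_contra hc
    exact (mem_sdiff.1 hg).2 (hcl.2 g (mem_sdiff.1 hg).1 hc)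
  have h0 : y v₀ = 0 := by
    by_contra h0
    set P := O.filter fun v => y v = y v₀ with hP
    have hN : ∀ v ∈ O \ P, y v = - y v₀ := by
      intro v hv
      rw [mem_sdiff, hP, mem_filter, not_and] at hv
      rcases abs_eq_abs.1 (hall v hv.1) with h1 | h1
      · exact absurd h1 (hv.2 hv.1)
      · exact h1
    have i1 : inn s t (es \ F) P = 0 := by
      unfold inn
      refine sum_eq_zero fun g hg => ?_
      rw [if_neg]
      rintro ⟨h1, h2⟩
      have h3 := hy g (mem_sdiff.1 hg).1 (mem_sdiff.1 hg).2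
      rw [(mem_filter.1 h1).2, (mem_filter.1 h2).2] at h3
      exact h0 (by linarith)
    have i2 : inn s t (es \ F) (O \ P) = 0 := by
      unfold inn
      refine sum_eq_zero fun g hg => ?_
      rw [if_neg]
      rintro ⟨h1, h2⟩
      have h3 := hy g (mem_sdiff.1 hg).1 (mem_sdiff.1 hg).2
      rw [hN _ h1, hN _ h2] at h3
      exact h0 (by linarith)
    have s1 := sum_cn (s := s) (t := t) (A := es \ F)
      (fun g hg => noloop g (mem_sdiff.1 hg).1) P
    have s2 := sum_cn (s := s) (t := t) (A := es \ F)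
      (fun g hg => noloop g (mem_sdiff.1 hg).1) (O \ P)
    have hPO : P ⊆ O := filter_subset _ _
    rw [sum_congr rfl fun v hv => deg2 v (hPO hv), i1] at s1
    rw [sum_congr rfl fun v hv => deg2 v ((mem_sdiff.1 hv).1), i2] at s2
    rw [sum_const, smul_eq_mul] at s1 s2
    have s3 : cn s t (es \ F) (O \ P) = cn s t (es \ F) P := by
      unfold cn
      refine sum_congr rfl fun g hg => ?_
      unfold ci
      refine if_congr ?_ rfl rfl
      by_cases h1 : s g ∈ O
      · exact cr_compl h1 ((hin g hg).1 h1) P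
      · have h2 : t g ∉ O := fun h => h1 ((hin g hg).2 h)
        have h3 : s g ∉ P := fun h => h1 (filter_subset _ _ h)
        have h4 : t g ∉ P := fun h => h2 (filter_subset _ _ h)
        unfold cr
        simp only [mem_sdiff, h1, h2, h3, h4, false_and]
    have s4 : (O \ P).card + P.card = O.card := card_sdiff_add_card_eq_card (filter_subset _ _)
    obtain ⟨k, hk⟩ := hodd
    rw [s3] at s2
    omega
  intro v hv
  have h1 := hall v hv
  rw [h0, abs_zero, abs_eq_zero] at h1
  exact h1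

/-! ### bs_blocks -/

lemma bs_blocks {ι : Type*} [Fintype ι] {B : ι → Finset V} (hcov : ∀ v ∈ vs, ∃ i, v ∈ B i)
    (hsub : ∀ i, B i ⊆ vs) (hodd : ∀ i, Odd (B i).card)
    (hdis : ∀ i j, i ≠ j → Disjoint (B i) (B j))
    (hι : Fintype.card ι = 2 ∨ Fintype.card ι = 4) {Z : Finset V} (hZ : Z ⊆ vs)
    (ho : Odd Z.card) (hor : ∀ i, B i ⊆ Z ∨ Disjoint (B i) Z) : ∃ i, Z = B i ∨ vs \ Z = B i := by
  set I : Finset ι := univ.filter fun i => B i ⊆ Z with hI
  have e1 : Z = I.biUnion B := by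
    ext v
    rw [mem_biUnion]
    constructor
    · intro hv
      obtain ⟨i, hi⟩ := hcov v (hZ hv)
      refine ⟨i, mem_filter.2 ⟨mem_univ _, ?_⟩, hi⟩
      rcases hor i with h | h
      · exact h
      · exact absurd hv (disjoint_left.1 h hi)
    · rintro ⟨i, hi, hv⟩
      exact (mem_filter.1 hi).2 hv
  have e2 : vs \ Z = (univ \ I).biUnion B := by
    ext v
    rw [mem_biUnion, mem_sdiff]
    constructor
    · rintro ⟨hv, hvZ⟩
      obtain ⟨i, hi⟩ := hcov v hv
      refine ⟨i, mem_sdiff.2 ⟨mem_univ _, fun h => hvZ ((mem_filter.1 h).2 hi)⟩, hi⟩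
    · rintro ⟨i, hi, hv⟩
      refine ⟨hsub i hv, ?_⟩
      rcases hor i with h | h
      · have h1 : i ∈ I := mem_filter.2 ⟨mem_univ _, h⟩
        exact absurd h1 (mem_sdiff.1 hi).2
      · exact disjoint_left.1 h hv
  have h1 : Odd I.card := by
    rw [e1, card_biUnion fun i _ j _ hij => hdis i j hij, odd_sum_iff_odd_card_odd] at ho
    have : I.filter (fun i => Odd (B i).card) = I := filter_true_of_mem fun i _ => hodd i
    rwa [this] at ho
  have h2 : (univ \ I).card + I.card = Fintype.card ι := by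
    rw [card_sdiff_add_card_eq_card (subset_univ _), card_univ]
  have h3 : I.card = 1 ∨ (univ \ I).card = 1 := by
    obtain ⟨k, hk⟩ := h1
    omega
  rcases h3 with h3 | h3
  · obtain ⟨i, hi⟩ := card_eq_one.1 h3
    exact ⟨i, Or.inl (by rw [e1, hi, singleton_biUnion])⟩
  · obtain ⟨i, hi⟩ := card_eq_one.1 h3
    exact ⟨i, Or.inr (by rw [e2, hi, singleton_biUnion])⟩

lemma bs_nfull {M : Finset E} {X : Finset V} (h : cn s t M X < cn s t es X) :
    ∃ g ∈ es, cr s t X g ∧ g ∉ M := by
  by_contra hc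
  push Not at hc
  have h1 : cn s t es X ≤ cn s t M X := by
    rw [cn_eq_card, cn_eq_card]
    refine card_le_card fun g hg => ?_
    rw [mem_filter] at hg ⊢
    exact ⟨hc g hg.1 hg.2, hg.2⟩
  omega

lemma bs_cn_le_card {M : Finset E} (noloop : ∀ g ∈ M, s g ≠ t g) {X : Finset V}
    (h1 : ∀ v ∈ X, cn s t M {v} = 1) : cn s t M X ≤ X.card := by
  have h2 := sum_cn noloop X
  rw [sum_congr rfl h1, sum_const, smul_eq_mul, mul_one] at h2
  omega

lemma bs_uniq {g : E} {p q p' q' : V} (h : Ends s t g p q) (h' : Ends s t g p' q') :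
    p = p' ∧ q = q' ∨ p = q' ∧ q = p' := by
  rcases h with ⟨h1, h2⟩ | ⟨h1, h2⟩ <;> rcases h' with ⟨h3, h4⟩ | ⟨h3, h4⟩
  · exact Or.inl ⟨h1.symm.trans h3, h2.symm.trans h4⟩
  · exact Or.inr ⟨h1.symm.trans h3, h2.symm.trans h4⟩
  · exact Or.inr ⟨h2.symm.trans h4, h1.symm.trans h3⟩
  · exact Or.inl ⟨h2.symm.trans h4, h1.symm.trans h3⟩

lemma bs_Tcard (S : Stk m s t vs es F R) : R.T.card = 6 := by
  have h1 := List.toFinset_card_of_nodup S.nd
  have h2 : ([R.a, R.b, R.p, R.q, R.p', R.q'] : List V).toFinset = R.T := by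
    ext v
    unfold Tree.T
    simp only [List.mem_toFinset, List.mem_cons, List.not_mem_nil, or_false, mem_insert,
      mem_singleton]
  rw [← h2, h1]
  rfl

lemma bs_five (S : Stk m s t vs es F R) {X : Finset V} (hX : X ⊆ vs) (ho : Odd X.card)
    (h1 : X.card ≠ 1) (h2 : X.card + 1 ≠ vs.card) : 5 ≤ cn s t es X := by
  have h3 := S.h.oddcut X hX ho
  have h4 := S.h.odd_es hX ho
  have h5 := card_le_card hX
  have h6 := S.h.even_card
  obtain ⟨k, hk⟩ := ho
  obtain ⟨l, hl⟩ := h6
  have h7 := S.hcut X hX ⟨k, hk⟩ (by omega) (by omega)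
  obtain ⟨j, hj⟩ := h4
  omega

/-- the edge `e` is used, so `a` is on the side of `p` -/
lemma bs_tie1 (S : Stk m s t vs es F R) {M : Finset E} (he : R.e ∈ M)
    (h1 : ∀ v ∈ vs, cn s t M {v} = 1) {Z : Finset V} (hZ : ∀ g ∈ es, cr s t Z g → g ∈ M) :
    (R.a ∈ Z ↔ R.p ∈ Z) ∧ (R.a ∈ Z ↔ R.q ∈ Z) := by
  have hnd := S.nd
  simp only [List.nodup_cons, List.mem_cons, List.not_mem_nil, or_false, not_or,
    not_false_eq_true, List.nodup_nil, and_true] at hnd
  obtain ⟨⟨ab, ap, aq, ap', aq'⟩, ⟨bp, bq, bp', bq'⟩, ⟨pq, pp', pq'⟩, ⟨qp', qq'⟩, p'q'⟩ := hnd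
  have ha : R.a ∈ vs := S.sub (by unfold Tree.T; simp)
  obtain ⟨g, -, -, hu⟩ := cn_eq_one_unique (h1 _ ha)
  have k0 : R.e = g := hu _ he (by rw [S.E0.cr]; simp [Ne.symm ab])
  constructor
  · by_contra hc
    have k1 : R.e1 = g := hu _ (hZ _ S.m1 (by rw [S.E1.cr]; exact hc))
      (by rw [S.E1.cr]; simp [Ne.symm ap])
    have k2 := S.E0
    rw [k0, ← k1] at k2
    rcases bs_uniq k2 S.E1 with ⟨-, h⟩ | ⟨h, -⟩
    · exact bp h
    · exact ap h
  · by_contra hc
    have k1 : R.e2 = g := hu _ (hZ _ S.m2 (by rw [S.E2.cr]; exact hc))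
      (by rw [S.E2.cr]; simp [Ne.symm aq])
    have k2 := S.E0
    rw [k0, ← k1] at k2
    rcases bs_uniq k2 S.E2 with ⟨-, h⟩ | ⟨h, -⟩
    · exact bq h
    · exact aq h

lemma bs_tie2 (S : Stk m s t vs es F R) {M : Finset E} (he : R.e ∈ M)
    (h1 : ∀ v ∈ vs, cn s t M {v} = 1) {Z : Finset V} (hZ : ∀ g ∈ es, cr s t Z g → g ∈ M) :
    (R.b ∈ Z ↔ R.p' ∈ Z) ∧ (R.b ∈ Z ↔ R.q' ∈ Z) := bs_tie1 S.swap he h1 hZ

/-- the two bs_blocks around `e` -/
noncomputable def bs_bA (R : Tree V E) : Finset V := {R.a, R.p, R.q}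

noncomputable def bs_bB (R : Tree V E) : Finset V := {R.b, R.p', R.q'}

lemma bs_bA_card (S : Stk m s t vs es F R) : (bs_bA R).card = 3 := by
  have hnd := S.nd
  simp only [List.nodup_cons, List.mem_cons, List.not_mem_nil, or_false, not_or,
    not_false_eq_true, List.nodup_nil, and_true] at hnd
  obtain ⟨⟨ab, ap, aq, ap', aq'⟩, ⟨bp, bq, bp', bq'⟩, ⟨pq, pp', pq'⟩, ⟨qp', qq'⟩, p'q'⟩ := hnd
  unfold bs_bA
  rw [card_insert_of_notMem (by simp [ap, aq]), card_insert_of_notMem (by simp [pq]),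
    card_singleton]

lemma bs_bA_sub (R : Tree V E) : bs_bA R ⊆ R.T := by
  intro v hv
  unfold bs_bA at hv
  unfold Tree.T
  simp only [mem_insert, mem_singleton] at hv ⊢
  tauto

lemma bs_bB_sub (R : Tree V E) : bs_bB R ⊆ R.T := by
  intro v hv
  unfold bs_bB at hv
  unfold Tree.T
  simp only [mem_insert, mem_singleton] at hv ⊢
  tauto

lemma bs_mem_T_or {v : V} (hv : v ∈ R.T) : v ∈ bs_bA R ∨ v ∈ bs_bB R := by
  unfold Tree.T at hv
  unfold bs_bA bs_bB
  simp only [mem_insert, mem_singleton] at hv ⊢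
  tauto

lemma bs_bAB (S : Stk m s t vs es F R) : Disjoint (bs_bA R) (bs_bB R) := by
  have hnd := S.nd
  simp only [List.nodup_cons, List.mem_cons, List.not_mem_nil, or_false, not_or,
    not_false_eq_true, List.nodup_nil, and_true] at hnd
  obtain ⟨⟨ab, ap, aq, ap', aq'⟩, ⟨bp, bq, bp', bq'⟩, ⟨pq, pp', pq'⟩, ⟨qp', qq'⟩, p'q'⟩ := hnd
  rw [disjoint_left]
  intro v hv hv'
  unfold bs_bA at hv
  unfold bs_bB at hv'
  simp only [mem_insert, mem_singleton] at hv hv'
  rcases hv with rfl | rfl | rfl <;> rcases hv' with h | h | h <;>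
    first
      | exact ab h | exact ap' h | exact aq' h | exact bp h.symm | exact pp' h | exact pq' h
      | exact bq h.symm | exact qp' h | exact qq' h

lemma bs_nfull_A (S : Stk m s t vs es F R) {M : Finset E} (hM : M ⊆ es)
    (h1 : ∀ v ∈ vs, cn s t M {v} = 1) : ∃ g ∈ es, cr s t (bs_bA R) g ∧ g ∉ M := by
  have hs := (bs_bA_sub R).trans S.sub
  have h2 := bs_bA_card S
  have h3 := card_le_card S.sub
  rw [bs_Tcard S] at h3
  have h4 := bs_five S hs (by rw [h2]; decide) (by omega) (by omega)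
  have h5 := bs_cn_le_card (fun g hg => S.h.noloop g (hM hg)) fun v hv => h1 v (hs hv)
  exact bs_nfull (by omega)

lemma bs_nfull_B (S : Stk m s t vs es F R) {M : Finset E} (hM : M ⊆ es)
    (h1 : ∀ v ∈ vs, cn s t M {v} = 1) : ∃ g ∈ es, cr s t (bs_bB R) g ∧ g ∉ M :=
  bs_nfull_A S.swap hM h1

lemma bs_nfull_one (h : Hyp m s t vs es F) {M : Finset E} (h1 : ∀ v ∈ vs, cn s t M {v} = 1)
    {X : Finset V} (hX : X ⊆ vs) (hc : X.card = 1) : ∃ g ∈ es, cr s t X g ∧ g ∉ M := by
  obtain ⟨v, rfl⟩ := card_eq_one.1 hc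
  have hv := hX (mem_singleton_self v)
  exact bs_nfull (by rw [h1 v hv, h.cubic v hv]; omega)

/-- **a matching is good if it is not full at any block** -/
lemma bs_good (S : Stk m s t vs es F R) {ι : Type*} [Fintype ι] {B : ι → Finset V}
    (hcov : ∀ v ∈ vs, v ∉ R.T → ∃ i, v ∈ B i) (hsub : ∀ i, B i ⊆ vs \ R.T)
    (hodd : ∀ i, Odd (B i).card) (hdis : ∀ i j, i ≠ j → Disjoint (B i) (B j))
    (hι : Fintype.card ι = 0 ∨ Fintype.card ι = 2)
    (hor : ∀ i, ∀ Z, Cl s t vs es F Z → B i ⊆ Z ∨ Disjoint (B i) Z)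
    {M : Finset E} (hM : M ⊆ es) (he : R.e ∈ M) (h1 : ∀ v ∈ vs, cn s t M {v} = 1)
    (hn : ∀ i, ∃ g ∈ es, cr s t (B i) g ∧ g ∉ M) : Concl s t vs es F R.e := by
  refine ⟨M, hM, he, h1, fun Z hZ ho => ?_⟩
  by_contra hc
  push Not at hc
  have hfull : ∀ g ∈ es, cr s t Z g → g ∈ M := fun g hg hg' => (hc g hg hg').1
  have hcl : Cl s t vs es F Z := ⟨hZ, fun g hg hg' => (hc g hg hg').2⟩
  obtain ⟨a1, a2⟩ := bs_tie1 S he h1 hfull
  obtain ⟨b1, b2⟩ := bs_tie2 S he h1 hfull
  let C : Option (Option ι) → Finset V := fun o => match o with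
    | none => bs_bA R
    | some none => bs_bB R
    | some (some i) => B i
  have hAT := bs_bA_sub R
  have hBT := bs_bB_sub R
  have key : ∃ i, Z = C i ∨ vs \ Z = C i := by
    refine bs_blocks (vs := vs) (B := C) ?_ ?_ ?_ ?_ ?_ hZ ho ?_
    · intro v hv
      by_cases hvT : v ∈ R.T
      · rcases bs_mem_T_or hvT with h | h
        · exact ⟨none, h⟩
        · exact ⟨some none, h⟩
      · obtain ⟨i, hi⟩ := hcov v hv hvT
        exact ⟨some (some i), hi⟩
    · rintro (_ | _ | i)
      · exact hAT.trans S.sub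
      · exact hBT.trans S.sub
      · exact (hsub i).trans sdiff_subset
    · rintro (_ | _ | i)
      · show Odd (bs_bA R).card
        rw [bs_bA_card S]
        decide
      · show Odd (bs_bB R).card
        have := bs_bA_card S.swap
        have h2 : bs_bA R.swap = bs_bB R := rfl
        rw [← h2, this]
        decide
      · exact hodd i
    · have hd1 : ∀ i, Disjoint (bs_bA R) (B i) := fun i => by
        rw [disjoint_left]
        intro v hv hv'
        exact (mem_sdiff.1 (hsub i hv')).2 (hAT hv)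
      have hd2 : ∀ i, Disjoint (bs_bB R) (B i) := fun i => by
        rw [disjoint_left]
        intro v hv hv'
        exact (mem_sdiff.1 (hsub i hv')).2 (hBT hv)
      rintro (_ | _ | i) (_ | _ | j) hij
      · exact absurd rfl hij
      · exact bs_bAB S
      · exact hd1 j
      · exact (bs_bAB S).symm
      · exact absurd rfl hij
      · exact hd2 j
      · exact (hd1 i).symm
      · exact (hd2 i).symm
      · exact hdis i j fun h => hij (by rw [h])
    · simp only [Fintype.card_option]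
      omega
    · rintro (_ | _ | i)
      · show bs_bA R ⊆ Z ∨ Disjoint (bs_bA R) Z
        unfold bs_bA
        by_cases h : R.a ∈ Z
        · left
          intro v hv
          simp only [mem_insert, mem_singleton] at hv
          rcases hv with rfl | rfl | rfl
          exacts [h, a1.1 h, a2.1 h]
        · right
          rw [disjoint_left]
          intro v hv
          simp only [mem_insert, mem_singleton] at hv
          rcases hv with rfl | rfl | rfl
          exacts [h, fun k => h (a1.2 k), fun k => h (a2.2 k)]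
      · show bs_bB R ⊆ Z ∨ Disjoint (bs_bB R) Z
        unfold bs_bB
        by_cases h : R.b ∈ Z
        · left
          intro v hv
          simp only [mem_insert, mem_singleton] at hv
          rcases hv with rfl | rfl | rfl
          exacts [h, b1.1 h, b2.1 h]
        · right
          rw [disjoint_left]
          intro v hv
          simp only [mem_insert, mem_singleton] at hv
          rcases hv with rfl | rfl | rfl
          exacts [h, fun k => h (b1.2 k), fun k => h (b2.2 k)]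
      · exact hor i Z hcl
  have hnC : ∀ i, ∃ g ∈ es, cr s t (C i) g ∧ g ∉ M := by
    rintro (_ | _ | i)
    · exact bs_nfull_A S hM h1
    · exact bs_nfull_B S hM h1
    · exact hn i
  obtain ⟨i, hi⟩ := key
  obtain ⟨g, hg, hcr, hgM⟩ := hnC i
  apply hgM
  apply hfull g hg
  rcases hi with hi | hi
  · rw [hi]
    exact hcr
  · rw [← hi, cr_compl (S.h.ends g hg).1 (S.h.ends g hg).2] at hcr
    exact hcr

/-- three odd circuits outside `T` are too many -/
lemma bs_no_three (S : Stk m s t vs es F R)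
    (nine : ¬ ∃ Z : Fin 9 → Finset V, (∀ i, Z i ⊆ vs ∧ Odd (Z i).card ∧
      ∀ g ∈ es, cr s t (Z i) g → g ∈ F) ∧ ∀ i j, i ≠ j → Disjoint (Z i) (Z j))
    {O₁ O₂ O₃ : Finset V} (c1 : Cl s t vs es F O₁) (c2 : Cl s t vs es F O₂)
    (c3 : Cl s t vs es F O₃) (o1 : Odd O₁.card) (o2 : Odd O₂.card) (o3 : Odd O₃.card)
    (t1 : Disjoint O₁ R.T) (t2 : Disjoint O₂ R.T) (t3 : Disjoint O₃ R.T)
    (d12 : Disjoint O₁ O₂) (d13 : Disjoint O₁ O₃) (d23 : Disjoint O₂ O₃) : False := by
  let C : Option (Option (Option R.T)) → Finset V := fun o => match o with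
    | none => O₁
    | some none => O₂
    | some (some none) => O₃
    | some (some (some v)) => {(v : V)}
  have hcard : Fintype.card (Option (Option (Option R.T))) = 9 := by
    simp only [Fintype.card_option, Fintype.card_coe]
    rw [bs_Tcard S]
  let ψ : Fin 9 ≃ Option (Option (Option R.T)) := (Fintype.equivFinOfCardEq hcard).symm
  have hC : ∀ o, C o ⊆ vs ∧ Odd (C o).card ∧ ∀ g ∈ es, cr s t (C o) g → g ∈ F := by
    rintro (_ | _ | _ | v)
    · exact ⟨c1.1, o1, c1.2⟩
    · exact ⟨c2.1, o2, c2.2⟩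
    · exact ⟨c3.1, o3, c3.2⟩
    · refine ⟨singleton_subset_iff.2 (S.sub v.2), ?_, S.full _ v.2⟩
      show Odd ({(v : V)} : Finset V).card
      rw [card_singleton]
      exact odd_one
  have hv : ∀ {O : Finset V}, Disjoint O R.T → ∀ v : R.T, Disjoint O {(v : V)} := by
    intro O h v
    rw [disjoint_singleton_right]
    exact fun h' => disjoint_left.1 h h' v.2
  have hD : ∀ o o', o ≠ o' → Disjoint (C o) (C o') := by
    rintro (_ | _ | _ | v) (_ | _ | _ | v') hij
    · exact absurd rfl hij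
    · exact d12
    · exact d13
    · exact hv t1 v'
    · exact d12.symm
    · exact absurd rfl hij
    · exact d23
    · exact hv t2 v'
    · exact d13.symm
    · exact d23.symm
    · exact absurd rfl hij
    · exact hv t3 v'
    · exact (hv t1 v).symm
    · exact (hv t2 v).symm
    · exact (hv t3 v).symm
    · show Disjoint ({(v : V)} : Finset V) {(v' : V)}
      rw [disjoint_singleton]
      intro h
      exact hij (by rw [Subtype.ext h])
  exact nine ⟨fun i => C (ψ i), fun i => hC _, fun i j hij => hD _ _ fun h => hij (ψ.injective h)⟩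

/-- vertices of an odd circuit which is not a single vertex -/
lemma bs_deg_two (h : Hyp m s t vs es F) {v₀ : V} (hv₀ : v₀ ∈ vs)
    (hc : (comp s t vs es F v₀).card ≠ 1) :
    ∀ v ∈ comp s t vs es F v₀, cn s t (es \ F) {v} = 2 := by
  intro v hv
  have hvs := comp_sub (s := s) (t := t) (es := es) (F := F) v₀ hv
  have h1 : cn s t es {v} = cn s t (es \ F) {v} + cn s t F {v} := by
    rw [← cn_union sdiff_disjoint, sdiff_union_of_subset h.sub]
  rw [h.cubic v hvs] at h1
  obtain ⟨k, hk⟩ := h.join v hvs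
  have h3 : cn s t (es \ F) {v} ≠ 0 := by
    intro h4
    rw [cn_eq_zero] at h4
    have hcl : Cl s t vs es F {v} := by
      refine ⟨singleton_subset_iff.2 hvs, fun g hg hcr => ?_⟩
      by_contra h5
      exact h4 g (mem_sdiff.2 ⟨hg, h5⟩) hcr
    rcases comp_or h.ends hv₀ hcl with h6 | h6
    · have h7 := card_le_card h6
      rw [card_singleton] at h7
      have h8 : 0 < (comp s t vs es F v₀).card := card_pos.2 ⟨v, hv⟩
      omega
    · exact disjoint_left.1 h6 hv (mem_singleton_self v)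
  omega

/-- the edge `e` and four more edges leave `T` -/
lemma bs_few (S : Stk m s t vs es F R) {M : Finset E} (hM : M ⊆ es) (he : R.e ∈ M)
    (h1 : ∀ v ∈ vs, cn s t M {v} = 1) {O : Finset V} (hOT : Disjoint O R.T)
    (hg : ∀ g ∈ es, cr s t O g → s g ∈ R.T ∨ t g ∈ R.T) : cn s t M O ≤ 4 := by
  have hnd := S.nd
  simp only [List.nodup_cons, List.mem_cons, List.not_mem_nil, or_false, not_or,
    not_false_eq_true, List.nodup_nil, and_true] at hnd
  obtain ⟨⟨ab, ap, aq, ap', aq'⟩, ⟨bp, bq, bp', bq'⟩, ⟨pq, pp', pq'⟩, ⟨qp', qq'⟩, p'q'⟩ := hnd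
  have hmT : ∀ v, v ∈ R.T ↔ v = R.a ∨ v = R.b ∨ v = R.p ∨ v = R.q ∨ v = R.p' ∨ v = R.q' := by
    intro v
    unfold Tree.T
    simp only [mem_insert, mem_singleton]
  have ha : R.a ∈ vs := S.sub ((hmT _).2 (by tauto))
  have hb : R.b ∈ vs := S.sub ((hmT _).2 (by tauto))
  have hno : ∀ v ∈ R.T, v ∉ O := fun v hv h => disjoint_left.1 hOT h hv
  have heO : ¬ cr s t O R.e := by
    rw [S.E0.cr]
    simp [hno _ ((hmT R.a).2 (by tauto)), hno _ ((hmT R.b).2 (by tauto))]
  set L : Finset V := {R.p, R.q, R.p', R.q'} with hL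
  have hLc : L.card ≤ 4 := by
    rw [hL]
    exact (card_insert_le _ _).trans (Nat.succ_le_succ ((card_insert_le _ _).trans
      (Nat.succ_le_succ ((card_insert_le _ _).trans (by rw [card_singleton])))))
  have hLvs : ∀ v ∈ L, v ∈ vs := by
    intro v hv
    apply S.sub
    rw [hmT]
    rw [hL] at hv
    simp only [mem_insert, mem_singleton] at hv
    tauto
  have hend : ∀ g ∈ M, cr s t O g → ∀ v ∈ R.T, cr s t {v} g → v ∈ L := by
    intro g hgM hgO v hv hcr
    have hne : g ≠ R.e := fun h => heO (h ▸ hgO)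
    rw [hmT] at hv
    rw [hL]
    simp only [mem_insert, mem_singleton]
    rcases hv with rfl | rfl | hv
    · obtain ⟨g', -, -, hu⟩ := cn_eq_one_unique (h1 _ ha)
      exact absurd ((hu g hgM hcr).trans (hu _ he (by rw [S.E0.cr]; simp [Ne.symm ab])).symm) hne
    · obtain ⟨g', -, -, hu⟩ := cn_eq_one_unique (h1 _ hb)
      exact absurd ((hu g hgM hcr).trans (hu _ he (by rw [S.E0.cr]; simp [ab])).symm) hne
    · exact hv
  calc cn s t M O ≤ ∑ g ∈ M, ∑ v ∈ L, ci s t {v} g := by
        unfold cn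
        refine sum_le_sum fun g hgM => ?_
        by_cases hgO : cr s t O g
        · rw [ci_eq_one.2 hgO]
          have hl := S.h.noloop g (hM hgM)
          rcases hg g (hM hgM) hgO with hT | hT
          · have h2 : cr s t {s g} g := by
              unfold cr
              simp only [mem_singleton]
              exact fun h => hl (h.1 trivial).symm
            refine le_trans (ci_eq_one.2 h2).ge (single_le_sum (f := fun v => ci s t {v} g)
              (fun _ _ => Nat.zero_le _) (hend g hgM hgO _ hT h2))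
          · have h2 : cr s t {t g} g := by
              unfold cr
              simp only [mem_singleton]
              exact fun h => hl (h.2 trivial)
            refine le_trans (ci_eq_one.2 h2).ge (single_le_sum (f := fun v => ci s t {v} g)
              (fun _ _ => Nat.zero_le _) (hend g hgM hgO _ hT h2))
        · rw [ci_eq_zero.2 hgO]
          exact Nat.zero_le _
    _ = ∑ v ∈ L, cn s t M {v} := by rw [sum_comm]; rfl
    _ = L.card := by
        rw [sum_congr rfl fun v hv => h1 v (hLvs v hv), sum_const, smul_eq_mul, mul_one]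
    _ ≤ 4 := hLc

/-- the stuck situation without even circuits, at most eight odd components -/
theorem bs_base (S : Stk m s t vs es F R)
    (nine : ¬ ∃ Z : Fin 9 → Finset V, (∀ i, Z i ⊆ vs ∧ Odd (Z i).card ∧
      ∀ g ∈ es, cr s t (Z i) g → g ∈ F) ∧ ∀ i j, i ≠ j → Disjoint (Z i) (Z j))
    (hodd : ∀ v ∈ vs, v ∉ R.T → Odd (comp s t vs es F v).card) : Concl s t vs es F R.e := by
  have h := S.h
  have hcl : ∀ v, Cl s t vs es F (comp s t vs es F v) := comp_closed h.ends
  by_cases hvs : ∀ v ∈ vs, v ∈ R.T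
  · obtain ⟨M, hM, he, h1, -⟩ := bs_pm_cut h.ends h.noloop h.cubic h.oddcut S.m0
      (X := bs_bA R) ((bs_bA_sub R).trans S.sub) (by rw [bs_bA_card S]; decide)
    exact bs_good S (ι := Empty) (B := fun i => i.elim) (fun v hv hvT => absurd (hvs v hv) hvT)
      (fun i => i.elim) (fun i => i.elim) (fun i => i.elim) (Or.inl Fintype.card_empty)
      (fun i => i.elim) hM he h1 (fun i => i.elim)
  push Not at hvs
  obtain ⟨v₁, hv₁, hT₁⟩ := hvs
  set O₁ := comp s t vs es F v₁ with hO₁
  have t1 : Disjoint O₁ R.T := S.comp_disj hv₁ hT₁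
  have o1 : Odd O₁.card := hodd v₁ hv₁ hT₁
  have l1 : Cl s t vs es F O₁ := hcl v₁
  have hex : ∃ v ∈ vs, v ∉ R.T ∧ v ∉ O₁ := by
    by_contra hc
    push Not at hc
    have e1 : vs = O₁ ∪ R.T := by
      ext v
      rw [mem_union]
      constructor
      · intro hv
        by_cases h2 : v ∈ R.T
        · exact Or.inr h2
        · exact Or.inl (hc v hv h2)
      · rintro (h2 | h2)
        · exact l1.1 h2
        · exact S.sub h2
    have e2 : vs.card = O₁.card + 6 := by
      conv_lhs => rw [e1]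
      rw [card_union_of_disjoint t1, bs_Tcard S]
    obtain ⟨k, hk⟩ := h.even_card
    obtain ⟨l, hl⟩ := o1
    omega
  obtain ⟨v₂, hv₂, hT₂, hn₂⟩ := hex
  set O₂ := comp s t vs es F v₂ with hO₂
  have t2 : Disjoint O₂ R.T := S.comp_disj hv₂ hT₂
  have o2 : Odd O₂.card := hodd v₂ hv₂ hT₂
  have l2 : Cl s t vs es F O₂ := hcl v₂
  have d12 : Disjoint O₁ O₂ := by
    rcases comp_or h.ends hv₂ l1 with h2 | h2
    · exact absurd (h2 (mem_comp_self hv₂)) hn₂
    · exact h2.symm
  have hcov : ∀ v ∈ vs, v ∉ R.T → v ∈ O₁ ∨ v ∈ O₂ := by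
    intro v hv hT
    by_contra hc
    rw [not_or] at hc
    have d1 : Disjoint O₁ (comp s t vs es F v) := by
      rcases comp_or h.ends hv l1 with h2 | h2
      · exact absurd (h2 (mem_comp_self hv)) hc.1
      · exact h2.symm
    have d2 : Disjoint O₂ (comp s t vs es F v) := by
      rcases comp_or h.ends hv l2 with h2 | h2
      · exact absurd (h2 (mem_comp_self hv)) hc.2
      · exact h2.symm
    exact bs_no_three S nine l1 l2 (hcl v) o1 o2 (hodd v hv hT) t1 t2
      (S.comp_disj hv hT) d12 d1 d2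
  -- the two bs_blocks
  have fin : ∀ M ⊆ es, R.e ∈ M → (∀ v ∈ vs, cn s t M {v} = 1) →
      (∃ g ∈ es, cr s t O₁ g ∧ g ∉ M) → (∃ g ∈ es, cr s t O₂ g ∧ g ∉ M) →
      Concl s t vs es F R.e := by
    intro M hM he h1 n1 n2
    refine bs_good S (ι := Bool) (B := fun b => if b then O₁ else O₂) ?_ ?_ ?_ ?_
      (Or.inr Fintype.card_bool) ?_ hM he h1 ?_
    · intro v hv hT
      rcases hcov v hv hT with h2 | h2
      · exact ⟨true, by simpa using h2⟩
      · exact ⟨false, by simpa using h2⟩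
    · rintro (_ | _)
      · intro v hv
        simp only [Bool.false_eq_true, if_false] at hv
        exact mem_sdiff.2 ⟨l2.1 hv, fun h2 => disjoint_left.1 t2 hv h2⟩
      · intro v hv
        simp only [if_true] at hv
        exact mem_sdiff.2 ⟨l1.1 hv, fun h2 => disjoint_left.1 t1 hv h2⟩
    · rintro (_ | _)
      · simpa using o2
      · simpa using o1
    · rintro (_ | _) (_ | _) hij
      · exact absurd rfl hij
      · simpa using d12.symm
      · simpa using d12
      · exact absurd rfl hij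
    · rintro (_ | _) Z hZ
      · simpa using comp_or h.ends hv₂ hZ
      · simpa using comp_or h.ends hv₁ hZ
    · rintro (_ | _)
      · simpa using n2
      · simpa using n1
  by_cases c1 : O₁.card = 1
  · obtain ⟨M, hM, he, h1, h2⟩ := bs_pm_cut h.ends h.noloop h.cubic h.oddcut S.m0 l2.1 o2
    exact fin M hM he h1 (bs_nfull_one h h1 l1.1 c1) (bs_nfull h2)
  by_cases c2 : O₂.card = 1
  · obtain ⟨M, hM, he, h1, h2⟩ := bs_pm_cut h.ends h.noloop h.cubic h.oddcut S.m0 l1.1 o1
    exact fin M hM he h1 (bs_nfull h2) (bs_nfull_one h h1 l2.1 c2)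
  by_cases hg : ∃ g ∈ es, cr s t O₁ g ∧ cr s t O₂ g
  · obtain ⟨g₀, hg₀, k1, k2⟩ := hg
    have avoid : ∀ h' : E → ℝ, (∀ v ∈ vs, bs_ws s t es h' {v} = 0) → h' g₀ < h' R.e →
        Concl s t vs es F R.e := by
      intro h' hz hlt
      obtain ⟨M, hM, he, hgM, h1⟩ := bs_pm_avoid h.ends h.noloop h.cubic
        (fun X hX ho h2 h3 => bs_five S hX ho h2 h3) S.m0 hg₀ hz hlt
      exact fin M hM he h1 ⟨g₀, hg₀, k1, hgM⟩ ⟨g₀, hg₀, k2, hgM⟩
    by_contra hcon
    have hall : ∀ h' : E → ℝ, (∀ v ∈ vs, bs_ws s t es h' {v} = 0) → h' g₀ = h' R.e := by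
      intro h' hz
      rcases lt_trichotomy (h' g₀) (h' R.e) with h2 | h2 | h2
      · exact absurd (avoid h' hz h2) hcon
      · exact h2
      · refine absurd (avoid (fun g => (-1) * h' g) (fun v hv => ?_) (by linarith)) hcon
        rw [bs_ws_smul, hz v hv, mul_zero]
    obtain ⟨y, hy⟩ := bs_exists_pot h.ends h.noloop S.m0 hg₀ hall
    have haT : R.a ∈ R.T := by unfold Tree.T; simp
    have hbT : R.b ∈ R.T := by unfold Tree.T; simp
    have hgF : g₀ ∈ F := l1.2 g₀ hg₀ k1
    have heO : ¬ cr s t O₁ R.e := by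
      rw [S.E0.cr, not_not]
      exact ⟨fun h2 => absurd haT (disjoint_left.1 t1 h2),
        fun h2 => absurd hbT (disjoint_left.1 t1 h2)⟩
    have hge : g₀ ≠ R.e := fun h2 => heO (h2 ▸ k1)
    have hnd := S.nd
    have hab : R.a ≠ R.b := by
      simp only [List.nodup_cons, List.mem_cons, List.not_mem_nil, or_false, not_or,
        not_false_eq_true, List.nodup_nil, and_true] at hnd
      exact hnd.1.1
    have heF : R.e ∈ F := S.full R.a haT R.e S.m0 (by rw [S.E0.cr]; simp [hab.symm])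
    have hy0 : ∀ g ∈ es, g ∉ F → y (s g) + y (t g) = 0 := by
      intro g hg hgF'
      have n1 : g ≠ g₀ := fun h2 => hgF' (by rw [h2]; exact hgF)
      have n2 : g ≠ R.e := fun h2 => hgF' (by rw [h2]; exact heF)
      rw [hy g hg, if_neg n1, if_neg n2, sub_zero]
    have z1 := bs_pot_zero h.ends h.noloop hv₁ o1 (bs_deg_two h hv₁ c1) hy0
    have z2 := bs_pot_zero h.ends h.noloop hv₂ o2 (bs_deg_two h hv₂ c2) hy0
    have hy1 := hy g₀ hg₀
    rw [if_pos rfl, if_neg hge, sub_zero] at hy1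
    have d12' := disjoint_left.1 d12
    by_cases a1 : s g₀ ∈ O₁
    · have a2 : t g₀ ∈ O₂ := by
        by_contra a2
        apply k2
        exact ⟨fun h2 => absurd h2 (d12' a1), fun h2 => absurd h2 a2⟩
      rw [z1 _ a1, z2 _ a2] at hy1
      norm_num at hy1
    · have a2 : t g₀ ∈ O₁ := by
        by_contra a2
        exact k1 ⟨fun h2 => absurd h2 a1, fun h2 => absurd h2 a2⟩
      have a3 : s g₀ ∈ O₂ := by
        by_contra a3
        exact k2 ⟨fun h2 => absurd h2 a3, fun h2 => absurd h2 (d12' a2)⟩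
      rw [z1 _ a2, z2 _ a3] at hy1
      norm_num at hy1
  · push Not at hg
    obtain ⟨M, hM, he, h1, -⟩ := bs_pm_cut h.ends h.noloop h.cubic h.oddcut S.m0 l2.1 o2
    have hcv : O₁.card + O₂.card + 6 ≤ vs.card := by
      have h2 : O₁ ∪ O₂ ∪ R.T ⊆ vs :=
        union_subset (union_subset l1.1 l2.1) S.sub
      have h3 := card_le_card h2
      rw [card_union_of_disjoint (disjoint_union_left.2 ⟨t1, t2⟩), card_union_of_disjoint d12,
        bs_Tcard S] at h3
      exact h3
    have f1 := bs_five S l1.1 o1 c1 (by omega)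
    have f2 := bs_five S l2.1 o2 c2 (by omega)
    have hT : ∀ g ∈ es, (cr s t O₁ g ∨ cr s t O₂ g) → s g ∈ R.T ∨ t g ∈ R.T := by
      intro g hg' hor
      by_contra hc
      rw [not_or] at hc
      have k3 := hcov _ (h.ends g hg').1 hc.1
      have k4 := hcov _ (h.ends g hg').2 hc.2
      have d12' : ∀ {v}, v ∈ O₁ → v ∉ O₂ := fun {v} hv => disjoint_left.1 d12 hv
      have d21 : ∀ {v}, v ∈ O₂ → v ∉ O₁ := fun {v} hv hv' => disjoint_left.1 d12 hv' hv
      have n1 := hg g hg'
      rcases k3 with a1 | a1 <;> rcases k4 with a2 | a2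
      · rcases hor with h2 | h2
        · exact h2 ⟨fun _ => a2, fun _ => a1⟩
        · exact h2 ⟨fun h3 => absurd h3 (d12' a1), fun h3 => absurd h3 (d12' a2)⟩
      · exact n1 (fun h3 => d21 a2 (h3.1 a1)) (fun h3 => d12' a1 (h3.2 a2))
      · exact n1 (fun h3 => d21 a1 (h3.2 a2)) (fun h3 => d12' a2 (h3.1 a1))
      · rcases hor with h2 | h2
        · exact h2 ⟨fun h3 => absurd h3 (d21 a1), fun h3 => absurd h3 (d21 a2)⟩
        · exact h2 ⟨fun _ => a2, fun _ => a1⟩
    have g1 := bs_few S hM he h1 t1 fun g hg' hcr => hT g hg' (Or.inl hcr)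
    have g2 := bs_few S hM he h1 t2 fun g hg' hcr => hT g hg' (Or.inr hcr)
    exact fin M hM he h1 (bs_nfull (by omega)) (bs_nfull (by omega))

/-- **the stuck situation without even circuits, at most eight odd components** -/
theorem base8 (S : Stk 9 s t vs es F R)
    (hodd : ∀ v ∈ vs, v ∉ R.T → Odd (comp s t vs es F v).card) : Concl s t vs es F R.e :=
  bs_base S S.h.many hodd

end OddN
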