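import Pool.Agent.Lib.OddN.Supp
import Pool.Agent.Lib.OddN.Match

/-! An even circuit `C` outside `F`, one of its perfect matchings `P`, the graph `H` in which the
other half of the circuit is deleted: definitions. -/

set_option autoImplicit false

namespace OddN

open Finset Classical

variable {V E : Type*}

/-- `C` is an even circuit outside `F`, `P` a perfect matching of it -/
structure Circ (s t : E → V) (vs : Finset V) (es F P : Finset E) (C : Finset V) : Prop where
  sub : C ⊆ vs
  ne : C.Nonempty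
  cl : ∀ g ∈ es, cr s t C g → g ∈ F
  min : ∀ X ⊆ vs, (∀ g ∈ es, cr s t X g → g ∈ F) → C ⊆ X ∨ Disjoint C X
  even : Even C.card
  deg : ∀ v ∈ C, cn s t (es \ F) {v} = 2
  Psub : P ⊆ es
  PF : Disjoint P F
  Pends : ∀ g ∈ P, s g ∈ C ∧ t g ∈ C
  Pone : ∀ v ∈ C, cn s t P {v} = 1

/-- the edges left after deleting the half of the circuit `C` that is not in `P` -/
noncomputable def eH (s : E → V) (es F P : Finset E) (C : Finset V) : Finset E :=
  es.filter fun g => g ∈ F ∨ g ∈ P ∨ s g ∉ C

/-- the sets crossed by exactly one edge of `H` -/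
def Fam (s t : E → V) (vs : Finset V) (es F P : Finset E) (C X : Finset V) : Prop :=
  X ⊆ vs ∧ cn s t (eH s es F P C) X = 1

/-- the minimal ones -/
def Leaf (s t : E → V) (vs : Finset V) (es F P : Finset E) (C X : Finset V) : Prop :=
  Fam s t vs es F P C X ∧ ∀ S ⊆ X, Fam s t vs es F P C S → S = X

/-- `ρ` is a segment of `C` in `W`: two edges outside `F` leave it, and they leave `W` -/
structure Seg (s t : E → V) (es F : Finset E) (C W ρ : Finset V) : Prop where
  sub : ρ ⊆ C
  subW : ρ ⊆ W
  ne : ρ.Nonempty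
  two : cn s t (es \ F) ρ = 2
  out : ∀ g ∈ es, g ∉ F → cr s t ρ g → ¬ (s g ∈ W ∧ t g ∈ W)

/-- the edges of the graph obtained from the side `W`: those touching `W` which are in `H` or touch
the segment `ρ` -/
noncomputable def eW (s t : E → V) (es F P : Finset E) (C W ρ : Finset V) : Finset E :=
  (touch s t es W).filter fun g => g ∈ F ∨ g ∈ P ∨ s g ∉ C ∨ s g ∈ ρ ∨ t g ∈ ρ

/-- the edges of `P` to be suppressed -/
noncomputable def pW (s : E → V) (P : Finset E) (C W ρ : Finset V) : Finset E :=
  P.filter fun g => s g ∈ (C ∩ W) \ ρ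

variable {m : ℕ} {s t : E → V} {vs : Finset V} {es F P : Finset E} {C : Finset V}

lemma mem_eH {g : E} : g ∈ eH s es F P C ↔ g ∈ es ∧ (g ∈ F ∨ g ∈ P ∨ s g ∉ C) := by
  unfold eH; rw [mem_filter]

lemma mem_eW {W ρ : Finset V} {g : E} : g ∈ eW s t es F P C W ρ ↔
    g ∈ es ∧ (s g ∈ W ∨ t g ∈ W) ∧ (g ∈ F ∨ g ∈ P ∨ s g ∉ C ∨ s g ∈ ρ ∨ t g ∈ ρ) := by
  unfold eW; rw [mem_filter, mem_touch, and_assoc]

lemma mem_pW {W ρ : Finset V} {g : E} : g ∈ pW s P C W ρ ↔
    g ∈ P ∧ s g ∈ C ∧ s g ∈ W ∧ s g ∉ ρ := by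
  unfold pW; rw [mem_filter, mem_sdiff, mem_inter, and_assoc]

lemma eH_sub : eH s es F P C ⊆ es := filter_subset _ _

/-- an edge outside `F` has both or no ends in the circuit -/
lemma Circ.both (K : Circ s t vs es F P C) {g : E} (hg : g ∈ es) (hF : g ∉ F) :
    s g ∈ C ↔ t g ∈ C := by
  by_contra h
  exact hF (K.cl g hg h)

/-- the edges missing in `H` -/
lemma Circ.notin (K : Circ s t vs es F P C) {g : E} (hg : g ∈ es) (h : g ∉ eH s es F P C) :
    g ∉ F ∧ g ∉ P ∧ s g ∈ C ∧ t g ∈ C := by
  rw [mem_eH] at h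
  have h1 : ¬ (g ∈ F ∨ g ∈ P ∨ s g ∉ C) := fun h' => h ⟨hg, h'⟩
  rw [not_or, not_or, not_not] at h1
  exact ⟨h1.1, h1.2.1, h1.2.2, (K.both hg h1.1).1 h1.2.2⟩

/-- degree of `H` on the circuit -/
lemma Circ.degH (h : Hyp m s t vs es F) (K : Circ s t vs es F P C) {v : V} (hv : v ∈ C) :
    cn s t (eH s es F P C) {v} = 2 := by
  have h3 := h.cubic v (K.sub hv)
  have hd := K.deg v hv
  have hP := K.Pone v hv
  have e1 := cn_filter_add s t es (fun g => g ∈ F) {v}
  have e2 : es.filter (fun g => g ∈ F) = F := by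
    ext g
    rw [mem_filter]
    exact ⟨fun h' => h'.2, fun h' => ⟨h.sub h', h'⟩⟩
  have e3 : (es.filter fun g => ¬ g ∈ F) = es \ F := by
    ext g
    rw [mem_filter, mem_sdiff]
  rw [e2, e3] at e1
  have e4 : cn s t (eH s es F P C) {v} = cn s t (P ∪ F) {v} := by
    rw [cn_eq_card, cn_eq_card]
    congr 1
    ext g
    rw [mem_filter, mem_filter, mem_eH, mem_union]
    constructor
    · rintro ⟨⟨h1, h2⟩, h3⟩
      refine ⟨?_, h3⟩
      rcases h2 with h2 | h2 | h2
      · exact Or.inr h2
      · exact Or.inl h2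
      · by_contra h4
        rw [not_or] at h4
        have h5 := K.both h1 h4.2
        unfold cr at h3
        simp only [mem_singleton] at h3
        apply h3
        constructor
        · intro h6
          exact absurd (h6 ▸ hv) h2
        · intro h6
          exact absurd (h6 ▸ hv) fun h7 => h2 (h5.2 h7)
    · rintro ⟨h1 | h1, h2⟩
      · exact ⟨⟨K.Psub h1, Or.inr (Or.inl h1)⟩, h2⟩
      · exact ⟨⟨h.sub h1, Or.inl h1⟩, h2⟩
  rw [e4, cn_union K.PF, hP]
  omega

/-- degree of `H` off the circuit -/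
lemma Circ.degH' (h : Hyp m s t vs es F) (K : Circ s t vs es F P C) {v : V} (hv : v ∈ vs)
    (hvC : v ∉ C) : cn s t (eH s es F P C) {v} = 3 := by
  rw [← h.cubic v hv, cn_eq_card, cn_eq_card]
  congr 1
  ext g
  rw [mem_filter, mem_filter]
  constructor
  · rintro ⟨h1, h2⟩
    exact ⟨eH_sub h1, h2⟩
  · rintro ⟨h1, h2⟩
    refine ⟨?_, h2⟩
    by_contra h3
    obtain ⟨-, -, h4, h5⟩ := K.notin h1 h3
    unfold cr at h2
    simp only [mem_singleton] at h2
    exact h2 ⟨fun h6 => absurd (h6 ▸ h4) hvC, fun h6 => absurd (h6 ▸ h5) hvC⟩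

/-- parity for degrees two and three -/
lemma odd_cn2 {A : Finset E} (hA : ∀ e ∈ A, s e ≠ t e) {X U : Finset V}
    (h1 : ∀ v ∈ X, v ∈ U → Even (cn s t A {v})) (h2 : ∀ v ∈ X, v ∉ U → Odd (cn s t A {v})) :
    Odd (cn s t A X) ↔ Odd (X \ U).card := by
  have h3 := sum_cn hA X
  have h4 : Odd (∑ v ∈ X, cn s t A {v}) ↔ Odd (X \ U).card := by
    rw [Finset.odd_sum_iff_odd_card_odd]
    have : X.filter (fun v => Odd (cn s t A {v})) = X \ U := by
      ext v
      rw [mem_filter, mem_sdiff]
      refine and_congr_right fun hv => ?_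
      constructor
      · intro h5 h6
        exact (Nat.not_odd_iff_even.2 (h1 v hv h6)) h5
      · exact h2 v hv
    rw [this]
  rw [← h4, h3, Nat.odd_add]
  simp

/-- parity of the cuts of `H` -/
lemma Circ.odd_H (h : Hyp m s t vs es F) (K : Circ s t vs es F P C) {X : Finset V}
    (hX : X ⊆ vs) : Odd (cn s t (eH s es F P C) X) ↔ Odd (X \ C).card := by
  apply odd_cn2 fun e he => h.noloop e (eH_sub he)
  · intro v _ hvC
    rw [K.degH h hvC]
    decide
  · intro v hv hvC
    rw [K.degH' h (hX hv) hvC]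
    decide

/-- the number of edges outside `F` crossing a part of the circuit is even -/
lemma Circ.even_D (h : Hyp m s t vs es F) (K : Circ s t vs es F P C) {B : Finset V}
    (hB : B ⊆ C) : Even (cn s t (es \ F) B) := by
  rw [← Nat.not_odd_iff_even, odd_cn2 (U := C) fun e he => h.noloop e (mem_sdiff.1 he).1]
  · rw [sdiff_eq_empty_iff_subset.2 hB, card_empty]
    decide
  · intro v hv _
    rw [K.deg v (hB hv)]
    decide
  · intro v hv hvC
    exact absurd (hB hv) hvC

/-- a proper nonempty part of the circuit is crossed by at least two edges outside `F` -/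
lemma Circ.two_le (h : Hyp m s t vs es F) (K : Circ s t vs es F P C) {B : Finset V}
    (hB : B ⊆ C) (h1 : B.Nonempty) (h2 : B ≠ C) : 2 ≤ cn s t (es \ F) B := by
  have h3 := K.even_D h hB
  have h4 : cn s t (es \ F) B ≠ 0 := by
    intro h5
    rw [cn_eq_zero] at h5
    rcases K.min B (hB.trans K.sub) (fun g hg hc => by
      by_contra hF
      exact h5 g (mem_sdiff.2 ⟨hg, hF⟩) hc) with h6 | h6
    · exact h2 (Finset.Subset.antisymm hB h6)
    · obtain ⟨v, hv⟩ := h1
      exact (disjoint_left.1 h6) (hB hv) hv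
  obtain ⟨k, hk⟩ := h3
  omega

/-- off the circuit, edges outside `F` do not cross a set which is crossed by at most one edge
of `H` -/
lemma Circ.no_D (h : Hyp m s t vs es F) (K : Circ s t vs es F P C)
    (hiso : ∀ v ∈ vs, v ∉ C → Even (cn s t (es \ F) {v})) {X : Finset V} (hX : X ⊆ vs)
    (h1 : cn s t (eH s es F P C) X ≤ 1) : ∀ g ∈ es, s g ∉ C → cr s t X g → g ∈ F := by
  set A := (es \ F).filter fun g => s g ∉ C with hA
  have hAH : A ⊆ eH s es F P C := by
    intro g hg
    rw [hA, mem_filter, mem_sdiff] at hg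
    exact mem_eH.2 ⟨hg.1.1, Or.inr (Or.inr hg.2)⟩
  have hev : Even (cn s t A X) := by
    rw [← Nat.not_odd_iff_even, odd_cn2 (U := X) fun e he => h.noloop e (eH_sub (hAH he))]
    · simp
    · intro v hv _
      by_cases hvC : v ∈ C
      · have : cn s t A {v} = 0 := by
          rw [cn_eq_zero]
          intro g hg hc
          rw [hA, mem_filter, mem_sdiff] at hg
          have h5 := K.both hg.1.1 hg.1.2
          unfold cr at hc
          simp only [mem_singleton] at hc
          apply hc
          constructor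
          · intro h6
            exact absurd (h6 ▸ hvC) hg.2
          · intro h6
            exact absurd (h6 ▸ hvC) fun h7 => hg.2 (h5.2 h7)
        rw [this]
        decide
      · have : cn s t A {v} = cn s t (es \ F) {v} := by
          rw [cn_eq_card, cn_eq_card]
          congr 1
          ext g
          constructor
          · intro hg
            have h2 := mem_filter.1 hg
            exact mem_filter.2 ⟨(mem_filter.1 h2.1).1, h2.2⟩
          · intro hg
            obtain ⟨h2, h3⟩ := mem_filter.1 hg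
            have h2' := mem_sdiff.1 h2
            refine mem_filter.2 ⟨mem_filter.2 ⟨h2, fun h4 => ?_⟩, h3⟩
            have h5 := K.both h2'.1 h2'.2
            unfold cr at h3
            simp only [mem_singleton] at h3
            exact h3 ⟨fun h6 => absurd (h6 ▸ h4) hvC, fun h6 => absurd (h6 ▸ h5.1 h4) hvC⟩
        rw [this]
        exact hiso v (hX hv) hvC
    · intro v hv hvX
      exact absurd hv hvX
  have hle : cn s t A X ≤ 1 := (cn_mono hAH X).trans h1
  have h0 : cn s t A X = 0 := by
    obtain ⟨k, hk⟩ := hev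
    omega
  rw [cn_eq_zero] at h0
  intro g hg hgC hc
  by_contra hF
  exact h0 g (by rw [hA, mem_filter, mem_sdiff]; exact ⟨⟨hg, hF⟩, hgC⟩) hc

/-- every vertex has even degree outside `F` -/
lemma even_degD (h : Hyp m s t vs es F) {v : V} (hv : v ∈ vs) : Even (cn s t (es \ F) {v}) := by
  have h3 := h.cubic v hv
  have hj := h.join v hv
  have e1 := cn_filter_add s t es (fun g => g ∈ F) {v}
  have e2 : es.filter (fun g => g ∈ F) = F := by
    ext g
    rw [mem_filter]
    exact ⟨fun h' => h'.2, fun h' => ⟨h.sub h', h'⟩⟩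
  have e3 : (es.filter fun g => ¬ g ∈ F) = es \ F := by
    ext g
    rw [mem_filter, mem_sdiff]
  rw [e2, e3] at e1
  obtain ⟨k, hk⟩ := hj
  exact ⟨1 - k, by omega⟩

/-- edges outside `F` with an end off the circuit do not cross a set which is crossed by at most one
edge of `H` -/
lemma Circ.no_D' (h : Hyp m s t vs es F) (K : Circ s t vs es F P C) {X : Finset V} (hX : X ⊆ vs)
    (h1 : cn s t (eH s es F P C) X ≤ 1) : ∀ g ∈ es, s g ∉ C → cr s t X g → g ∈ F :=
  K.no_D h (fun _ hv _ => even_degD h hv) hX h1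

end OddN
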