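import Pool.Agent.Lib.OddN.Glue
import Pool.Agent.Lib.OddN.Red

/-! The stuck situation: the six vertices around the prescribed edge have all their edges in `F`.
Definitions. -/

set_option autoImplicit false

namespace OddN

open Finset Classical

variable {V E : Type*}

/-- names of the vertices and edges around the edge `e = ab`: `a` is joined to `p`, `q` by `e1`, `e2`
and `b` to `p'`, `q'` by `e3`, `e4` -/
structure Tree (V E : Type*) where
  a : V
  b : V
  p : V
  q : V
  p' : V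
  q' : V
  e : E
  e1 : E
  e2 : E
  e3 : E
  e4 : E

/-- the six vertices -/
noncomputable def Tree.T (R : Tree V E) : Finset V := {R.a, R.b, R.p, R.q, R.p', R.q'}

/-- `l` is a leaf, `l'` its neighbour, `τ` the edge between them -/
def Tree.Leaf (R : Tree V E) (l l' : V) (τ : E) : Prop :=
  (l = R.p ∧ l' = R.a ∧ τ = R.e1) ∨ (l = R.q ∧ l' = R.a ∧ τ = R.e2) ∨
    (l = R.p' ∧ l' = R.b ∧ τ = R.e3) ∨ (l = R.q' ∧ l' = R.b ∧ τ = R.e4)

/-- the other side first -/
def Tree.swap (R : Tree V E) : Tree V E where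
  a := R.b
  b := R.a
  p := R.p'
  q := R.q'
  p' := R.p
  q' := R.q
  e := R.e
  e1 := R.e3
  e2 := R.e4
  e3 := R.e1
  e4 := R.e2

/-- the stuck situation -/
structure Stk (m : ℕ) (s t : E → V) (vs : Finset V) (es F : Finset E) (R : Tree V E) : Prop where
  h : Hyp m s t vs es F
  hcut : ∀ X ⊆ vs, Odd X.card → 3 ≤ X.card → X.card + 3 ≤ vs.card → cn s t es X ≠ 3
  nd : [R.a, R.b, R.p, R.q, R.p', R.q'].Nodup
  sub : R.T ⊆ vs
  E0 : Ends s t R.e R.a R.b
  E1 : Ends s t R.e1 R.a R.p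
  E2 : Ends s t R.e2 R.a R.q
  E3 : Ends s t R.e3 R.b R.p'
  E4 : Ends s t R.e4 R.b R.q'
  m0 : R.e ∈ es
  m1 : R.e1 ∈ es
  m2 : R.e2 ∈ es
  m3 : R.e3 ∈ es
  m4 : R.e4 ∈ es
  full : ∀ v ∈ R.T, ∀ g ∈ es, cr s t {v} g → g ∈ F
  alla : ∀ g ∈ es, cr s t {R.a} g → g = R.e ∨ g = R.e1 ∨ g = R.e2
  allb : ∀ g ∈ es, cr s t {R.b} g → g = R.e ∨ g = R.e3 ∨ g = R.e4

/-- closed sets: only edges of `F` cross -/
def Cl (s t : E → V) (vs : Finset V) (es F : Finset E) (X : Finset V) : Prop :=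
  X ⊆ vs ∧ ∀ g ∈ es, cr s t X g → g ∈ F

/-- the circuit of `v` (smallest closed set containing `v`) -/
noncomputable def comp (s t : E → V) (vs : Finset V) (es F : Finset E) (v : V) : Finset V :=
  vs.filter fun u => ∀ X, Cl s t vs es F X → v ∈ X → u ∈ X

variable {m : ℕ} {s t : E → V} {vs : Finset V} {es F : Finset E} {R : Tree V E}

lemma Tree.swap_T (R : Tree V E) : R.swap.T = R.T := by
  unfold Tree.T Tree.swap
  ext v
  simp only [mem_insert, mem_singleton]
  tauto

lemma Tree.swap_Leaf (R : Tree V E) {l l' : V} {τ : E} : R.swap.Leaf l l' τ ↔ R.Leaf l l' τ := by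
  unfold Tree.Leaf Tree.swap
  tauto

lemma Stk.swap (S : Stk m s t vs es F R) : Stk m s t vs es F R.swap where
  h := S.h
  hcut := S.hcut
  nd := by
    have := S.nd
    simp only [Tree.swap, List.nodup_cons, List.mem_cons, List.not_mem_nil, or_false, not_or,
      not_false_eq_true, List.nodup_nil, and_true] at this ⊢
    simp only [eq_comm] at this ⊢
    tauto
  sub := by rw [R.swap_T]; exact S.sub
  E0 := by
    rcases S.E0 with h | h
    · exact Or.inr h
    · exact Or.inl h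
  E1 := S.E3
  E2 := S.E4
  E3 := S.E1
  E4 := S.E2
  m0 := S.m0
  m1 := S.m3
  m2 := S.m4
  m3 := S.m1
  m4 := S.m2
  full := by rw [R.swap_T]; exact S.full
  alla := S.allb
  allb := S.alla

/-! ### the circuit -/

lemma comp_sub (v : V) : comp s t vs es F v ⊆ vs := filter_subset _ _

lemma mem_comp_self {v : V} (hv : v ∈ vs) : v ∈ comp s t vs es F v :=
  mem_filter.2 ⟨hv, fun _ _ h => h⟩

lemma comp_closed (ends : ∀ e ∈ es, s e ∈ vs ∧ t e ∈ vs) (v : V) :
    Cl s t vs es F (comp s t vs es F v) := by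
  refine ⟨comp_sub v, fun g hg hc => ?_⟩
  by_contra hF
  apply hc
  have he := ends g hg
  unfold comp
  rw [mem_filter, mem_filter]
  constructor
  · rintro ⟨-, h⟩
    refine ⟨he.2, fun X hX hv => ?_⟩
    have h1 := h X hX hv
    by_contra h2
    exact hF (hX.2 g hg fun h3 => h2 (h3.1 h1))
  · rintro ⟨-, h⟩
    refine ⟨he.1, fun X hX hv => ?_⟩
    have h1 := h X hX hv
    by_contra h2
    exact hF (hX.2 g hg fun h3 => h2 (h3.2 h1))

lemma Cl.compl {X : Finset V} (ends : ∀ e ∈ es, s e ∈ vs ∧ t e ∈ vs)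
    (hX : Cl s t vs es F X) : Cl s t vs es F (vs \ X) := by
  refine ⟨sdiff_subset, fun g hg hc => hX.2 g hg ?_⟩
  rwa [cr_compl (ends g hg).1 (ends g hg).2] at hc

/-- a closed set contains the circuit or is disjoint from it -/
lemma comp_or {X : Finset V} (ends : ∀ e ∈ es, s e ∈ vs ∧ t e ∈ vs) {v : V} (hv : v ∈ vs)
    (hX : Cl s t vs es F X) :
    comp s t vs es F v ⊆ X ∨ Disjoint (comp s t vs es F v) X := by
  by_cases h1 : v ∈ X
  · exact Or.inl fun u hu => (mem_filter.1 hu).2 X hX h1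
  · right
    rw [disjoint_left]
    intro u hu hu'
    have h2 := (mem_filter.1 hu).2 (vs \ X) (hX.compl ends) (mem_sdiff.2 ⟨hv, h1⟩)
    exact (mem_sdiff.1 h2).2 hu'

lemma Stk.cl_sing (S : Stk m s t vs es F R) {v : V} (hv : v ∈ R.T) : Cl s t vs es F {v} :=
  ⟨singleton_subset_iff.2 (S.sub hv), S.full v hv⟩

lemma Stk.comp_disj (S : Stk m s t vs es F R) {v : V} (hv : v ∈ vs) (hvT : v ∉ R.T) :
    Disjoint (comp s t vs es F v) R.T := by
  rw [disjoint_left]
  intro u hu huT
  rcases comp_or S.h.ends hv (S.cl_sing huT) with h1 | h1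
  · have := h1 (mem_comp_self hv)
    rw [mem_singleton] at this
    exact hvT (this ▸ huT)
  · exact (disjoint_left.1 h1) hu (mem_singleton_self _)

end OddN
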