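import Pool.Agent.Lib.OddN.Circ
import Pool.Agent.Lib.OddN.Stk

/-! An even component of the cycle is an even circuit with a perfect matching. -/

set_option autoImplicit false

namespace OddN

open Finset Classical

variable {V E : Type*} {m : ℕ} {s t : E → V} {vs : Finset V} {es F P : Finset E}
  {C : Finset V}

theorem exists_circ_of (h : Hyp m s t vs es F) (hcl : Cl s t vs es F C) (hne : C.Nonempty)
    (hmin : ∀ X ⊆ vs, (∀ g ∈ es, cr s t X g → g ∈ F) → C ⊆ X ∨ Disjoint C X)
    (hev : Even C.card) : ∃ P, Circ s t vs es F P C := by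
  have hb : ∀ {g : E}, g ∈ es → g ∉ F → (s g ∈ C ↔ t g ∈ C) := by
    intro g hg hF
    by_contra h'
    exact hF (hcl.2 g hg h')
  have hdeg : ∀ v ∈ C, cn s t (es \ F) {v} = 2 := by
    intro v hv
    have hvs := hcl.1 hv
    have h1 : cn s t es {v} = cn s t (es \ F) {v} + cn s t F {v} := by
      rw [← cn_union sdiff_disjoint, sdiff_union_of_subset h.sub]
    rw [h.cubic v hvs] at h1
    have h2 := h.join v hvs
    have h3 : cn s t (es \ F) {v} ≠ 0 := by
      intro h4
      rw [cn_eq_zero] at h4
      rcases hmin {v} (singleton_subset_iff.2 hvs) (fun g hg hc => by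
        by_contra h6
        exact h4 g (mem_sdiff.2 ⟨hg, h6⟩) hc) with h6 | h6
      · have h7 : C = {v} := Subset.antisymm h6 (singleton_subset_iff.2 hv)
        rw [h7, card_singleton] at hev
        exact absurd hev (by decide)
      · exact (disjoint_left.1 h6) hv (mem_singleton_self v)
    obtain ⟨k, hk⟩ := h2
    omega
  obtain ⟨P, hP, hP1⟩ := exists_match (s := s) (t := t) (W := C)
    (D := es.filter fun g => g ∉ F ∧ s g ∈ C)
    (fun g hg => by
      obtain ⟨h1, h2, h3⟩ := mem_filter.1 hg
      exact ⟨h3, (hb h1 h2).1 h3⟩)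
    (fun g hg => h.noloop g (mem_filter.1 hg).1)
    (fun v hv => by
      have h7 : cn s t (es.filter fun g => g ∉ F ∧ s g ∈ C) {v} = cn s t (es \ F) {v} := by
        rw [cn_eq_card, cn_eq_card]
        congr 1
        ext g
        simp only [mem_filter, mem_sdiff]
        constructor
        · rintro ⟨⟨h8, h9, -⟩, h10⟩
          exact ⟨⟨h8, h9⟩, h10⟩
        · rintro ⟨⟨h8, h9⟩, h10⟩
          refine ⟨⟨h8, h9, ?_⟩, h10⟩
          by_contra h11
          have h12 : t g ∉ C := fun h13 => h11 ((hb h8 h9).2 h13)
          apply h10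
          rw [mem_singleton, mem_singleton]
          constructor
          · intro h13
            rw [h13] at h11
            exact absurd hv h11
          · intro h13
            rw [h13] at h12
            exact absurd hv h12
      rw [h7, hdeg v hv])
    (fun Z hZ hc => by
      rcases hmin Z (hZ.trans hcl.1) (fun g hg hgc => by
        by_contra h6
        refine hc g (mem_filter.2 ⟨hg, h6, ?_⟩) hgc
        by_contra h7
        have h8 : t g ∉ C := fun h9 => h7 ((hb hg h6).2 h9)
        exact hgc ⟨fun h9 => absurd (hZ h9) h7, fun h9 => absurd (hZ h9) h8⟩) with h6 | h6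
      · rw [Subset.antisymm hZ h6]
        exact hev
      · have h7 : Z = ∅ := by
          rw [← disjoint_self_iff_empty]
          exact h6.mono_left hZ
        rw [h7, card_empty]
        exact ⟨0, rfl⟩)
  refine ⟨P, hcl.1, hne, hcl.2, hmin, hev, hdeg, hP.trans (filter_subset _ _), ?_,
    fun g hg => ?_, hP1⟩
  · rw [disjoint_left]
    intro g hg
    exact (mem_filter.1 (hP hg)).2.1
  · obtain ⟨h1, h2, h3⟩ := mem_filter.1 (hP hg)
    exact ⟨h3, (hb h1 h2).1 h3⟩

theorem exists_circ (h : Hyp m s t vs es F) {v : V} (hv : v ∈ vs)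
    (hev : Even (comp s t vs es F v).card) :
    ∃ P, Circ s t vs es F P (comp s t vs es F v) :=
  exists_circ_of h (comp_closed h.ends v) ⟨v, mem_comp_self hv⟩
    (fun _ hX hc => comp_or h.ends hv ⟨hX, hc⟩) hev

end OddN
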