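import Pool.Agent.Lib.OddN.Circ

/-! Elimination of an even circuit when no set is crossed by exactly one edge of `H`. -/

set_option autoImplicit false

namespace OddN

open Finset Classical

variable {V E : Type*} {m : ℕ} {s t : E → V} {vs : Finset V} {es F P : Finset E} {C : Finset V}

/-- no member of the family: the graph `H` -/
theorem elim0 (h : Hyp m s t vs es F) (K : Circ s t vs es F P C)
    (hno : ∀ S, ¬ Fam s t vs es F P C S) :
    Hyp2 m s t vs (eH s es F P C) F P C where
  ends := fun g hg => h.ends g (eH_sub hg)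
  noloop := fun g hg => h.noloop g (eH_sub hg)
  vpsub := K.sub
  cubic := fun v hv hvC => K.degH' h hv hvC
  two := fun v hv => K.degH h hv
  pone := K.Pone
  psub := fun g hg => mem_eH.2 ⟨K.Psub hg, Or.inr (Or.inl hg)⟩
  fsub := fun g hg => mem_eH.2 ⟨h.sub hg, Or.inl hg⟩
  pf := K.PF
  pends := K.Pends
  join := h.join
  cut := by
    intro X hX ho
    have h1 := (K.odd_H h hX).2 ho
    have h2 : cn s t (eH s es F P C) X ≠ 1 := fun h2 => hno X ⟨hX, h2⟩
    obtain ⟨k, hk⟩ := h1
    omega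
  many := by
    rintro ⟨Z, hZ, hd⟩
    refine h.many ⟨fun i => Z i \ C, fun i => ⟨sdiff_subset.trans (hZ i).1, (hZ i).2.1, ?_⟩, ?_⟩
    · intro g hg hcr
      change cr s t (Z i \ C) g at hcr
      by_contra hF
      have hb := K.both hg hF
      by_cases h2 : s g ∈ C
      · apply hcr
        rw [mem_sdiff, mem_sdiff]
        exact ⟨fun h' => absurd h2 h'.2, fun h' => absurd (hb.1 h2) h'.2⟩
      · have h3 : t g ∉ C := fun h3 => h2 (hb.2 h3)
        have h4 : cr s t (Z i) g := by
          intro h5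
          apply hcr
          rw [mem_sdiff, mem_sdiff]
          exact ⟨fun h' => ⟨h5.1 h'.1, h3⟩, fun h' => ⟨h5.2 h'.1, h2⟩⟩
        rcases (hZ i).2.2 g (mem_eH.2 ⟨hg, Or.inr (Or.inr h2)⟩) h4 with h5 | h5
        · exact hF h5
        · exact h2 (K.Pends g h5).1
    · intro i j hij
      exact (hd i j hij).mono sdiff_subset sdiff_subset

theorem concl0 (h : Hyp m s t vs es F) (K : Circ s t vs es F P C) {e : E}
    (hC : Concl2 s t vs (eH s es F P C) F C e) : Concl s t vs es F e := by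
  obtain ⟨M, hM, he, hM1, hgood⟩ := hC
  refine ⟨M, hM.trans eH_sub, he, hM1, ?_⟩
  have key : ∀ Z ⊆ vs, Odd Z.card → Disjoint C Z → ∃ g ∈ es, cr s t Z g ∧ ¬ (g ∈ M ∧ g ∈ F) := by
    intro Z hZ ho hd
    have h1 : Z \ C = Z := by
      rw [Finset.sdiff_eq_self_iff_disjoint]
      exact hd.symm
    obtain ⟨g, hg, hc, hn⟩ := hgood Z hZ (by rw [h1]; exact ho)
    exact ⟨g, eH_sub hg, hc, hn⟩
  intro Z hZ ho
  by_contra hcon
  have hcon' : ∀ g ∈ es, cr s t Z g → g ∈ M ∧ g ∈ F := by
    intro g hg hc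
    by_contra h
    exact hcon ⟨g, hg, hc, h⟩
  rcases K.min Z hZ fun g hg hc => (hcon' g hg hc).2 with h1 | h1
  · obtain ⟨g, hg, hc, hn⟩ := key (vs \ Z) sdiff_subset (by
      rw [card_sdiff_of_subset hZ]
      have h2 := h.even_card
      have h3 := card_le_card hZ
      obtain ⟨a, ha⟩ := h2
      obtain ⟨b, hb⟩ := ho
      exact ⟨a - b - 1, by omega⟩) (by
      rw [disjoint_left]
      intro u hu hu'
      exact (mem_sdiff.1 hu').2 (h1 hu))
    rw [cr_compl (h.ends g hg).1 (h.ends g hg).2] at hc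
    exact hcon ⟨g, hg, hc, hn⟩
  · exact hcon (key Z hZ ho h1)

end OddN
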