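import Pool.Agent.Lib.OddN.Circ

/-! Gluing along a set which is crossed by one edge `f` of `F` and otherwise only by edges of the
deleted half of the circuit. -/

set_option autoImplicit false

namespace OddN

open Finset Classical

variable {V E : Type*} {m : ℕ} {s t : E → V} {vs : Finset V} {es F P : Finset E} {C : Finset V}

namespace GlueB

/-- one side of the gluing argument for the odd cuts -/
lemma side_bad (h : Hyp m s t vs es F) {W : Finset V} (hW : W ⊆ vs) {M : Finset E} (hM : M ⊆ es)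
    (hpm : ∀ v ∈ vs, cn s t M {v} = 1) {f : E} (hfF : f ∈ F) {K : Finset V}
    (hKall : ∀ g ∈ es, cr s t K g → g ∈ M ∧ g ∈ F)
    (hKf : ∀ g ∈ es, cr s t W g → s g ∈ K → t g ∈ K → g = f) (hodd : Odd (K ∩ W).card)
    {esW MW FW : Finset E} (hesW : ∀ g ∈ esW, g ∈ es ∧ (s g ∈ W ∨ t g ∈ W))
    (hFW : ∀ g ∈ esW, g ∈ F → g ∈ FW)
    (hMW : ∀ g ∈ M, (s g ∈ W ∨ t g ∈ W) → g ∈ MW) {w : V} (hw : w ∉ W) {vp : Finset V}
    (hvp : ∀ v ∈ vp, v ∉ K)
    (hgood : ∀ Z ⊆ insert w W, Odd (Z \ vp).card → ∃ g ∈ esW,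
      cr (con s W w) (con t W w) Z g ∧ ¬ (g ∈ MW ∧ g ∈ FW)) : False := by
  have hZvp : (K ∩ W) \ vp = K ∩ W := by
    ext v
    rw [mem_sdiff]
    exact ⟨fun h' => h'.1, fun h' => ⟨h', fun h2 => hvp v h2 (mem_inter.1 h').1⟩⟩
  have hZW : K ∩ W ⊆ W := inter_subset_right
  obtain ⟨g, hg, hc, hn⟩ := hgood (K ∩ W) (hZW.trans (subset_insert _ _)) (by rw [hZvp]; exact hodd)
  rw [cr_con hw hZW] at hc
  obtain ⟨hges, hgt⟩ := hesW g hg
  -- an edge crossing `K ∩ W` crosses `K` or is `f`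
  have key : ∀ g ∈ es, cr s t (K ∩ W) g → cr s t K g ∨ (g = f ∧ s g ∈ K ∧ t g ∈ K) := by
    intro g hg hc
    by_cases hcK : cr s t K g
    · exact Or.inl hcK
    · right
      unfold cr at hc hcK
      rw [not_not] at hcK
      rw [mem_inter, mem_inter] at hc
      have h1 : s g ∈ K ∧ t g ∈ K ∧ cr s t W g := by
        by_cases h2 : s g ∈ K
        · have h3 := hcK.1 h2
          refine ⟨h2, h3, ?_⟩
          unfold cr
          intro h4
          exact hc ⟨fun h5 => ⟨h3, h4.1 h5.2⟩, fun h5 => ⟨h2, h4.2 h5.2⟩⟩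
        · exfalso
          exact hc ⟨fun h5 => absurd h5.1 h2, fun h5 => absurd (hcK.2 h5.1) h2⟩
      exact ⟨hKf g hg h1.2.2 h1.1 h1.2.1, h1.1, h1.2.1⟩
  rcases key g hges hc with h1 | h1
  · obtain ⟨h2, h3⟩ := hKall g hges h1
    exact hn ⟨hMW g h2 hgt, hFW g hg h3⟩
  · have hgf := h1.1
    subst hgf
    have hgM : g ∉ M := fun h2 => hn ⟨hMW g h2 hgt, hFW g hg hfF⟩
    have hZvs : K ∩ W ⊆ vs := hZW.trans hW
    have o1 := h.odd_es hZvs hodd
    have o2 : Odd (cn s t M (K ∩ W)) := by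
      rw [odd_cn fun e he => h.noloop e (hM he)]
      · exact hodd
      · intro v hv
        rw [hpm v (hZvs hv)]
        decide
    have h2 : es.filter (cr s t (K ∩ W)) = insert g (M.filter (cr s t (K ∩ W))) := by
      ext a
      rw [mem_insert, mem_filter, mem_filter]
      constructor
      · rintro ⟨h3, h4⟩
        rcases key a h3 h4 with h5 | h5
        · exact Or.inr ⟨(hKall a h3 h5).1, h4⟩
        · exact Or.inl h5.1
      · rintro (h3 | h3)
        · rw [h3]; exact ⟨hges, hc⟩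
        · exact ⟨hM h3.1, h3.2⟩
    have h3 : cn s t es (K ∩ W) = cn s t M (K ∩ W) + 1 := by
      rw [cn_eq_card, h2, card_insert_of_notMem fun h' => hgM (mem_filter.1 h').1, cn_eq_card]
    obtain ⟨a, ha⟩ := o1
    obtain ⟨b, hb⟩ := o2
    omega

lemma mem_side {W ρ : Finset V} {g : E} (h : g ∈ eW s t es F P C W ρ) :
    g ∈ es ∧ (s g ∈ W ∨ t g ∈ W) := by
  rw [mem_eW] at h
  exact ⟨h.1, h.2.1⟩

lemma cn_unique {A : Finset E} {X : Finset V} (h : cn s t A X = 1) :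
    ∃ g ∈ A, cr s t X g ∧ ∀ g' ∈ A, cr s t X g' → g' = g := by
  rw [cn_eq_card, card_eq_one] at h
  obtain ⟨g, hg⟩ := h
  have h1 : g ∈ A.filter (cr s t X) := by rw [hg]; exact mem_singleton_self _
  rw [mem_filter] at h1
  refine ⟨g, h1.1, h1.2, fun g' h2 h3 => ?_⟩
  have h4 : g' ∈ A.filter (cr s t X) := mem_filter.2 ⟨h2, h3⟩
  rw [hg] at h4
  exact mem_singleton.1 h4

end GlueB

open GlueB

/-- `g0` is the common edge -/
theorem glueH (h : Hyp m s t vs es F) (K : Circ s t vs es F P C) {X σ τ : Finset V} (hX : X ⊆ vs)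
    {f : E} (hf : f ∈ F) (_hfX : cr s t X f)
    (hcross : ∀ g ∈ es, cr s t X g → g ≠ f → g ∉ F ∧ g ∉ P ∧ s g ∈ C ∧ t g ∈ C)
    (_hσ : Seg s t es F C (vs \ X) σ) (_hτ : Seg s t es F C X τ)
    {z1 z2 : V} (_hz1 : z1 ∈ vs) (hz1X : z1 ∈ X) (_hz2 : z2 ∈ vs) (hz2X : z2 ∉ X)
    {M1 M2 : Finset E} {g0 : E}
    (hM1 : M1 ⊆ eW s t es F P C (vs \ X) σ) (hM2 : M2 ⊆ eW s t es F P C X τ)
    (hg1 : g0 ∈ M1) (hg2 : g0 ∈ M2) (hg0 : cr s t X g0)
    (hp1 : ∀ v ∈ insert z1 (vs \ X), cn (con s (vs \ X) z1) (con t (vs \ X) z1) M1 {v} = 1)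
    (hp2 : ∀ v ∈ insert z2 X, cn (con s X z2) (con t X z2) M2 {v} = 1)
    (hgood1 : ∀ Z ⊆ insert z1 (vs \ X), Odd (Z \ ((C ∩ (vs \ X)) \ σ)).card →
      ∃ g ∈ eW s t es F P C (vs \ X) σ, cr (con s (vs \ X) z1) (con t (vs \ X) z1) Z g ∧
        ¬ (g ∈ M1 ∧ g ∈ F ∩ eW s t es F P C (vs \ X) σ))
    (hgood2 : ∀ Z ⊆ insert z2 X, Odd (Z \ ((C ∩ X) \ τ)).card →
      ∃ g ∈ eW s t es F P C X τ, cr (con s X z2) (con t X z2) Z g ∧
        ¬ (g ∈ M2 ∧ g ∈ F ∩ eW s t es F P C X τ))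
    {e : E} (he : e ∈ M1 ∨ e ∈ M2) : Concl s t vs es F e := by
  set Y := vs \ X with hY
  have hzY : z1 ∉ Y := fun h' => (mem_sdiff.1 h').2 hz1X
  have hM1es : M1 ⊆ es := fun g hg => (mem_side (hM1 hg)).1
  have hM2es : M2 ⊆ es := fun g hg => (mem_side (hM2 hg)).1
  have hcross1 : cn s t M1 X = 1 := by
    have e1 : cn s t M1 Y = 1 := by
      rw [← cn_con_z hzY]
      exact hp1 z1 (mem_insert_self _ _)
    rw [← e1, hY, cn_compl fun e he => h.ends e (hM1es he)]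
  have hguniq : ∀ g' ∈ M1, cr s t X g' → g' = g0 := by
    obtain ⟨g2, -, -, hu⟩ := cn_unique hcross1
    intro g' h1 h2
    rw [hu g' h1 h2, hu g0 hg1 hg0]
  have hcross2 : cn s t M2 X = 1 := by
    rw [← cn_con_z hz2X]
    exact hp2 z2 (mem_insert_self _ _)
  have hguniq2 : ∀ g' ∈ M2, cr s t X g' → g' = g0 := by
    obtain ⟨g2, -, -, hu⟩ := cn_unique hcross2
    intro g' h1 h2
    rw [hu g' h1 h2, hu g0 hg2 hg0]
  have hcr : ∀ a ∈ es, (cr s t X a ↔ (s a ∈ X ∨ t a ∈ X) ∧ (s a ∈ Y ∨ t a ∈ Y)) := by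
    intro a ha
    have h1 := (h.ends a ha).1
    have h2 := (h.ends a ha).2
    unfold cr
    rw [hY]
    simp only [mem_sdiff, h1, h2, true_and]
    tauto
  have hMes : M1 ∪ M2 ⊆ es := union_subset hM1es hM2es
  have hmm1 : ∀ a ∈ M1 ∪ M2, (s a ∈ Y ∨ t a ∈ Y) → a ∈ M1 := by
    intro a ha h1
    rcases mem_union.1 ha with h2 | h2
    · exact h2
    · have h4 : cr s t X a := (hcr a (hM2es h2)).2 ⟨(mem_side (hM2 h2)).2, h1⟩
      rw [hguniq2 a h2 h4]
      exact hg1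
  have hmm2 : ∀ a ∈ M1 ∪ M2, (s a ∈ X ∨ t a ∈ X) → a ∈ M2 := by
    intro a ha h1
    rcases mem_union.1 ha with h2 | h2
    · have h4 : cr s t X a := (hcr a (hM1es h2)).2 ⟨h1, (mem_side (hM1 h2)).2⟩
      rw [hguniq a h2 h4]
      exact hg2
    · exact h2
  have hincid : ∀ (W : Finset V) (v : V) (a : E), v ∈ W → cr s t {v} a → (s a ∈ W ∨ t a ∈ W) := by
    intro W v a hv hc
    unfold cr at hc
    simp only [mem_singleton] at hc
    by_cases h1 : s a = v
    · exact Or.inl (h1 ▸ hv)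
    · by_cases h2 : t a = v
      · exact Or.inr (h2 ▸ hv)
      · exact absurd ⟨fun h3 => absurd h3 h1, fun h3 => absurd h3 h2⟩ hc
  have hpm : ∀ v ∈ vs, cn s t (M1 ∪ M2) {v} = 1 := by
    intro v hv
    by_cases hvX : v ∈ X
    · have e1 : cn s t (M1 ∪ M2) {v} = cn s t M2 {v} := by
        unfold cn
        symm
        refine Finset.sum_subset subset_union_right fun a ha hna => ?_
        rw [ci_eq_zero]
        intro hc
        exact hna (hmm2 a ha (hincid X v a hvX hc))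
      rw [e1, ← cn_con hz2X (singleton_subset_iff.2 hvX)]
      exact hp2 v (mem_insert_of_mem hvX)
    · have hvY : v ∈ Y := mem_sdiff.2 ⟨hv, hvX⟩
      have e1 : cn s t (M1 ∪ M2) {v} = cn s t M1 {v} := by
        unfold cn
        symm
        refine Finset.sum_subset subset_union_left fun a ha hna => ?_
        rw [ci_eq_zero]
        intro hc
        exact hna (hmm1 a ha (hincid Y v a hvY hc))
      rw [e1, ← cn_con hzY (singleton_subset_iff.2 hvY)]
      exact hp1 v (mem_insert_of_mem hvY)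
  have heM : e ∈ M1 ∪ M2 := mem_union.2 he
  refine ⟨M1 ∪ M2, hMes, heM, hpm, ?_⟩
  -- the odd cuts, for sets disjoint from the circuit
  have hmain : ∀ K ⊆ vs, Odd K.card → Disjoint C K →
      (∀ g ∈ es, cr s t K g → g ∈ M1 ∪ M2 ∧ g ∈ F) → False := by
    intro K hK hKo hCK hall
    have hKC : ∀ v ∈ C, v ∉ K := fun v hv => (disjoint_left.1 hCK) hv
    -- an edge crossing `X` with both ends in `K` is `f`
    have hKf : ∀ g ∈ es, cr s t X g → s g ∈ K → t g ∈ K → g = f := by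
      intro g hg hc h1 h2
      by_contra hne
      exact hKC _ (hcross g hg hc hne).2.2.1 h1
    have hsplit : (K ∩ Y).card + (K ∩ X).card = K.card := by
      rw [← card_union_of_disjoint, ← inter_union_distrib_left]
      · congr 1
        ext v
        rw [mem_inter, mem_union, hY, mem_sdiff]
        constructor
        · exact fun h' => h'.1
        · intro h'
          refine ⟨h', ?_⟩
          by_cases h2 : v ∈ X
          · exact Or.inr h2
          · exact Or.inl ⟨hK h', h2⟩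
      · rw [disjoint_left]
        intro v h1 h2
        exact (mem_sdiff.1 (mem_inter.1 h1).2).2 (mem_inter.1 h2).2
    rcases Nat.even_or_odd (K ∩ Y).card with h1 | h1
    · have h2 : Odd (K ∩ X).card := by
        obtain ⟨a, ha⟩ := h1
        obtain ⟨b, hb⟩ := hKo
        exact ⟨b - a, by omega⟩
      refine side_bad h hX hMes hpm hf hall hKf h2 (fun g hg => mem_side hg)
        (fun g hg hgF => mem_inter.2 ⟨hgF, hg⟩) hmm2 hz2X (vp := (C ∩ X) \ τ) ?_ hgood2
      intro v hv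
      exact hKC v (mem_inter.1 (mem_sdiff.1 hv).1).1
    · refine side_bad h (W := Y) sdiff_subset hMes hpm hf hall ?_ h1 (fun g hg => mem_side hg)
        (fun g hg hgF => mem_inter.2 ⟨hgF, hg⟩) hmm1 hzY (vp := (C ∩ Y) \ σ) ?_ hgood1
      · intro g hg hc
        refine hKf g hg ?_
        rwa [hY, cr_compl (h.ends g hg).1 (h.ends g hg).2] at hc
      · intro v hv
        exact hKC v (mem_inter.1 (mem_sdiff.1 hv).1).1
  intro Z hZ hZo
  by_contra hcon
  have hall : ∀ g ∈ es, cr s t Z g → g ∈ M1 ∪ M2 ∧ g ∈ F := by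
    intro g hg hc
    by_contra h'
    exact hcon ⟨g, hg, hc, h'⟩
  rcases K.min Z hZ fun g hg hc => (hall g hg hc).2 with h1 | h1
  · refine hmain (vs \ Z) sdiff_subset ?_ ?_ ?_
    · rw [card_sdiff_of_subset hZ]
      have hle := card_le_card hZ
      obtain ⟨a, ha⟩ := h.even_card
      obtain ⟨b, hb⟩ := hZo
      exact ⟨a - b - 1, by omega⟩
    · rw [disjoint_left]
      exact fun v hv h2 => (mem_sdiff.1 h2).2 (h1 hv)
    · intro g hg hc
      rw [cr_compl (h.ends g hg).1 (h.ends g hg).2] at hc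
      exact hall g hg hc
  · exact hmain Z hZ hZo h1 hall

end OddN
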