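import Pool.Agent.Lib.OddN.Circ

/-! One side of a bridge of the graph obtained by deleting half of an even circuit: the other side
is contracted to a vertex which is put on the circuit `z + ρ`. -/

set_option autoImplicit false
set_option linter.unusedSectionVars false

namespace OddN

open Finset Classical

variable {V E : Type*} {s t : E → V} {vs : Finset V} {es F P : Finset E} {C W ρ : Finset V} {z : V}
  {m : ℕ}

/-- the circuit is connected -/
lemma Circ.con (K : Circ s t vs es F P C) : ∀ R ⊆ C, cn s t (es \ F) R = 0 → R = ∅ ∨ R = C := by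
  intro R hR h0
  rw [cn_eq_zero] at h0
  rcases K.min R (hR.trans K.sub) (fun g hg hc => by
    by_contra hF
    exact h0 g (mem_sdiff.2 ⟨hg, hF⟩) hc) with h6 | h6
  · exact Or.inr (Finset.Subset.antisymm hR h6)
  · left
    rw [eq_empty_iff_forall_notMem]
    intro v hv
    exact (disjoint_left.1 h6) (hR hv) hv

/-- a side: `W` is one side of a bridge `f ∈ F` of `eH`, and `ρ` is a piece of the circuit in `W`,
ending at both ends at edges that leave `W`, which meets all sides of bridges inside `W` -/
structure Sd (s t : E → V) (vs : Finset V) (es F P : Finset E) (C W ρ : Finset V) : Prop where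
  sub : W ⊆ vs
  one : cn s t (eH s es F P C) W = 1
  inF : ∀ g ∈ eH s es F P C, cr s t W g → g ∈ F
  nC : ¬ C ⊆ W
  rC : ρ ⊆ C
  rW : ρ ⊆ W
  two : cn s t (es \ F) ρ = 2
  out : ∀ g ∈ es, g ∉ F → cr s t ρ g → cr s t W g
  fam : ∀ X ⊆ W, cn s t (eH s es F P C) X = 1 → (X ∩ ρ).Nonempty

lemma mem_eWa {g : E} : g ∈ eW s t es F P C W ρ ↔ g ∈ es ∧ (s g ∈ W ∨ t g ∈ W) ∧
    ((g ∈ F ∨ g ∈ P ∨ s g ∉ C) ∨ s g ∈ ρ ∨ t g ∈ ρ) := by
  rw [mem_eW, or_assoc, or_assoc]

lemma mem_vW {v : V} : v ∈ (C ∩ W) \ ρ ↔ (v ∈ C ∧ v ∈ W) ∧ v ∉ ρ := by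
  rw [mem_sdiff, mem_inter]

lemma sd_touch {X : Finset V} {g : E} (hc : cr s t X g) : s g ∈ X ∨ t g ∈ X := by
  unfold cr at hc
  by_contra h
  rw [not_or] at h
  exact hc ⟨fun h1 => absurd h1 h.1, fun h1 => absurd h1 h.2⟩

lemma sd_sing {v : V} {g : E} (hc : cr s t {v} g) : s g = v ∨ t g = v := by
  have := sd_touch hc
  simpa only [mem_singleton] using this

lemma sd_ext {s t s' t' : E → V} {A B : Finset E} {X Z : Finset V}
    (h1 : ∀ g, (g ∈ A ∧ cr s t X g) ↔ (g ∈ B ∧ cr s' t' Z g)) : cn s t A X = cn s' t' B Z := by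
  rw [cn_eq_card, cn_eq_card]
  congr 1
  ext g
  rw [mem_filter, mem_filter]
  exact h1 g

lemma sd_even {A : Finset E} {X : Finset V} (hA : ∀ e ∈ A, s e ≠ t e)
    (h : ∀ v ∈ X, Even (cn s t A {v})) : Even (cn s t A X) := by
  have h1 := sum_cn hA X
  have h2 : Even (∑ v ∈ X, cn s t A {v}) := Finset.even_sum _ h
  rw [h1] at h2
  exact (Nat.even_add.1 h2).2 (even_two_mul _)

section

variable (h : Hyp m s t vs es F) (K : Circ s t vs es F P C) (D : Sd s t vs es F P C W ρ)

include h K D

/-- an edge of the circuit at `ρ` that does not leave `W` stays in `ρ` -/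
lemma Sd.stay {g : E} (hg : g ∈ es) (hF : g ∉ F) (hW : ¬ cr s t W g) :
    s g ∈ ρ ↔ t g ∈ ρ := by
  by_contra hc
  exact hW (D.out g hg hF hc)

/-- the matching edges do not leave `W` -/
lemma Sd.pstay {g : E} (hg : g ∈ P) : ¬ cr s t W g := fun hc =>
  (disjoint_left.1 K.PF) hg (D.inF g (mem_eH.2 ⟨K.Psub hg, Or.inr (Or.inl hg)⟩) hc)

/-- edges outside `F` and off the circuit do not leave `W` -/
lemma Sd.ostay {g : E} (hg : g ∈ es) (hF : g ∉ F) (hC : s g ∉ C) : ¬ cr s t W g := fun hc =>
  hF (D.inF g (mem_eH.2 ⟨hg, Or.inr (Or.inr hC)⟩) hc)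

lemma Sd.rho_empty {X : Finset V} (hX : X ⊆ W)
    (hno : ∀ g ∈ es, g ∉ F → (s g ∈ ρ ∨ t g ∈ ρ) → ¬ cr s t X g) : X ∩ ρ = ∅ := by
  have h0 : cn s t (es \ F) (X ∩ ρ) = 0 := by
    rw [cn_eq_zero]
    intro g hg hc
    rw [mem_sdiff] at hg
    have h1 : s g ∈ ρ ∨ t g ∈ ρ := by
      rcases sd_touch hc with h2 | h2
      · exact Or.inl (mem_inter.1 h2).2
      · exact Or.inr (mem_inter.1 h2).2
    have h2 := hno g hg.1 hg.2 h1
    have h3 : s g ∈ X ↔ t g ∈ X := by
      by_contra h4
      exact h2 h4
    have h5 : s g ∈ X ∧ t g ∈ X := by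
      rcases sd_touch hc with h4 | h4
      · have := (mem_inter.1 h4).1
        exact ⟨this, h3.1 this⟩
      · have := (mem_inter.1 h4).1
        exact ⟨h3.2 this, this⟩
    have h6 : ¬ cr s t W g := fun h7 => h7 ⟨fun _ => hX h5.2, fun _ => hX h5.1⟩
    have h7 := D.stay h K hg.1 hg.2 h6
    apply hc
    rw [mem_inter, mem_inter]
    simp only [h5.1, h5.2, true_and]
    exact h7
  rcases K.con _ (inter_subset_right.trans D.rC) h0 with h1 | h1
  · exact h1
  · exfalso
    apply D.nC
    rw [← h1]
    exact inter_subset_left.trans hX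

/-- inside `W` there are no bridges -/
lemma Sd.ne_one {X : Finset V} (hX : X ⊆ W) : cn s t (eW s t es F P C W ρ) X ≠ 1 := by
  intro h1
  -- the edges at `ρ` outside `F`
  set B := es.filter fun g => g ∉ F ∧ (s g ∈ ρ ∨ t g ∈ ρ) with hB
  have hBs : B ⊆ eW s t es F P C W ρ := by
    intro g hg
    rw [hB, mem_filter] at hg
    rw [mem_eWa]
    refine ⟨hg.1, ?_, Or.inr hg.2.2⟩
    rcases hg.2.2 with h2 | h2
    · exact Or.inl (D.rW h2)
    · exact Or.inr (D.rW h2)
  have hBe : Even (cn s t B X) := by
    apply sd_even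
    · intro g hg
      exact h.noloop g (mem_filter.1 hg).1
    · intro v hv
      by_cases hr : v ∈ ρ
      · have : cn s t B {v} = cn s t (es \ F) {v} := by
          apply sd_ext
          intro g
          rw [hB, mem_filter, mem_sdiff]
          constructor
          · rintro ⟨h2, h3⟩
            exact ⟨⟨h2.1, h2.2.1⟩, h3⟩
          · rintro ⟨h2, h3⟩
            refine ⟨⟨h2.1, h2.2, ?_⟩, h3⟩
            rcases sd_sing h3 with h4 | h4
            · exact Or.inl (h4 ▸ hr)
            · exact Or.inr (h4 ▸ hr)
        rw [this, K.deg v (D.rC hr)]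
        decide
      · have : cn s t B {v} = 0 := by
          rw [cn_eq_zero]
          intro g hg hc
          rw [hB, mem_filter] at hg
          have hcr : cr s t ρ g := by
            rcases sd_sing hc with h4 | h4
            · rcases hg.2.2 with h5 | h5
              · exact absurd (h4 ▸ h5) hr
              · exact fun h6 => hr (h4 ▸ h6.2 h5)
            · rcases hg.2.2 with h5 | h5
              · exact fun h6 => hr (h4 ▸ h6.1 h5)
              · exact absurd (h4 ▸ h5) hr
          have hW := D.out g hg.1 hg.2.1 hcr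
          apply hW
          have hvW := hX hv
          rcases sd_sing hc with h4 | h4
          · have : t g ∈ W := by
              rcases hg.2.2 with h5 | h5
              · exact absurd (h4 ▸ h5) hr
              · exact D.rW h5
            exact ⟨fun _ => this, fun _ => h4.symm ▸ hvW⟩
          · have : s g ∈ W := by
              rcases hg.2.2 with h5 | h5
              · exact D.rW h5
              · exact absurd (h4 ▸ h5) hr
            exact ⟨fun _ => h4.symm ▸ hvW, fun _ => this⟩
        rw [this]
        decide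
  have hB0 : cn s t B X = 0 := by
    have := cn_mono (s := s) (t := t) hBs X
    obtain ⟨k, hk⟩ := hBe
    omega
  have hno : ∀ g ∈ es, g ∉ F → (s g ∈ ρ ∨ t g ∈ ρ) → ¬ cr s t X g := by
    intro g hg hF hr
    exact (cn_eq_zero.1 hB0) g (mem_filter.2 ⟨hg, hF, hr⟩)
  have hre := D.rho_empty h K hX hno
  have h2 : cn s t (eH s es F P C) X = 1 := by
    rw [← h1]
    apply sd_ext
    intro g
    rw [mem_eH, mem_eWa]
    constructor
    · rintro ⟨h3, h4⟩
      refine ⟨⟨h3.1, ?_, Or.inl h3.2⟩, h4⟩
      rcases sd_touch h4 with h5 | h5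
      · exact Or.inl (hX h5)
      · exact Or.inr (hX h5)
    · rintro ⟨⟨h3, h4, h5⟩, h6⟩
      refine ⟨⟨h3, ?_⟩, h6⟩
      rcases h5 with h5 | h5
      · exact h5
      · by_cases hF : g ∈ F
        · exact Or.inl hF
        · exact absurd h6 (hno g h3 hF h5)
  have h3 := D.fam X hX h2
  rw [hre] at h3
  exact absurd h3 not_nonempty_empty

/-- parity in the deleted graph -/
lemma Sd.par {X : Finset V} (hX : X ⊆ vs) :
    Odd (cn s t (eH s es F P C) X) ↔ Odd (X \ C).card := by
  have hn : ∀ g ∈ eH s es F P C, s g ≠ t g := fun g hg => h.noloop g (mem_eH.1 hg).1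
  have h1 := sum_cn hn X
  have h2 : Odd (∑ v ∈ X, cn s t (eH s es F P C) {v}) ↔ Odd (X \ C).card := by
    rw [Finset.odd_sum_iff_odd_card_odd]
    have : X.filter (fun v => Odd (cn s t (eH s es F P C) {v})) = X \ C := by
      ext v
      rw [mem_filter, mem_sdiff]
      refine and_congr_right fun hv => ?_
      by_cases hC : v ∈ C
      · have e1 : cn s t (eH s es F P C) {v} = cn s t (P ∪ F) {v} := by
          apply sd_ext
          intro g
          rw [mem_eH, mem_union]
          constructor
          · rintro ⟨⟨h3, h4⟩, h5⟩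
            refine ⟨?_, h5⟩
            rcases h4 with h4 | h4 | h4
            · exact Or.inr h4
            · exact Or.inl h4
            · by_cases hF : g ∈ F
              · exact Or.inr hF
              · have h6 := K.both h3 hF
                rcases sd_sing h5 with h7 | h7
                · exact absurd (h7 ▸ hC) h4
                · exact absurd (h6.2 (h7 ▸ hC)) h4
          · rintro ⟨h3 | h3, h4⟩
            · exact ⟨⟨K.Psub h3, Or.inr (Or.inl h3)⟩, h4⟩
            · exact ⟨⟨h.sub h3, Or.inl h3⟩, h4⟩
        have e2 : cn s t es {v} = cn s t F {v} + cn s t (es \ F) {v} := by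
          rw [← cn_union disjoint_sdiff, union_sdiff_of_subset h.sub]
        rw [h.cubic v (hX hv), K.deg v hC] at e2
        rw [e1, cn_union K.PF, K.Pone v hC]
        have e3 : cn s t F {v} = 1 := by omega
        rw [e3]
        constructor
        · intro h'
          exact absurd h' (by decide)
        · exact fun h' => absurd hC h'
      · have e1 : cn s t (eH s es F P C) {v} = cn s t es {v} := by
          apply sd_ext
          intro g
          rw [mem_eH]
          constructor
          · rintro ⟨⟨h3, h4⟩, h5⟩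
            exact ⟨h3, h5⟩
          · rintro ⟨h3, h5⟩
            refine ⟨⟨h3, ?_⟩, h5⟩
            by_cases hF : g ∈ F
            · exact Or.inl hF
            · right; right
              have h6 := K.both h3 hF
              rcases sd_sing h5 with h7 | h7
              · rw [h7]; exact hC
              · rw [h6, h7]; exact hC
        rw [e1, h.cubic v (hX hv)]
        constructor
        · exact fun _ => hC
        · exact fun _ => by decide
    rw [this]
  rw [← h2, h1]
  rw [Nat.odd_add]
  simp

lemma Sd.fone {v : V} (hv : v ∈ C) : cn s t F {v} = 1 := by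
  have e2 : cn s t es {v} = cn s t F {v} + cn s t (es \ F) {v} := by
    rw [← cn_union disjoint_sdiff, union_sdiff_of_subset h.sub]
  rw [h.cubic v (K.sub hv), K.deg v hv] at e2
  omega

lemma Sd.pclosed {g : E} (hg : g ∈ P) : s g ∈ ((C ∩ W) \ ρ) ↔ t g ∈ ((C ∩ W) \ ρ) := by
  have h1 := K.Pends g hg
  have h2 := D.pstay h K hg
  have hF : g ∉ F := disjoint_left.1 K.PF hg
  have h3 := D.stay h K (K.Psub hg) hF h2
  unfold cr at h2
  rw [not_not] at h2
  rw [mem_vW, mem_vW]
  simp only [h1.1, h1.2, true_and, h2, h3]

/-- **the side graph** -/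
theorem Sd.hyp2 (hzv : z ∈ vs) (hz : z ∉ W) :
    Hyp2 m (con s W z) (con t W z) (insert z W) (eW s t es F P C W ρ) (touch s t F W)
      (pW s P C W ρ) (((C ∩ W) \ ρ)) := by
  have ends' : ∀ g ∈ eW s t es F P C W ρ, con s W z g ∈ insert z W ∧ con t W z g ∈ insert z W :=
    fun e _ => ⟨con_mem_insert s W z e, con_mem_insert t W z e⟩
  have noloop' : ∀ g ∈ eW s t es F P C W ρ, con s W z g ≠ con t W z g := by
    intro e he
    rw [mem_eWa] at he
    unfold con
    have hn := h.noloop e he.1
    by_cases h1 : s e ∈ W <;> by_cases h2 : t e ∈ W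
    · rw [if_pos h1, if_pos h2]; exact hn
    · rw [if_pos h1, if_neg h2]
      rintro rfl; exact hz h1
    · rw [if_neg h1, if_pos h2]
      rintro rfl; exact hz h2
    · exact absurd he.2.1 (by tauto)
  have vsub : ((C ∩ W) \ ρ) ⊆ W := fun v hv => (mem_vW.1 hv).1.2
  have cubic' : ∀ v ∈ insert z W, v ∉ ((C ∩ W) \ ρ) →
      cn (con s W z) (con t W z) (eW s t es F P C W ρ) {v} = 3 := by
    intro v hv hvp
    rcases mem_insert.1 hv with rfl | hv
    · rw [cn_con_z hz]
      have e1 : cn s t (eW s t es F P C W ρ) W =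
          cn s t (eH s es F P C ∪ ((es \ F).filter fun g => cr s t ρ g)) W := by
        apply sd_ext
        intro g
        rw [mem_eWa, mem_union, mem_eH, mem_filter, mem_sdiff]
        constructor
        · rintro ⟨⟨h1, h2, h3⟩, h4⟩
          refine ⟨?_, h4⟩
          rcases h3 with h3 | h3
          · exact Or.inl ⟨h1, h3⟩
          · by_cases hF : g ∈ F
            · exact Or.inl ⟨h1, Or.inl hF⟩
            · refine Or.inr ⟨⟨h1, hF⟩, ?_⟩
              intro h5
              apply h4
              rcases h3 with h3 | h3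
              · exact ⟨fun _ => D.rW (h5.1 h3), fun _ => D.rW h3⟩
              · exact ⟨fun _ => D.rW h3, fun _ => D.rW (h5.2 h3)⟩
        · rintro ⟨h1 | h1, h4⟩
          · exact ⟨⟨h1.1, sd_touch h4, Or.inl h1.2⟩, h4⟩
          · exact ⟨⟨h1.1.1, sd_touch h4, Or.inr (sd_touch h1.2)⟩, h4⟩
      have hdis : Disjoint (eH s es F P C) ((es \ F).filter fun g => cr s t ρ g) := by
        rw [disjoint_left]
        intro g h1 h2
        rw [mem_filter, mem_sdiff] at h2
        exact h2.1.2 (D.inF g h1 (D.out g h2.1.1 h2.1.2 h2.2))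
      have e2 : cn s t ((es \ F).filter fun g => cr s t ρ g) W = cn s t (es \ F) ρ := by
        apply sd_ext
        intro g
        rw [mem_filter, mem_sdiff]
        constructor
        · rintro ⟨h1, h2⟩
          exact ⟨h1.1, h1.2⟩
        · rintro ⟨h1, h2⟩
          exact ⟨⟨h1, h2⟩, D.out g h1.1 h1.2 h2⟩
      rw [e1, cn_union hdis, D.one, e2, D.two]
    · rw [cn_con hz (singleton_subset_iff.2 hv), ← h.cubic v (D.sub hv)]
      apply sd_ext
      intro g
      rw [mem_eWa]
      constructor
      · rintro ⟨h1, h2⟩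
        exact ⟨h1.1, h2⟩
      · rintro ⟨h1, h2⟩
        have h3 : s g ∈ W ∨ t g ∈ W := by
          rcases sd_sing h2 with h4 | h4
          · exact Or.inl (h4.symm ▸ hv)
          · exact Or.inr (h4.symm ▸ hv)
        refine ⟨⟨h1, h3, ?_⟩, h2⟩
        by_cases hr : v ∈ ρ
        · right
          rcases sd_sing h2 with h4 | h4
          · exact Or.inl (h4.symm ▸ hr)
          · exact Or.inr (h4.symm ▸ hr)
        · left
          have hC : v ∉ C := fun hC => hvp (mem_vW.2 ⟨⟨hC, hv⟩, hr⟩)
          by_cases hF : g ∈ F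
          · exact Or.inl hF
          · right; right
            have h6 := K.both h1 hF
            rcases sd_sing h2 with h7 | h7
            · rw [h7]; exact hC
            · rw [h6, h7]; exact hC
  have pone' : ∀ v ∈ ((C ∩ W) \ ρ), cn s t (pW s P C W ρ) {v} = 1 := by
    intro v hv
    rw [← K.Pone v (mem_vW.1 hv).1.1]
    apply sd_ext
    intro g
    unfold pW
    rw [mem_filter]
    constructor
    · rintro ⟨h1, h2⟩
      exact ⟨h1.1, h2⟩
    · rintro ⟨h1, h2⟩
      refine ⟨⟨h1, ?_⟩, h2⟩
      rcases sd_sing h2 with h4 | h4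
      · exact h4.symm ▸ hv
      · exact (D.pclosed h K h1).2 (h4.symm ▸ hv)
  have two' : ∀ v ∈ ((C ∩ W) \ ρ), cn (con s W z) (con t W z) (eW s t es F P C W ρ) {v} = 2 := by
    intro v hv
    have hvW := vsub hv
    have hvC := (mem_vW.1 hv).1.1
    rw [cn_con hz (singleton_subset_iff.2 hvW)]
    have e1 : cn s t (eW s t es F P C W ρ) {v} = cn s t (P ∪ F) {v} := by
      apply sd_ext
      intro g
      rw [mem_eWa, mem_union]
      constructor
      · rintro ⟨⟨h1, h2, h3⟩, h4⟩
        refine ⟨?_, h4⟩
        by_cases hF : g ∈ F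
        · exact Or.inr hF
        left
        have h6 := K.both h1 hF
        have hsC : s g ∈ C := by
          rcases sd_sing h4 with h7 | h7
          · exact h7.symm ▸ hvC
          · exact h6.2 (h7.symm ▸ hvC)
        rcases h3 with (h3 | h3 | h3) | h3
        · exact absurd h3 hF
        · exact h3
        · exact absurd hsC h3
        · exfalso
          have hcr : cr s t ρ g := by
            intro h8
            have h9 : s g ∈ ρ ∧ t g ∈ ρ := by
              rcases h3 with h3 | h3
              · exact ⟨h3, h8.1 h3⟩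
              · exact ⟨h8.2 h3, h3⟩
            rcases sd_sing h4 with h7 | h7
            · exact (mem_vW.1 hv).2 (h7 ▸ h9.1)
            · exact (mem_vW.1 hv).2 (h7 ▸ h9.2)
          apply D.out g h1 hF hcr
          rcases sd_sing h4 with h7 | h7
          · have h10 : t g ∈ W := by
              rcases h3 with h3 | h3
              · exact absurd (h7 ▸ h3) (mem_vW.1 hv).2
              · exact D.rW h3
            exact ⟨fun _ => h10, fun _ => h7.symm ▸ hvW⟩
          · have h10 : s g ∈ W := by
              rcases h3 with h3 | h3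
              · exact D.rW h3
              · exact absurd (h7 ▸ h3) (mem_vW.1 hv).2
            exact ⟨fun _ => h7.symm ▸ hvW, fun _ => h10⟩
      · rintro ⟨h1 | h1, h4⟩
        · refine ⟨⟨K.Psub h1, ?_, Or.inl (Or.inr (Or.inl h1))⟩, h4⟩
          rcases sd_sing h4 with h7 | h7
          · exact Or.inl (h7.symm ▸ hvW)
          · exact Or.inr (h7.symm ▸ hvW)
        · refine ⟨⟨h.sub h1, ?_, Or.inl (Or.inl h1)⟩, h4⟩
          rcases sd_sing h4 with h7 | h7
          · exact Or.inl (h7.symm ▸ hvW)
          · exact Or.inr (h7.symm ▸ hvW)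
    rw [e1, cn_union K.PF, K.Pone v hvC, Sd.fone h K D hvC]
  have hpar : ∀ X ⊆ insert z W, Odd (X \ ((C ∩ W) \ ρ)).card →
      Odd (cn (con s W z) (con t W z) (eW s t es F P C W ρ) X) := by
    intro X hX ho
    have h1 := sum_cn noloop' X
    have h2 : Odd (∑ v ∈ X, cn (con s W z) (con t W z) (eW s t es F P C W ρ) {v}) := by
      rw [Finset.odd_sum_iff_odd_card_odd]
      have : X.filter (fun v => Odd (cn (con s W z) (con t W z) (eW s t es F P C W ρ) {v})) =
          X \ ((C ∩ W) \ ρ) := by
        ext v
        rw [mem_filter, mem_sdiff]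
        refine and_congr_right fun hv => ?_
        by_cases hv2 : v ∈ ((C ∩ W) \ ρ)
        · rw [two' v hv2]
          exact ⟨fun h' => absurd h' (by decide), fun h' => absurd hv2 h'⟩
        · rw [cubic' v (hX hv) hv2]
          exact ⟨fun _ => hv2, fun _ => by decide⟩
      rw [this]
      exact ho
    rw [h1, Nat.odd_add] at h2
    exact h2.2 (even_two_mul _)
  have hodd : Odd ((vs \ W) \ C).card := by
    rw [← Sd.par h K D sdiff_subset]
    have : cn s t (eH s es F P C) (vs \ W) = cn s t (eH s es F P C) W :=
      cn_compl (fun g hg => h.ends g (mem_eH.1 hg).1) W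
    rw [this, D.one]
    decide
  exact
  { ends := ends'
    noloop := noloop'
    vpsub := vsub.trans (subset_insert z W)
    cubic := cubic'
    two := two'
    pone := by
      intro v hv
      rw [cn_con hz (singleton_subset_iff.2 (vsub hv))]
      exact pone' v hv
    psub := by
      intro g hg
      unfold pW at hg
      rw [mem_filter] at hg
      rw [mem_eWa]
      exact ⟨K.Psub hg.1, Or.inl (vsub hg.2), Or.inl (Or.inr (Or.inl hg.1))⟩
    fsub := by
      intro g hg
      rw [mem_touch] at hg
      rw [mem_eWa]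
      exact ⟨h.sub hg.1, hg.2, Or.inl (Or.inl hg.1)⟩
    pf := by
      rw [disjoint_left]
      intro g hg hg'
      unfold pW at hg
      rw [mem_filter] at hg
      rw [mem_touch] at hg'
      exact disjoint_left.1 K.PF hg.1 hg'.1
    pends := by
      intro g hg
      unfold pW at hg
      rw [mem_filter] at hg
      have h1 := (D.pclosed h K hg.1).1 hg.2
      unfold con
      rw [if_pos (vsub hg.2), if_pos (vsub h1)]
      exact ⟨hg.2, h1⟩
    join := by
      intro v hv
      rcases mem_insert.1 hv with rfl | hv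
      · rw [cn_con_z hz, cn_touch (Finset.Subset.refl _)]
        have : cn s t F W = cn s t (eH s es F P C) W := by
          apply sd_ext
          intro g
          constructor
          · rintro ⟨h1, h2⟩
            exact ⟨mem_eH.2 ⟨h.sub h1, Or.inl h1⟩, h2⟩
          · rintro ⟨h1, h2⟩
            exact ⟨D.inF g h1 h2, h2⟩
        rw [this, D.one]
        decide
      · rw [cn_con hz (singleton_subset_iff.2 hv), cn_touch (singleton_subset_iff.2 hv)]
        exact h.join v (D.sub hv)
    cut := by
      intro X hX ho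
      have h1 := hpar X hX ho
      have h2 : cn (con s W z) (con t W z) (eW s t es F P C W ρ) X ≠ 1 := by
        by_cases hzX : z ∈ X
        · have e1 : cn (con s W z) (con t W z) (eW s t es F P C W ρ) X =
              cn (con s W z) (con t W z) (eW s t es F P C W ρ) (insert z W \ X) :=
            (cn_compl ends' X).symm
          have hsub : insert z W \ X ⊆ W := by
            intro v hv
            rw [mem_sdiff, mem_insert] at hv
            rcases hv.1 with rfl | h'
            · exact absurd hzX hv.2
            · exact h'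
          rw [e1, cn_con hz hsub]
          exact D.ne_one h K hsub
        · have hsub : X ⊆ W := by
            intro v hv
            rcases mem_insert.1 (hX hv) with rfl | h'
            · exact absurd hv hzX
            · exact h'
          rw [cn_con hz hsub]
          exact D.ne_one h K hsub
      obtain ⟨k, hk⟩ := h1
      omega
    many := by
      rintro ⟨Z, hZ, hdis⟩
      apply h.many
      have hW : ∀ i, z ∉ Z i → Z i ⊆ W := by
        intro i hi v hv
        rcases mem_insert.1 ((hZ i).1 hv) with rfl | h'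
        · exact absurd hv hi
        · exact h'
      refine ⟨fun i => if z ∈ Z i then (vs \ W) \ C else Z i \ ((C ∩ W) \ ρ), fun i => ?_, ?_⟩
      · by_cases hi : z ∈ Z i
        · simp only [if_pos hi]
          refine ⟨sdiff_subset.trans sdiff_subset, hodd, fun g hg hc => ?_⟩
          by_contra hF
          have h1 := K.both hg hF
          have hsC : s g ∉ C := by
            intro h2
            apply hc
            rw [mem_sdiff, mem_sdiff (s := vs \ W)]
            exact ⟨fun h3 => absurd h2 h3.2, fun h3 => absurd (h1.1 h2) h3.2⟩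
          have htC : t g ∉ C := fun h2 => hsC (h1.2 h2)
          apply D.ostay h K hg hF hsC
          intro h2
          apply hc
          have h3 := h.ends g hg
          simp only [mem_sdiff, hsC, htC, h3.1, h3.2, h2]
        · simp only [if_neg hi]
          have hiW := hW i hi
          obtain ⟨-, hio, hic⟩ := hZ i
          have hic' : ∀ g ∈ eW s t es F P C W ρ, cr s t (Z i) g → g ∈ F ∨ g ∈ pW s P C W ρ := by
            intro g hg hc
            rcases hic g hg ((cr_con hz hiW g).2 hc) with h1 | h1
            · exact Or.inl (mem_touch.1 h1).1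
            · exact Or.inr h1
          have hre : Z i ∩ ρ = ∅ := by
            apply D.rho_empty h K hiW
            intro g hg hF hr hc
            have hgW : g ∈ eW s t es F P C W ρ := by
              rw [mem_eWa]
              refine ⟨hg, ?_, Or.inr hr⟩
              rcases hr with h2 | h2
              · exact Or.inl (D.rW h2)
              · exact Or.inr (D.rW h2)
            rcases hic' g hgW hc with h1 | h1
            · exact hF h1
            · unfold pW at h1
              rw [mem_filter] at h1
              have h2 := (D.pclosed h K h1.1).1 h1.2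
              rcases hr with h3 | h3
              · exact (mem_vW.1 h1.2).2 h3
              · exact (mem_vW.1 h2).2 h3
          have hmem : ∀ v, v ∈ Z i \ ((C ∩ W) \ ρ) ↔ v ∈ Z i ∧ v ∉ C := by
            intro v
            rw [mem_sdiff, mem_vW]
            constructor
            · rintro ⟨h1, h2⟩
              refine ⟨h1, fun h3 => h2 ⟨⟨h3, hiW h1⟩, fun h4 => ?_⟩⟩
              have : v ∈ Z i ∩ ρ := mem_inter.2 ⟨h1, h4⟩
              rw [hre] at this
              exact notMem_empty v this
            · rintro ⟨h1, h2⟩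
              exact ⟨h1, fun h3 => h2 h3.1.1⟩
          refine ⟨(sdiff_subset.trans hiW).trans D.sub, hio, fun g hg hc => ?_⟩
          by_contra hF
          have h1 := K.both hg hF
          unfold cr at hc
          rw [hmem, hmem] at hc
          have hsC : s g ∉ C := by
            intro h2
            exact hc ⟨fun h3 => absurd h2 h3.2, fun h3 => absurd (h1.1 h2) h3.2⟩
          have htC : t g ∉ C := fun h2 => hsC (h1.2 h2)
          have hc2 : cr s t (Z i) g := by
            intro h2
            apply hc
            simp only [hsC, htC, not_false_iff, and_true]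
            exact h2
          have hgW : g ∈ eW s t es F P C W ρ := by
            rw [mem_eWa]
            refine ⟨hg, ?_, Or.inl (Or.inr (Or.inr hsC))⟩
            rcases sd_touch hc2 with h2 | h2
            · exact Or.inl (hiW h2)
            · exact Or.inr (hiW h2)
          rcases hic' g hgW hc2 with h2 | h2
          · exact hF h2
          · unfold pW at h2
            rw [mem_filter] at h2
            exact hsC (K.Pends g h2.1).1
      · intro i j hij
        have hd := hdis i j hij
        by_cases hi : z ∈ Z i <;> by_cases hj : z ∈ Z j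
        · exact absurd hj (disjoint_left.1 hd hi)
        · simp only [if_pos hi, if_neg hj]
          rw [disjoint_left]
          intro v h1 h2
          rw [mem_sdiff, mem_sdiff] at h1
          exact h1.1.2 (hW j hj (mem_sdiff.1 h2).1)
        · simp only [if_neg hi, if_pos hj]
          rw [disjoint_left]
          intro v h1 h2
          rw [mem_sdiff, mem_sdiff] at h2
          exact h2.1.2 (hW i hi (mem_sdiff.1 h1).1)
        · simp only [if_neg hi, if_neg hj]
          rw [disjoint_left] at hd ⊢
          intro v h1 h2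
          exact hd (mem_sdiff.1 h1).1 (mem_sdiff.1 h2).1 }

end

/-- **the side graph, for a segment `ρ` of `C` in the side `W`** -/
theorem side_hyp2 (h : Hyp m s t vs es F) (K : Circ s t vs es F P C) (hW : W ⊆ vs)
    (one : cn s t (eH s es F P C) W = 1)
    (inF : ∀ g ∈ eH s es F P C, cr s t W g → g ∈ F) (nC : ¬ C ⊆ W)
    (S : Seg s t es F C W ρ)
    (fam : ∀ X ⊆ W, cn s t (eH s es F P C) X = 1 → (X ∩ ρ).Nonempty)
    (hzv : z ∈ vs) (hz : z ∉ W) :
    Hyp2 m (con s W z) (con t W z) (insert z W) (eW s t es F P C W ρ) (touch s t F W)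
      (pW s P C W ρ) ((C ∩ W) \ ρ) := by
  refine Sd.hyp2 h K ?_ hzv hz
  exact
  { sub := hW
    one := one
    inF := inF
    nC := nC
    rC := S.sub
    rW := S.subW
    two := S.two
    out := by
      intro g hg hF hc h1
      apply S.out g hg hF hc
      rcases sd_touch hc with h2 | h2
      · exact ⟨S.subW h2, h1.1 (S.subW h2)⟩
      · exact ⟨h1.2 (S.subW h2), S.subW h2⟩
    fam := fam }

/-- **the side graph** (form of the stub) -/
theorem side (h : Hyp m s t vs es F) (K : Circ s t vs es F P C) {W ρ : Finset V} (hW : W ⊆ vs)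
    {f : E} (hf : f ∈ F) (hfW : cr s t W f)
    (hcross : ∀ g ∈ es, cr s t W g → g ≠ f → g ∉ F ∧ g ∉ P ∧ s g ∈ C ∧ t g ∈ C)
    (hρ : Seg s t es F C W ρ) (hmeet : ∀ S ⊆ W, Fam s t vs es F P C S → ¬ Disjoint S ρ)
    {z : V} (hz : z ∈ vs) (hzW : z ∉ W) :
    Hyp2 m (con s W z) (con t W z) (insert z W) (eW s t es F P C W ρ)
      (F ∩ eW s t es F P C W ρ) (pW s P C W ρ) ((C ∩ W) \ ρ) := by
  have hF : F ∩ eW s t es F P C W ρ = touch s t F W := by
    ext g
    rw [mem_inter, mem_eW, mem_touch]
    constructor
    · rintro ⟨h1, h2⟩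
      exact ⟨h1, h2.2.1⟩
    · rintro ⟨h1, h2⟩
      exact ⟨h1, h.sub h1, h2, Or.inl h1⟩
  rw [hF]
  have hall : ∀ g ∈ eH s es F P C, cr s t W g → g = f := by
    intro g hg hc
    by_contra hne
    obtain ⟨h1, h2, h3, -⟩ := hcross g (mem_eH.1 hg).1 hc hne
    rcases (mem_eH.1 hg).2 with h4 | h4 | h4
    · exact h1 h4
    · exact h2 h4
    · exact h4 h3
  refine side_hyp2 h K hW ?_ ?_ ?_ hρ ?_ hz hzW
  · rw [cn_eq_card, card_eq_one]
    refine ⟨f, ?_⟩
    ext g
    rw [mem_filter, mem_singleton]
    constructor
    · exact fun h1 => hall g h1.1 h1.2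
    · rintro rfl
      exact ⟨mem_eH.2 ⟨h.sub hf, Or.inl hf⟩, hfW⟩
  · intro g hg hc
    rw [hall g hg hc]
    exact hf
  · intro hCW
    have h2 := hρ.two
    have h3 : cn s t (es \ F) ρ ≠ 0 := by omega
    rw [ne_eq, cn_eq_zero] at h3
    push Not at h3
    obtain ⟨g, hg, hc⟩ := h3
    rw [mem_sdiff] at hg
    have h4 := K.both hg.1 hg.2
    apply hρ.out g hg.1 hg.2 hc
    rcases sd_touch hc with h5 | h5
    · have h6 := hρ.sub h5
      exact ⟨hCW h6, hCW (h4.1 h6)⟩
    · have h6 := hρ.sub h5
      exact ⟨hCW (h4.2 h6), hCW h6⟩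
  · intro X hX h1
    have := hmeet X hX ⟨hX.trans hW, h1⟩
    rwa [not_disjoint_iff_nonempty_inter] at this

end OddN
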