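import Pool.Agent.Lib.OddN.Segs
import Pool.Agent.Lib.OddN.Side
import Pool.Agent.Lib.OddN.Elim0
import Pool.Agent.Lib.OddN.GlueH

/-! Elimination of an even circuit. -/

set_option autoImplicit false

namespace OddN

open Finset Classical

variable {V E : Type*} {m : ℕ} {s t : E → V} {vs : Finset V} {es F P : Finset E} {C : Finset V}

/-- the side lemma together with suppression: a solution on the side `W` -/
private lemma side_concl (h : Hyp m s t vs es F) (K : Circ s t vs es F P C) {W ρ : Finset V}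
    (ih : ∀ (s t : E → V) (vs' : Finset V) (es F : Finset E), vs'.card < vs.card →
      Hyp m s t vs' es F → ∀ e ∈ es, Concl s t vs' es F e)
    (hW : W ⊆ vs) {f : E} (hf : f ∈ F) (hfW : cr s t W f)
    (hcross : ∀ g ∈ es, cr s t W g → g ≠ f → g ∉ F ∧ g ∉ P ∧ s g ∈ C ∧ t g ∈ C)
    (hρ : Seg s t es F C W ρ) (hmeet : ∀ S ⊆ W, Fam s t vs es F P C S → ¬ Disjoint S ρ)
    {z : V} (hz : z ∈ vs) (hzW : z ∉ W) (hbig : W.card + 2 ≤ vs.card) {g0 : E}
    (hg0 : g0 ∈ eW s t es F P C W ρ) (hs : con s W z g0 ∉ (C ∩ W) \ ρ)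
    (ht : con t W z g0 ∉ (C ∩ W) \ ρ) :
    Concl2 (con s W z) (con t W z) (insert z W) (eW s t es F P C W ρ)
      (F ∩ eW s t es F P C W ρ) ((C ∩ W) \ ρ) g0 := by
  have h2 := side h K hW hf hfW hcross hρ hmeet hz hzW
  refine supp (N := vs.card) ih (pW s P C W ρ).card _ _ _ _ _ _ _ rfl ?_ h2 g0 hg0 hs ht
  refine (card_le_card sdiff_subset).trans_lt ?_
  rw [card_insert_of_notMem hzW]
  omega

/-- **elimination of an even circuit** -/
theorem elimC (h : Hyp m s t vs es F) (K : Circ s t vs es F P C)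
    (ih : ∀ (s t : E → V) (vs' : Finset V) (es F : Finset E), vs'.card < vs.card →
      Hyp m s t vs' es F → ∀ e ∈ es, Concl s t vs' es F e)
    {e : E} (he : e ∈ es) (hs : s e ∉ C) (ht : t e ∉ C) : Concl s t vs es F e := by
  by_cases hfam : ∃ S, Fam s t vs es F P C S
  · obtain ⟨X, σ, hX, heX, hσ, hmeet⟩ := exists_choice h K hfam he
    have hXvs : X ⊆ vs := hX.1.1
    obtain ⟨f, hf, hfX, hcross, hfs, hft⟩ := leaf_edge h K hX
    obtain ⟨⟨x0, hx0⟩, hXo, hcF⟩ := fam_meets h K hX.1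
    obtain ⟨⟨y0, hy0⟩, hYo, -⟩ := fam_meets h K hcF
    rw [mem_inter] at hx0 hy0
    have hfes : f ∈ es := h.sub hf
    have hcX : ∀ g ∈ es, (cr s t (vs \ X) g ↔ cr s t X g) := fun g hg =>
      cr_compl (h.ends g hg).1 (h.ends g hg).2 X
    -- sizes
    have big : ∀ W ⊆ vs, (∃ y ∈ C, y ∈ vs \ W) → Odd ((vs \ W) \ C).card →
        W.card + 2 ≤ vs.card := by
      rintro W hW ⟨y, hyC, hyW⟩ ho
      obtain ⟨x, hx⟩ : ((vs \ W) \ C).Nonempty := by
        rw [← card_pos]
        exact ho.pos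
      rw [mem_sdiff] at hx
      have hne : x ≠ y := fun h' => hx.2 (h' ▸ hyC)
      have h1 : ({x, y} : Finset V) ⊆ vs \ W := by
        intro v hv
        rw [mem_insert, mem_singleton] at hv
        rcases hv with hv | hv
        · exact hv ▸ hx.1
        · exact hv ▸ hyW
      have h2 := card_le_card h1
      rw [card_pair hne, card_sdiff_of_subset hW] at h2
      have h3 := card_le_card hW
      omega
    have bigY : (vs \ X).card + 2 ≤ vs.card := by
      refine big _ sdiff_subset ⟨x0, hx0.2, ?_⟩ ?_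
      · rw [Finset.sdiff_sdiff_eq_self hXvs]
        exact hx0.1
      · rw [Finset.sdiff_sdiff_eq_self hXvs]
        exact hXo
    have bigX : X.card + 2 ≤ vs.card := big _ hXvs ⟨y0, hy0.2, hy0.1⟩ hYo
    -- the first side
    have mfY : f ∈ eW s t es F P C (vs \ X) σ := by
      rw [mem_eW]
      refine ⟨hfes, ?_, Or.inl hf⟩
      have := (hcX f hfes).2 hfX
      unfold cr at this
      by_contra h'
      rw [not_or] at h'
      exact this ⟨fun h'' => absurd h'' h'.1, fun h'' => absurd h'' h'.2⟩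
    have meY : e ∈ eW s t es F P C (vs \ X) σ := by
      rw [mem_eW]
      refine ⟨he, ?_, Or.inr (Or.inr (Or.inl hs))⟩
      rw [mem_sdiff, mem_sdiff]
      have h1 := (h.ends e he).1
      have h2 := (h.ends e he).2
      by_contra h'
      rw [not_or] at h'
      exact heX ⟨by_contra fun h3 => h'.1 ⟨h1, h3⟩, by_contra fun h3 => h'.2 ⟨h2, h3⟩⟩
    have conC : ∀ (r : E → V) (W : Finset V) (z : V) (ρ : Finset V) (g : E), z ∉ W → r g ∉ C →
        con r W z g ∉ (C ∩ W) \ ρ := by
      intro r W z ρ g hz hg h'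
      rw [mem_sdiff, mem_inter] at h'
      unfold con at h'
      by_cases hr : r g ∈ W
      · rw [if_pos hr] at h'
        exact hg h'.1.1
      · rw [if_neg hr] at h'
        exact hz h'.1.2
    obtain ⟨w1, hw1, hw1X⟩ : ∃ w1 ∈ vs, w1 ∈ X := ⟨x0, hXvs hx0.1, hx0.1⟩
    obtain ⟨w2, hw2, hw2X⟩ : ∃ w2 ∈ vs, w2 ∉ X := ⟨y0, (mem_sdiff.1 hy0.1).1, (mem_sdiff.1 hy0.1).2⟩
    have hw1Y : w1 ∉ vs \ X := fun h' => (mem_sdiff.1 h').2 hw1X
    obtain ⟨M1, hM1, heM1, hp1, hgood1⟩ := side_concl h K ih (W := vs \ X) sdiff_subset hf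
      ((hcX f hfes).2 hfX) (fun g hg hc hn => hcross g hg ((hcX g hg).1 hc) hn) hσ hmeet hw1 hw1Y
      bigY meY (conC s _ _ _ _ hw1Y hs) (conC t _ _ _ _ hw1Y ht)
    -- the common edge
    have hz1 := hp1 w1 (mem_insert_self _ _)
    rw [cn_con_z hw1Y] at hz1
    obtain ⟨g0, hg0, hg0c, -⟩ := cn_eq_one_unique' hz1
    have hg0W := hM1 hg0
    have hg0es := (mem_eW.1 hg0W).1
    have hg0X : cr s t X g0 := (hcX g0 hg0es).1 hg0c
    -- the second segment
    obtain ⟨τ, hτ, hg0τ⟩ : ∃ τ, Seg s t es F C X τ ∧ g0 ∈ eW s t es F P C X τ := by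
      have hCX : ¬ C ⊆ X := fun h' => (mem_sdiff.1 hy0.1).2 (h' hy0.2)
      have hone : ∀ y ∈ C, cn s t (es \ F) {y} ≤ 2 := fun y hy => (K.deg y hy).le
      by_cases hgf : g0 = f
      · obtain ⟨τ, -, hτ⟩ := exists_seg h K (W := X) hCX (A := {x0})
          (singleton_subset_iff.2 hx0.2) (singleton_subset_iff.2 hx0.1) (singleton_nonempty _)
          (hone x0 hx0.2)
        refine ⟨τ, hτ, ?_⟩
        rw [mem_eW, hgf]
        refine ⟨hfes, ?_, Or.inl hf⟩
        unfold cr at hfX
        by_contra h'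
        rw [not_or] at h'
        exact hfX ⟨fun h'' => absurd h'' h'.1, fun h'' => absurd h'' h'.2⟩
      · obtain ⟨-, -, c1, c2⟩ := hcross g0 hg0es hg0X hgf
        -- the end of `g0` in `X`
        obtain ⟨y1, hy1X, hy1C, hy1⟩ : ∃ y1 ∈ X, y1 ∈ C ∧ (s g0 = y1 ∨ t g0 = y1) := by
          by_cases h1 : s g0 ∈ X
          · exact ⟨s g0, h1, c1, Or.inl rfl⟩
          · by_cases h2 : t g0 ∈ X
            · exact ⟨t g0, h2, c2, Or.inr rfl⟩
            · unfold cr at hg0X
              exact absurd ⟨fun h'' => absurd h'' h1, fun h'' => absurd h'' h2⟩ hg0X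
        obtain ⟨τ, hAτ, hτ⟩ := exists_seg h K (W := X) hCX (A := {y1})
          (singleton_subset_iff.2 hy1C) (singleton_subset_iff.2 hy1X) (singleton_nonempty _)
          (hone y1 hy1C)
        have hy1τ : y1 ∈ τ := hAτ (mem_singleton_self _)
        refine ⟨τ, hτ, ?_⟩
        rw [mem_eW]
        rcases hy1 with h1 | h1
        · exact ⟨hg0es, Or.inl (h1 ▸ hy1X), Or.inr (Or.inr (Or.inr (Or.inl (h1 ▸ hy1τ))))⟩
        · exact ⟨hg0es, Or.inr (h1 ▸ hy1X), Or.inr (Or.inr (Or.inr (Or.inr (h1 ▸ hy1τ))))⟩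
    -- the second side
    have conX : ∀ r : E → V, (r = s ∨ r = t) → con r X w2 g0 ∉ (C ∩ X) \ τ := by
      intro r hr h'
      rw [mem_sdiff, mem_inter] at h'
      unfold con at h'
      by_cases hrX : r g0 ∈ X
      · rw [if_pos hrX] at h'
        by_cases hgf : g0 = f
        · rcases hr with rfl | rfl
          · rw [hgf] at h' hrX
            exact hfs hrX h'.1.1
          · rw [hgf] at h' hrX
            exact hft hrX h'.1.1
        · obtain ⟨c0, c3, c1, c2⟩ := hcross g0 hg0es hg0X hgf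
          have h4 := (mem_eW.1 hg0τ).2.2
          have h5 : s g0 ∈ τ ∨ t g0 ∈ τ := by
            rcases h4 with h4 | h4 | h4 | h4
            · exact absurd h4 c0
            · exact absurd h4 c3
            · exact absurd c1 h4
            · exact h4
          -- only one end of `g0` is in `X`
          rcases hr with rfl | rfl
          · rcases h5 with h5 | h5
            · exact h'.2 h5
            · unfold cr at hg0X
              exact hg0X ⟨fun _ => hτ.subW h5, fun _ => hrX⟩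
          · rcases h5 with h5 | h5
            · unfold cr at hg0X
              exact hg0X ⟨fun _ => hrX, fun _ => hτ.subW h5⟩
            · exact h'.2 h5
      · rw [if_neg hrX] at h'
        exact hw2X h'.1.2
    have hmeetX : ∀ S ⊆ X, Fam s t vs es F P C S → ¬ Disjoint S τ := by
      intro S hS hSF hd
      have h1 := hX.2 S hS hSF
      rw [h1, disjoint_left] at hd
      obtain ⟨v, hv⟩ := hτ.ne
      exact hd (hτ.subW hv) hv
    obtain ⟨M2, hM2, hg0M2, hp2, hgood2⟩ := side_concl h K ih (W := X) hXvs hf hfX hcross hτ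
      hmeetX hw2 hw2X bigX hg0τ (conX s (Or.inl rfl)) (conX t (Or.inr rfl))
    exact glueH h K hXvs hf hfX hcross hσ hτ hw1 hw1X hw2 hw2X hM1 hM2 hg0 hg0M2 hg0X hp1 hp2
      hgood1 hgood2 (Or.inl heM1)
  · -- no member of the family
    have hno : ∀ S, ¬ Fam s t vs es F P C S := fun S hS => hfam ⟨S, hS⟩
    have h2 := elim0 h K hno
    refine concl0 h K (supp (N := vs.card) ih P.card _ _ _ _ _ _ _ rfl ?_ h2 e ?_ hs ht)
    · rw [card_sdiff_of_subset K.sub]
      have h3 := card_pos.2 K.ne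
      have h4 := card_le_card K.sub
      omega
    · exact mem_eH.2 ⟨he, Or.inr (Or.inr hs)⟩

end OddN
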