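import Pool.Agent.Lib.OddN.Segs
import Pool.Agent.Lib.OddN.Side
import Pool.Agent.Lib.OddN.GlueH

/-! Every even circuit outside `F` can be eliminated. -/

set_option autoImplicit false

namespace OddN

open Finset Classical

variable {V E : Type*} {m : ℕ} {s t : E → V} {vs : Finset V} {es F P : Finset E} {C : Finset V}

theorem elim0' (h : Hyp m s t vs es F) (K : Circ s t vs es F P C)
    (hno : ∀ S, ¬ Fam s t vs es F P C S) :
    Hyp2 m s t vs (eH s es F P C) F P C where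
  ends := fun e he => h.ends e (eH_sub he)
  noloop := fun e he => h.noloop e (eH_sub he)
  vpsub := K.sub
  cubic := fun v hv hvC => K.degH' h hv hvC
  two := fun v hv => K.degH h hv
  pone := K.Pone
  psub := fun g hg => mem_eH.2 ⟨K.Psub hg, Or.inr (Or.inl hg)⟩
  fsub := fun g hg => mem_eH.2 ⟨h.sub hg, Or.inl hg⟩
  pf := K.PF
  pends := K.Pends
  join := h.join
  cut := by
    intro X hX ho
    have h1 := (K.odd_H h hX).2 ho
    have h2 : cn s t (eH s es F P C) X ≠ 1 := fun h' => hno X ⟨hX, h'⟩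
    obtain ⟨k, hk⟩ := h1
    omega
  many := by
    rintro ⟨Z, hZ, hdis⟩
    refine h.many ⟨fun i => Z i \ C, fun i => ⟨sdiff_subset.trans (hZ i).1, (hZ i).2.1, ?_⟩, ?_⟩
    · intro g hg hc
      by_contra hF
      have hb := K.both hg hF
      unfold cr at hc
      simp only [mem_sdiff] at hc
      by_cases hs : s g ∈ C
      · have ht := hb.1 hs
        exact hc ⟨fun h' => absurd hs h'.2, fun h' => absurd ht h'.2⟩
      · have ht : t g ∉ C := fun h' => hs (hb.2 h')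
        have hcr : cr s t (Z i) g := by
          intro h'
          exact hc ⟨fun h'' => ⟨h'.1 h''.1, ht⟩, fun h'' => ⟨h'.2 h''.1, hs⟩⟩
        rcases (hZ i).2.2 g (mem_eH.2 ⟨hg, Or.inr (Or.inr hs)⟩) hcr with h1 | h1
        · exact hF h1
        · exact hs (K.Pends g h1).1
    · intro i j hij
      exact disjoint_of_subset_left sdiff_subset
        (disjoint_of_subset_right sdiff_subset (hdis i j hij))

theorem concl0' (h : Hyp m s t vs es F) (K : Circ s t vs es F P C) {e : E}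
    (hC : Concl2 s t vs (eH s es F P C) F C e) : Concl s t vs es F e := by
  obtain ⟨M, hM, heM, hpm, hgood⟩ := hC
  refine ⟨M, hM.trans eH_sub, heM, hpm, fun Z hZ ho => ?_⟩
  by_contra hn
  push Not at hn
  have h1 : Odd (Z \ C).card := by
    rcases K.min Z hZ (fun g hg hc => (hn g hg hc).2) with h2 | h2
    · have h3 := card_sdiff_add_card_eq_card h2
      rcases Nat.even_or_odd (Z \ C).card with h4 | h4
      · have := h4.add K.even
        rw [h3] at this
        exact absurd ho (Nat.not_odd_iff_even.2 this)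
      · exact h4
    · rwa [Finset.sdiff_eq_self_of_disjoint h2.symm]
  obtain ⟨g, hg, hc, hg'⟩ := hgood Z hZ h1
  exact hg' (hn g (eH_sub hg) hc)

lemma con_notin {s : E → V} {W S : Finset V} {z : V} (hz : z ∉ S) {g : E} (hg : s g ∉ S) :
    con s W z g ∉ S := by
  unfold con
  split_ifs with h1
  · exact hg
  · exact hz

lemma card_side_lt {X : Finset V} (hX : X ⊆ vs) {z : V} (hz : z ∉ X) {a b : V}
    (ha : a ∈ vs \ X) (hb : b ∈ vs \ X) (hab : a ≠ b) (S : Finset V) :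
    (insert z X \ S).card < vs.card := by
  have h1 : (insert z X \ S).card ≤ X.card + 1 := by
    refine (card_le_card sdiff_subset).trans ?_
    rw [card_insert_of_notMem hz]
  have h2 : 2 ≤ (vs \ X).card := by
    rw [← card_pair hab]
    apply card_le_card
    intro x hx
    rw [mem_insert, mem_singleton] at hx
    rcases hx with rfl | rfl
    · exact ha
    · exact hb
  have h3 := card_sdiff_add_card_eq_card hX
  omega

/-- **an even circuit can be eliminated** -/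
theorem elimC' (h : Hyp m s t vs es F) (K : Circ s t vs es F P C)
    (ih : ∀ (s t : E → V) (vs' : Finset V) (es F : Finset E), vs'.card < vs.card →
      Hyp m s t vs' es F → ∀ e ∈ es, Concl s t vs' es F e)
    {e : E} (he : e ∈ es) (hs : s e ∉ C) (ht : t e ∉ C) : Concl s t vs es F e := by
  by_cases hfam : ∃ S, Fam s t vs es F P C S
  swap
  · have hno : ∀ S, ¬ Fam s t vs es F P C S := fun S hS => hfam ⟨S, hS⟩
    refine concl0' h K (supp ih P.card s t vs (eH s es F P C) F P C rfl ?_ (elim0' h K hno) e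
      (mem_eH.2 ⟨he, Or.inr (Or.inr hs)⟩) hs ht)
    have h1 := card_sdiff_add_card_eq_card K.sub
    have h2 := K.ne.card_pos
    omega
  obtain ⟨X, σ, hX, heX, hσ, hmeet⟩ := exists_choice h K hfam he
  obtain ⟨f, hf, hfX, hfs, hft, hfu, hcr⟩ := Leaf.edge h K hX
  have hXvs : X ⊆ vs := hX.1.1
  have hcross : ∀ g ∈ es, cr s t X g → g ≠ f → g ∉ F ∧ g ∉ P ∧ s g ∈ C ∧ t g ∈ C :=
    fun g hg hc hne => (hcr g hg hc).resolve_left hne
  -- two vertices on each side
  have htwo : ∀ S, Fam s t vs es F P C S → ∃ a ∈ S, ∃ b ∈ S, a ∈ C ∧ b ∉ C := by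
    intro S hS
    obtain ⟨a, ha⟩ := hS.meets h K
    obtain ⟨b, hb⟩ : (S \ C).Nonempty := by
      rw [← card_pos]
      exact (hS.odd h K).pos
    exact ⟨a, (mem_inter.1 ha).1, b, (mem_sdiff.1 hb).1, (mem_inter.1 ha).2, (mem_sdiff.1 hb).2⟩
  obtain ⟨a1, ha1, b1, hb1, ha1C, hb1C⟩ := htwo X hX.1
  obtain ⟨a2, ha2, b2, hb2, ha2C, hb2C⟩ := htwo (vs \ X) (hX.1.compl h)
  have hab1 : a1 ≠ b1 := fun h' => hb1C (h' ▸ ha1C)
  have hab2 : a2 ≠ b2 := fun h' => hb2C (h' ▸ ha2C)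
  have ha2X := mem_sdiff.1 ha2
  -- first side
  have hz1W : a1 ∉ vs \ X := fun h' => (mem_sdiff.1 h').2 ha1
  have hcrW : ∀ g ∈ es, (cr s t (vs \ X) g ↔ cr s t X g) := fun g hg =>
    cr_compl (h.ends g hg).1 (h.ends g hg).2 X
  have H1 := side h K (W := vs \ X) sdiff_subset hf ((hcrW f (h.sub hf)).2 hfX)
    (fun g hg hc hne => hcross g hg ((hcrW g hg).1 hc) hne) hσ hmeet (hXvs ha1) hz1W
  have heW : e ∈ eW s t es F P C (vs \ X) σ := by
    rw [mem_eW]
    refine ⟨he, ?_, Or.inr (Or.inr (Or.inl hs))⟩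
    have h1 := h.ends e he
    by_cases h2 : s e ∈ X
    · exact Or.inr (mem_sdiff.2 ⟨h1.2, fun h3 => heX ⟨h2, h3⟩⟩)
    · exact Or.inl (mem_sdiff.2 ⟨h1.1, h2⟩)
  have hvp1 : ∀ u, u ∉ C → u ∉ (C ∩ (vs \ X)) \ σ := fun u hu h' =>
    hu (mem_inter.1 (mem_sdiff.1 h').1).1
  have hz1vp : a1 ∉ (C ∩ (vs \ X)) \ σ := fun h' => hz1W (mem_inter.1 (mem_sdiff.1 h').1).2
  have hX' : vs \ (vs \ X) = X := by
    rw [sdiff_sdiff_right_self]
    exact inter_eq_right.2 hXvs
  obtain ⟨M1, hM1, heM1, hpm1, hgood1⟩ := supp ih _ _ _ _ _ _ _ _ rfl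
    (card_side_lt (vs := vs) sdiff_subset hz1W (a := a1) (b := b1) (by rw [hX']; exact ha1)
      (by rw [hX']; exact hb1) hab1 _) H1 e heW
    (con_notin hz1vp (hvp1 _ hs)) (con_notin hz1vp (hvp1 _ ht))
  -- the crossing edge
  have hone : cn s t M1 X = 1 := by
    have h1 := hpm1 a1 (mem_insert_self _ _)
    rw [cn_con_z hz1W] at h1
    rw [← h1]
    exact (cn_compl (fun g hg => h.ends g (mem_eW.1 (hM1 hg)).1) X).symm
  obtain ⟨g0, hg01, hg0X⟩ : ∃ g0 ∈ M1, cr s t X g0 := by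
    by_contra hn
    push Not at hn
    have := cn_eq_zero.2 hn
    omega
  have hg0es : g0 ∈ es := (mem_eW.1 (hM1 hg01)).1
  -- the segment on the other side
  obtain ⟨τ, hτ, hg0τ, hg0v⟩ : ∃ τ, Seg s t es F C X τ ∧ g0 ∈ eW s t es F P C X τ ∧
      (s g0 ∉ (C ∩ X) \ τ ∧ t g0 ∉ (C ∩ X) \ τ) := by
    have hnC := Leaf.not_sub h K hX
    have hseg : ∀ y ∈ C, y ∈ X → ∃ τ, y ∈ τ ∧ Seg s t es F C X τ := by
      intro y hyC hyX
      obtain ⟨τ, h1, h2⟩ := exists_seg h K hnC (singleton_subset_iff.2 hyC)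
        (singleton_subset_iff.2 hyX) (singleton_nonempty y) (K.deg y hyC).le
      exact ⟨τ, h1 (mem_singleton_self y), h2⟩
    by_cases hgf : g0 = f
    · obtain ⟨τ, -, hτ⟩ := hseg a1 ha1C ha1
      refine ⟨τ, hτ, ?_, ?_, ?_⟩
      · rw [mem_eW]
        refine ⟨hg0es, ?_, Or.inl (hgf ▸ hf)⟩
        by_contra h1
        rw [not_or] at h1
        exact hg0X ⟨fun h2 => absurd h2 h1.1, fun h2 => absurd h2 h1.2⟩
      · intro h1
        have h2 := mem_inter.1 (mem_sdiff.1 h1).1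
        rw [hgf] at h2
        exact hfs h2.2 h2.1
      · intro h1
        have h2 := mem_inter.1 (mem_sdiff.1 h1).1
        rw [hgf] at h2
        exact hft h2.2 h2.1
    · obtain ⟨hgF, hgP, hgs, hgt⟩ := hcross g0 hg0es hg0X hgf
      by_cases h1 : s g0 ∈ X
      · have h2 : t g0 ∉ X := fun h3 => hg0X ⟨fun _ => h3, fun _ => h1⟩
        obtain ⟨τ, hy, hτ⟩ := hseg _ hgs h1
        refine ⟨τ, hτ, ?_, ?_, ?_⟩
        · rw [mem_eW]
          exact ⟨hg0es, Or.inl h1, Or.inr (Or.inr (Or.inr (Or.inl hy)))⟩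
        · exact fun h3 => (mem_sdiff.1 h3).2 hy
        · exact fun h3 => h2 (mem_inter.1 (mem_sdiff.1 h3).1).2
      · have h2 : t g0 ∈ X := by
          by_contra h3
          exact hg0X ⟨fun h4 => absurd h4 h1, fun h4 => absurd h4 h3⟩
        obtain ⟨τ, hy, hτ⟩ := hseg _ hgt h2
        refine ⟨τ, hτ, ?_, ?_, ?_⟩
        · rw [mem_eW]
          exact ⟨hg0es, Or.inr h2, Or.inr (Or.inr (Or.inr (Or.inr hy)))⟩
        · exact fun h3 => h1 (mem_inter.1 (mem_sdiff.1 h3).1).2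
        · exact fun h3 => (mem_sdiff.1 h3).2 hy
  have H2 := side h K (W := X) hXvs hf hfX hcross hτ
    (fun S hS hSf hd => by
      have h1 := hX.2 S hS hSf
      subst h1
      obtain ⟨u, hu⟩ := hτ.ne
      exact disjoint_left.1 hd (hτ.subW hu) hu) ha2X.1 ha2X.2
  have hz2vp : a2 ∉ (C ∩ X) \ τ := fun h' => ha2X.2 (mem_inter.1 (mem_sdiff.1 h').1).2
  obtain ⟨M2, hM2, hg02, hpm2, hgood2⟩ := supp ih _ _ _ _ _ _ _ _ rfl
    (card_side_lt (vs := vs) hXvs ha2X.2 ha2 hb2 hab2 _) H2 g0 hg0τ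
    (con_notin hz2vp hg0v.1) (con_notin hz2vp hg0v.2)
  exact glueH h K hXvs hf hfX hcross hσ hτ (hXvs ha1) ha1 ha2X.1 ha2X.2 hM1 hM2 hg01 hg02 hg0X
    hpm1 hpm2 hgood1 hgood2 (Or.inl heM1)

end OddN
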