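import Pool.Agent.Lib.OddN.Supp
import Pool.Agent.Lib.OddN.Match

/-! Elimination of an even circuit, part A: degrees, parity, sets crossed by one remaining edge. -/

set_option autoImplicit false

namespace OddN

open Finset Classical

namespace Ev

variable {V E : Type*} {m : ℕ} {s t : E → V} {vs : Finset V} {es F P : Finset E} {C : Finset V}

/-! ### general facts -/

lemma cn_congr' {A B : Finset E} {X : Finset V} (h : ∀ g, cr s t X g → (g ∈ A ↔ g ∈ B)) :
    cn s t A X = cn s t B X := by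
  rw [cn_eq_card, cn_eq_card]
  congr 1
  ext g
  rw [mem_filter, mem_filter]
  exact ⟨fun h' => ⟨(h g h'.2).1 h'.1, h'.2⟩, fun h' => ⟨(h g h'.2).2 h'.1, h'.2⟩⟩

lemma cr_sing {u : V} {g : E} : cr s t {u} g → s g = u ∨ t g = u := by
  intro h
  unfold cr at h
  simp only [mem_singleton] at h
  by_contra hc
  rw [not_or] at hc
  exact h ⟨fun h' => absurd h' hc.1, fun h' => absurd h' hc.2⟩

lemma cr_of_end {g : E} (hn : s g ≠ t g) {u : V} (h : s g = u ∨ t g = u) : cr s t {u} g := by
  unfold cr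
  simp only [mem_singleton]
  rcases h with h | h
  · intro h'
    exact hn (h.trans (h'.1 h).symm)
  · intro h'
    exact hn ((h'.2 h).trans h.symm)

lemma ci_insert {A : Finset V} {w : V} {g : E} (hw : w ∉ A) (hn : s g ≠ t g) :
    ci s t (insert w A) g + 2 * (if cr s t A g ∧ cr s t {w} g then 1 else 0) =
      ci s t A g + ci s t {w} g := by
  unfold ci cr
  simp only [mem_insert, mem_singleton]
  by_cases h1 : s g = w
  · have h2 : ¬ t g = w := fun h => hn (h1.trans h.symm)
    have h3 : s g ∉ A := h1 ▸ hw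
    by_cases h4 : t g ∈ A <;> simp [h1, h2, h4, hw]
  · by_cases h2 : t g = w
    · have h3 : t g ∉ A := h2 ▸ hw
      by_cases h4 : s g ∈ A <;> simp [h1, h2, h4, hw]
    · simp [h1, h2]

lemma cn_insert {B : Finset E} {A : Finset V} {w : V} (hw : w ∉ A) (hn : ∀ g ∈ B, s g ≠ t g) :
    cn s t (B) (insert w A) + 2 * (B.filter fun g => cr s t A g ∧ cr s t {w} g).card =
      cn s t B A + cn s t B {w} := by
  unfold cn
  rw [card_filter, mul_sum, ← sum_add_distrib, ← sum_add_distrib]
  exact sum_congr rfl fun g hg => ci_insert hw (hn g hg)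

lemma even_cn {A : Finset E} (hA : ∀ e ∈ A, s e ≠ t e) {X : Finset V}
    (h : ∀ v ∈ X, Even (cn s t A {v})) : Even (cn s t A X) := by
  have h1 := sum_cn hA X
  have h2 : Even (∑ v ∈ X, cn s t A {v}) := Finset.even_sum _ h
  rw [h1, Nat.even_add] at h2
  exact h2.2 (even_two_mul _)

/-! ### the even circuit -/

/-- an even circuit `C` of `es \ F` with a perfect matching `P` -/
structure Circ (m : ℕ) (s t : E → V) (vs : Finset V) (es F P : Finset E) (C : Finset V) :
    Prop where
  h : Hyp m s t vs es F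
  sub : C ⊆ vs
  ne : C.Nonempty
  even : Even C.card
  cl : ∀ g ∈ es, cr s t C g → g ∈ F
  min : ∀ X ⊆ C, X.Nonempty → (∀ g ∈ es, cr s t X g → g ∈ F) → X = C
  Psub : P ⊆ es
  PF : ∀ g ∈ P, g ∉ F
  Pin : ∀ g ∈ P, s g ∈ C ∧ t g ∈ C
  Pone : ∀ u ∈ C, cn s t P {u} = 1

/-- the edges outside `F` -/
noncomputable def eD (es F : Finset E) : Finset E := es.filter fun g => g ∉ F

/-- the edges left after deleting the other half of the circuit -/
noncomputable def eH (s : E → V) (es F P : Finset E) (C : Finset V) : Finset E :=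
  es.filter fun g => g ∈ F ∨ g ∈ P ∨ s g ∉ C

lemma mem_eD {g : E} : g ∈ eD es F ↔ g ∈ es ∧ g ∉ F := by unfold eD; rw [mem_filter]

lemma mem_eH {g : E} : g ∈ eH s es F P C ↔ g ∈ es ∧ (g ∈ F ∨ g ∈ P ∨ s g ∉ C) := by
  unfold eH; rw [mem_filter]

section

variable (K : Circ m s t vs es F P C)

include K

lemma side {g : E} (hg : g ∈ es) (hF : g ∉ F) : (s g ∈ C ↔ t g ∈ C) := by
  have h1 : ¬ cr s t C g := fun h => hF (K.cl g hg h)
  unfold cr at h1
  rwa [not_not] at h1

lemma cn_es_split (X : Finset V) : cn s t es X = cn s t F X + cn s t (eD es F) X := by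
  have h1 := cn_filter_add s t es (fun g => g ∈ F) X
  have h2 : es.filter (fun g => g ∈ F) = F := by
    ext g
    rw [mem_filter]
    exact ⟨fun h => h.2, fun h => ⟨K.h.sub h, h⟩⟩
  rw [h2] at h1
  exact h1

lemma D_even {X : Finset V} (hX : X ⊆ vs) : Even (cn s t (eD es F) X) := by
  refine even_cn (fun g hg => K.h.noloop g (mem_eD.1 hg).1) fun v hv => ?_
  have h1 := cn_es_split K {v}
  have h2 := K.h.cubic v (hX hv)
  obtain ⟨k, hk⟩ := K.h.join v (hX hv)
  exact ⟨1 - k, by omega⟩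

lemma D_two {u : V} (hu : u ∈ C) : cn s t (eD es F) {u} = 2 := by
  have h1 := cn_es_split K {u}
  have h2 := K.h.cubic u (K.sub hu)
  obtain ⟨k, hk⟩ := K.h.join u (K.sub hu)
  have h3 : 1 ≤ cn s t (eD es F) {u} := by
    have h4 := cn_mono (s := s) (t := t) (A := P) (B := eD es F)
      (fun g hg => mem_eD.2 ⟨K.Psub hg, K.PF g hg⟩) {u}
    rwa [K.Pone u hu] at h4
  omega

lemma F_one {u : V} (hu : u ∈ C) : cn s t F {u} = 1 := by
  have h1 := cn_es_split K {u}
  have h2 := K.h.cubic u (K.sub hu)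
  have h3 := D_two K hu
  omega

lemma H_two {u : V} (hu : u ∈ C) : cn s t (eH s es F P C) {u} = 2 := by
  have h1 : cn s t (eH s es F P C) {u} = cn s t (F ∪ P) {u} := by
    refine cn_congr' fun g hg => ?_
    rw [mem_eH, mem_union]
    constructor
    · rintro ⟨h1, h2 | h2 | h2⟩
      · exact Or.inl h2
      · exact Or.inr h2
      · by_cases hF : g ∈ F
        · exact Or.inl hF
        · have h3 := side K h1 hF
          rcases cr_sing hg with h | h
          · exact absurd (h ▸ hu) h2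
          · exact absurd (h3.2 (h ▸ hu)) h2
    · rintro (h1 | h1)
      · exact ⟨K.h.sub h1, Or.inl h1⟩
      · exact ⟨K.Psub h1, Or.inr (Or.inl h1)⟩
  rw [h1, cn_union, F_one K hu, K.Pone u hu]
  rw [disjoint_left]
  intro g h2 h3
  exact K.PF g h3 h2

lemma H_three {u : V} (hu : u ∈ vs) (huC : u ∉ C) : cn s t (eH s es F P C) {u} = 3 := by
  rw [← K.h.cubic u hu]
  refine cn_congr' fun g hg => ?_
  rw [mem_eH]
  constructor
  · exact fun h => h.1
  · intro h1
    refine ⟨h1, ?_⟩
    by_cases hF : g ∈ F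
    · exact Or.inl hF
    · have h3 := side K h1 hF
      right; right
      rcases cr_sing hg with h | h
      · rwa [h]
      · rw [h3, h]; exact huC

lemma H_noloop : ∀ g ∈ eH s es F P C, s g ≠ t g := fun g hg => K.h.noloop g (mem_eH.1 hg).1

lemma odd_H {X : Finset V} (hX : X ⊆ vs) :
    Odd (cn s t (eH s es F P C) X) ↔ Odd (X \ C).card := by
  have h1 := sum_cn (H_noloop K) X
  have h2 : ∑ v ∈ X, cn s t (eH s es F P C) {v} = 3 * (X \ C).card + 2 * (X ∩ C).card := by
    rw [← sum_sdiff (inter_subset_left : X ∩ C ⊆ X), sdiff_inter_self_left]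
    congr 1
    · rw [sum_congr rfl fun v hv => H_three K (hX (mem_sdiff.1 hv).1) (mem_sdiff.1 hv).2]
      rw [sum_const, smul_eq_mul, mul_comm]
    · rw [sum_congr rfl fun v hv => H_two K (mem_inter.1 hv).2]
      rw [sum_const, smul_eq_mul, mul_comm]
  constructor
  · rintro ⟨k, hk⟩
    rw [← Nat.not_even_iff_odd]
    rintro ⟨j, hj⟩
    omega
  · rintro ⟨k, hk⟩
    rw [← Nat.not_even_iff_odd]
    rintro ⟨j, hj⟩
    omega

/-- no `D`-edge off `C` -/
lemma offC_even {X : Finset V} (hX : X ⊆ vs) :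
    Even (cn s t (es.filter fun g => g ∉ F ∧ s g ∉ C) X) := by
  have h1 : cn s t (es.filter fun g => g ∉ F ∧ s g ∉ C) X = cn s t (eD es F) (X \ C) := by
    rw [cn_eq_card, cn_eq_card]
    congr 1
    ext g
    rw [mem_filter, mem_filter, mem_filter, mem_eD]
    constructor
    · rintro ⟨⟨h1, h2, h3⟩, h4⟩
      have h5 := side K h1 h2
      refine ⟨⟨h1, h2⟩, ?_⟩
      unfold cr at h4 ⊢
      rw [mem_sdiff, mem_sdiff]
      tauto
    · rintro ⟨⟨h1, h2⟩, h4⟩
      have h5 := side K h1 h2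
      unfold cr at h4 ⊢
      rw [mem_sdiff, mem_sdiff] at h4
      tauto
  rw [h1]
  exact D_even K (sdiff_subset.trans hX)

end

/-- odd sets crossed by one remaining edge -/
def Fam (s t : E → V) (vs : Finset V) (es F P : Finset E) (C : Finset V) (X : Finset V) : Prop :=
  X ⊆ vs ∧ Odd (X \ C).card ∧ cn s t (eH s es F P C) X = 1

/-- minimal such sets -/
def Leaf (s t : E → V) (vs : Finset V) (es F P : Finset E) (C : Finset V) (X : Finset V) : Prop :=
  Fam s t vs es F P C X ∧ ∀ Y ⊆ X, Fam s t vs es F P C Y → Y = X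

lemma exists_leaf {X : Finset V} (hX : Fam s t vs es F P C X) :
    ∃ Y ⊆ X, Leaf s t vs es F P C Y := by
  obtain ⟨Y, hY, hmin⟩ := exists_min_image (X.powerset.filter fun Y => Fam s t vs es F P C Y)
    card ⟨X, mem_filter.2 ⟨mem_powerset.2 (Finset.Subset.refl _), hX⟩⟩
  rw [mem_filter, mem_powerset] at hY
  refine ⟨Y, hY.1, hY.2, fun Z hZ hF => ?_⟩
  exact eq_of_subset_of_card_le hZ
    (hmin Z (mem_filter.2 ⟨mem_powerset.2 (hZ.trans hY.1), hF⟩))

section

variable (K : Circ m s t vs es F P C)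

include K

lemma card_off : Even (vs \ C).card := by
  have h1 := K.h.even_card
  have h2 := K.even
  rw [card_sdiff_of_subset K.sub]
  obtain ⟨a, ha⟩ := h1
  obtain ⟨b, hb⟩ := h2
  exact ⟨a - b, by omega⟩

lemma fam_compl {X : Finset V} (hX : Fam s t vs es F P C X) :
    Fam s t vs es F P C (vs \ X) := by
  refine ⟨sdiff_subset, ?_, ?_⟩
  · have h1 : (vs \ X) \ C = (vs \ C) \ (X \ C) := by
      ext v
      simp only [mem_sdiff]
      tauto
    have h2 : X \ C ⊆ vs \ C := sdiff_subset_sdiff hX.1 (Finset.Subset.refl _)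
    have h3 := card_le_card h2
    rw [h1, card_sdiff_of_subset h2]
    obtain ⟨a, ha⟩ := card_off K
    obtain ⟨b, hb⟩ := hX.2.1
    exact ⟨a - b - 1, by omega⟩
  · rw [cn_compl fun g hg => K.h.ends g (mem_eH.1 hg).1]
    exact hX.2.2

lemma fam_D {X : Finset V} (hX : Fam s t vs es F P C X) {g : E} (hg : g ∈ es) (hF : g ∉ F)
    (hC : s g ∉ C) : ¬ cr s t X g := by
  have h1 := offC_even K hX.1
  have h2 := cn_mono (s := s) (t := t) (A := es.filter fun g => g ∉ F ∧ s g ∉ C)
    (B := eH s es F P C) (fun g hg => by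
      rw [mem_filter] at hg
      exact mem_eH.2 ⟨hg.1, Or.inr (Or.inr hg.2.2)⟩) X
  rw [hX.2.2] at h2
  have h3 : cn s t (es.filter fun g => g ∉ F ∧ s g ∉ C) X = 0 := by
    obtain ⟨k, hk⟩ := h1
    omega
  exact cn_eq_zero.1 h3 g (mem_filter.2 ⟨hg, hF, hC⟩)

lemma leaf_disj {X Y : Finset V} (hX : Leaf s t vs es F P C X) (hY : Leaf s t vs es F P C Y)
    (hne : X ≠ Y) : Disjoint X Y := by
  have hXv := hX.1.1
  have hYv := hY.1.1
  have c1 : (X \ C).card = ((X \ Y) \ C).card + ((X ∩ Y) \ C).card := by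
    rw [← card_union_of_disjoint]
    · congr 1
      ext v
      simp only [mem_sdiff, mem_union, mem_inter]
      tauto
    · rw [disjoint_left]
      intro v h1 h2
      simp only [mem_sdiff, mem_inter] at h1 h2
      exact h1.1.2 h2.1.2
  have c2 : (Y \ C).card = ((Y \ X) \ C).card + ((X ∩ Y) \ C).card := by
    rw [← card_union_of_disjoint]
    · congr 1
      ext v
      simp only [mem_sdiff, mem_union, mem_inter]
      tauto
    · rw [disjoint_left]
      intro v h1 h2
      simp only [mem_sdiff, mem_inter] at h1 h2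
      exact h1.1.2 h2.1.1
  have c3 : ((X ∪ Y) \ C).card = (X \ C).card + ((Y \ X) \ C).card := by
    rw [← card_union_of_disjoint]
    · congr 1
      ext v
      simp only [mem_sdiff, mem_union]
      tauto
    · rw [disjoint_left]
      intro v h1 h2
      simp only [mem_sdiff] at h1 h2
      exact h2.1.2 h1.1
  have oX := hX.1.2.1
  have oY := hY.1.2.1
  have sub := cn_submod s t (eH s es F P C) X Y
  have pos := cn_posimod s t (eH s es F P C) X Y
  rw [hX.1.2.2, hY.1.2.2] at sub pos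
  by_cases hodd : Odd ((X ∩ Y) \ C).card
  · exfalso
    have h1 : Odd (cn s t (eH s es F P C) (X ∩ Y)) :=
      (odd_H K (inter_subset_left.trans hXv)).2 hodd
    have h2 : Odd (cn s t (eH s es F P C) (X ∪ Y)) := by
      rw [odd_H K (union_subset hXv hYv)]
      obtain ⟨a, ha⟩ := oX
      obtain ⟨b, hb⟩ := oY
      obtain ⟨c, hc⟩ := hodd
      exact ⟨a + b - c, by omega⟩
    have h3 : cn s t (eH s es F P C) (X ∩ Y) = 1 := by
      obtain ⟨a, ha⟩ := h1
      obtain ⟨b, hb⟩ := h2
      omega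
    have h4 : Fam s t vs es F P C (X ∩ Y) := ⟨inter_subset_left.trans hXv, hodd, h3⟩
    have h5 := hX.2 _ inter_subset_left h4
    have h6 := hY.2 _ inter_subset_right h4
    exact hne (h5.symm.trans h6)
  · rw [Nat.not_odd_iff_even] at hodd
    have o1 : Odd ((X \ Y) \ C).card := by
      obtain ⟨a, ha⟩ := oX
      obtain ⟨c, hc⟩ := hodd
      exact ⟨a - c, by omega⟩
    have o2 : Odd ((Y \ X) \ C).card := by
      obtain ⟨a, ha⟩ := oY
      obtain ⟨c, hc⟩ := hodd
      exact ⟨a - c, by omega⟩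
    have h1 : Odd (cn s t (eH s es F P C) (X \ Y)) := (odd_H K (sdiff_subset.trans hXv)).2 o1
    have h2 : Odd (cn s t (eH s es F P C) (Y \ X)) := (odd_H K (sdiff_subset.trans hYv)).2 o2
    have h3 : cn s t (eH s es F P C) (X \ Y) = 1 := by
      obtain ⟨a, ha⟩ := h1
      obtain ⟨b, hb⟩ := h2
      omega
    have h4 := hX.2 _ sdiff_subset ⟨sdiff_subset.trans hXv, o1, h3⟩
    rw [← h4]
    exact sdiff_disjoint

lemma fam_meets {X : Finset V} (hX : Fam s t vs es F P C X) : (X ∩ C).Nonempty := by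
  by_contra hne
  rw [not_nonempty_iff_eq_empty] at hne
  have hd : ∀ v ∈ X, v ∉ C := by
    intro v h1 h2
    have : v ∈ X ∩ C := mem_inter.2 ⟨h1, h2⟩
    rw [hne] at this
    exact absurd this (notMem_empty _)
  have h1 : X \ C = X := by
    ext v
    rw [mem_sdiff]
    exact ⟨fun h => h.1, fun h => ⟨h, hd v h⟩⟩
  have h2 : cn s t es X = cn s t (eH s es F P C) X := by
    refine cn_congr' fun g hg => ?_
    rw [mem_eH]
    refine ⟨fun h => ⟨h, ?_⟩, fun h => h.1⟩
    by_cases hF : g ∈ F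
    · exact Or.inl hF
    · right; right
      intro h3
      have h4 := (side K h hF).1 h3
      apply hg
      exact ⟨fun h5 => absurd h3 (hd _ h5), fun h5 => absurd h4 (hd _ h5)⟩
  have h3 := K.h.oddcut X hX.1 (h1 ▸ hX.2.1)
  rw [h2, hX.2.2] at h3
  omega

lemma leaf_inner {X : Finset V} (hX : Leaf s t vs es F P C X) {g : E}
    (hg : g ∈ eH s es F P C) (hc : cr s t X g) {u : V} (hu : u ∈ X) (huC : u ∈ C) :
    ¬ cr s t {u} g := by
  intro hcu
  have e1 : insert u (X.erase u) = X := insert_erase hu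
  have h1 := cn_insert (s := s) (t := t) (B := eH s es F P C) (A := X.erase u) (w := u)
    (notMem_erase u X) (H_noloop K)
  rw [e1, hX.1.2.2, H_two K huC] at h1
  have hng : ¬ cr s t (X.erase u) g := by
    unfold cr at hc ⊢
    rw [mem_erase, mem_erase]
    rcases cr_sing hcu with h | h
    · rw [h] at hc ⊢
      tauto
    · rw [h] at hc ⊢
      tauto
  have h2 : ((eH s es F P C).filter fun g => cr s t (X.erase u) g ∧ cr s t {u} g).card ≤ 1 := by
    have h3 : ((eH s es F P C).filter fun g => cr s t (X.erase u) g ∧ cr s t {u} g) ⊆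
        ((eH s es F P C).filter (cr s t {u})).erase g := by
      intro g' hg'
      rw [mem_filter] at hg'
      rw [mem_erase, mem_filter]
      exact ⟨fun h => hng (h ▸ hg'.2.1), hg'.1, hg'.2.2⟩
    have h4 := card_le_card h3
    rw [card_erase_of_mem (mem_filter.2 ⟨hg, hcu⟩), ← cn_eq_card, H_two K huC] at h4
    exact h4
  have h5 : (X.erase u) \ C = X \ C := by
    ext v
    rw [mem_sdiff, mem_sdiff, mem_erase]
    constructor
    · exact fun h => ⟨h.1.2, h.2⟩
    · exact fun h => ⟨⟨fun h' => h.2 (h' ▸ huC), h.1⟩, h.2⟩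
  have hsub : X.erase u ⊆ vs := (erase_subset _ _).trans hX.1.1
  have h6 : Odd (cn s t (eH s es F P C) (X.erase u)) := by
    rw [odd_H K hsub, h5]
    exact hX.1.2.1
  have h7 : Fam s t vs es F P C (X.erase u) := by
    refine ⟨hsub, h5 ▸ hX.1.2.1, ?_⟩
    obtain ⟨k, hk⟩ := h6
    omega
  have h8 := hX.2 _ (erase_subset _ _) h7
  rw [← h8] at hu
  exact notMem_erase u X hu

lemma leaf_F {X : Finset V} (hX : Leaf s t vs es F P C X) {g : E}
    (hg : g ∈ eH s es F P C) (hc : cr s t X g) : g ∈ F := by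
  by_contra hF
  rw [mem_eH] at hg
  have hg' : g ∈ eH s es F P C := mem_eH.2 hg
  rcases hg.2 with h | h | h
  · exact hF h
  · have h1 := K.Pin g h
    have hn := K.h.noloop g hg.1
    by_cases h2 : s g ∈ X
    · exact leaf_inner K hX hg' hc h2 h1.1 (cr_of_end hn (Or.inl rfl))
    · have h3 : t g ∈ X := by
        by_contra h3
        exact hc ⟨fun h' => absurd h' h2, fun h' => absurd h' h3⟩
      exact leaf_inner K hX hg' hc h3 h1.2 (cr_of_end hn (Or.inr rfl))
  · exact fam_D K hX.1 hg.1 hF h hc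

lemma leaf_P {X : Finset V} (hX : Leaf s t vs es F P C X) {g : E} (hg : g ∈ P) :
    ¬ cr s t X g := fun hc =>
  K.PF g hg (leaf_F K hX (mem_eH.2 ⟨K.Psub hg, Or.inr (Or.inl hg)⟩) hc)

end

end Ev

end OddN
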