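import Pool.Agent.Lib.OddN.EvA

/-! Elimination of an even circuit, part B: segments and the choice of a leaf. -/

set_option autoImplicit false

namespace OddN

open Finset Classical

namespace Ev

variable {V E : Type*} {m : ℕ} {s t : E → V} {vs : Finset V} {es F P : Finset E} {C : Finset V}

section

variable (K : Circ m s t vs es F P C)

include K

/-- a nonempty part of the circuit is crossed by an edge, unless it is the circuit -/
lemma seg_cross {A : Finset V} (hA : A ⊆ C) (hne : A.Nonempty) (hAC : A ≠ C) :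
    ∃ g ∈ es, g ∉ F ∧ cr s t A g := by
  by_contra hcon
  refine hAC (K.min A hA hne fun g hg hc => ?_)
  by_contra hF
  exact hcon ⟨g, hg, hF, hc⟩

/-- segments grow -/
lemma seg_grow {A : Finset V} (hA : A ⊆ C) (h2 : cn s t (eD es F) A ≤ 2) {g : E}
    (hg : g ∈ es) (hF : g ∉ F) (hc : cr s t A g) :
    ∃ w ∈ C, w ∉ A ∧ (s g = w ∨ t g = w) ∧ (s g ∈ A ∨ t g ∈ A) ∧
      cn s t (eD es F) (insert w A) ≤ 2 := by
  have hn : ∀ g ∈ eD es F, s g ≠ t g := fun g hg => K.h.noloop g (mem_eD.1 hg).1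
  have hgn := K.h.noloop g hg
  have hside := side K hg hF
  have key : ∀ w ∈ C, w ∉ A → (s g = w ∨ t g = w) →
      cn s t (eD es F) (insert w A) ≤ 2 := by
    intro w hw hwA hgw
    have h1 := cn_insert (s := s) (t := t) (B := eD es F) (A := A) (w := w) hwA hn
    rw [D_two K hw] at h1
    have h3 : 1 ≤ ((eD es F).filter fun g => cr s t A g ∧ cr s t {w} g).card :=
      card_pos.2 ⟨g, mem_filter.2 ⟨mem_eD.2 ⟨hg, hF⟩, hc, cr_of_end hgn hgw⟩⟩
    omega
  by_cases h3 : s g ∈ A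
  · have h4 : t g ∉ A := fun h4 => hc ⟨fun _ => h4, fun _ => h3⟩
    have h5 : t g ∈ C := hside.1 (hA h3)
    exact ⟨t g, h5, h4, Or.inr rfl, Or.inl h3, key _ h5 h4 (Or.inr rfl)⟩
  · have h4 : t g ∈ A := by
      by_contra h4
      exact hc ⟨fun h => absurd h h3, fun h => absurd h h4⟩
    have h5 : s g ∈ C := hside.2 (hA h4)
    exact ⟨s g, h5, h3, Or.inl rfl, Or.inr h4, key _ h5 h3 (Or.inl rfl)⟩

lemma seg_two {A : Finset V} (hA : A ⊆ C) (hne : A.Nonempty) (hAC : A ≠ C)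
    (h2 : cn s t (eD es F) A ≤ 2) : cn s t (eD es F) A = 2 := by
  obtain ⟨g, hg, hF, hc⟩ := seg_cross K hA hne hAC
  have h1 : cn s t (eD es F) A ≠ 0 := by
    intro h0
    exact cn_eq_zero.1 h0 g (mem_eD.2 ⟨hg, hF⟩) hc
  obtain ⟨k, hk⟩ := D_even K (hA.trans K.sub)
  omega

/-- a maximal segment inside `W` through `y` -/
lemma exists_seg {W : Finset V} (hW : ¬ C ⊆ W) {y : V} (hy : y ∈ C) (hyW : y ∈ W) :
    ∃ A ⊆ C, A ⊆ W ∧ y ∈ A ∧ cn s t (eD es F) A = 2 ∧
      ∀ g ∈ es, g ∉ F → cr s t A g → ¬ (s g ∈ W ∧ t g ∈ W) := by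
  obtain ⟨A, hA, hmax⟩ := exists_max_image
    ((C ∩ W).powerset.filter fun A => y ∈ A ∧ cn s t (eD es F) A ≤ 2) card
    ⟨{y}, mem_filter.2 ⟨mem_powerset.2 (singleton_subset_iff.2 (mem_inter.2 ⟨hy, hyW⟩)),
      mem_singleton_self _, (D_two K hy).le⟩⟩
  rw [mem_filter, mem_powerset] at hA
  obtain ⟨hAC, hyA, hA2⟩ := hA
  have hAC' : A ⊆ C := fun v hv => (mem_inter.1 (hAC hv)).1
  have hAW : A ⊆ W := fun v hv => (mem_inter.1 (hAC hv)).2
  refine ⟨A, hAC', hAW, hyA, seg_two K hAC' ⟨y, hyA⟩ ?_ hA2, ?_⟩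
  · rintro rfl
    exact hW hAW
  · intro g hg hF hc hin
    obtain ⟨w, hw, hwA, hgw, -, hle⟩ := seg_grow K hAC' hA2 hg hF hc
    have hwW : w ∈ W := by
      rcases hgw with h | h
      · exact h ▸ hin.1
      · exact h ▸ hin.2
    have h3 := hmax (insert w A) (mem_filter.2 ⟨mem_powerset.2 (insert_subset
      (mem_inter.2 ⟨hw, hwW⟩) hAC), mem_insert_of_mem hyA, hle⟩)
    rw [card_insert_of_notMem hwA] at h3
    omega

/-- **The choice**: a leaf `X` not containing the edge `e`, and a segment outside `X`, which ends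
at `X` on both sides and meets all other leaves. -/
theorem choice (e : E) (hex : ∃ X, Fam s t vs es F P C X) :
    ∃ X A, Leaf s t vs es F P C X ∧ ¬ (s e ∈ X ∧ t e ∈ X) ∧ A ⊆ C ∧ Disjoint A X ∧
      A.Nonempty ∧ cn s t (eD es F) A = 2 ∧
      (∀ g ∈ es, g ∉ F → cr s t A g → s g ∈ X ∨ t g ∈ X) ∧
      ∀ Y, Leaf s t vs es F P C Y → Y ≠ X → (A ∩ Y).Nonempty := by
  -- two leaves
  obtain ⟨X0, hX0⟩ := hex
  obtain ⟨X1, hX1s, hX1⟩ := exists_leaf hX0
  obtain ⟨X2, hX2s, hX2⟩ := exists_leaf (fam_compl K hX0)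
  have hX1ne : X1.Nonempty := (fam_meets K hX1.1).mono inter_subset_left
  have hX2ne : X2.Nonempty := (fam_meets K hX2.1).mono inter_subset_left
  have hne12 : X1 ≠ X2 := by
    rintro rfl
    obtain ⟨v, hv⟩ := hX1ne
    exact (mem_sdiff.1 (hX2s hv)).2 (hX1s hv)
  -- one of them does not contain `e`
  obtain ⟨X, X', hX, hX', hne, heX⟩ : ∃ X X', Leaf s t vs es F P C X ∧
      Leaf s t vs es F P C X' ∧ X ≠ X' ∧ ¬ (s e ∈ X ∧ t e ∈ X) := by
    by_cases h1 : s e ∈ X1 ∧ t e ∈ X1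
    · refine ⟨X2, X1, hX2, hX1, hne12.symm, fun h2 => ?_⟩
      exact disjoint_left.1 (leaf_disj K hX1 hX2 hne12) h1.1 h2.1
    · exact ⟨X1, X2, hX1, hX2, hne12, h1⟩
  -- the maximal pair
  let good : Finset V × Finset V → Prop := fun p =>
    Leaf s t vs es F P C p.1 ∧ ¬ (s e ∈ p.1 ∧ t e ∈ p.1) ∧ p.2 ⊆ C ∧ Disjoint p.2 p.1 ∧
      p.2.Nonempty ∧ cn s t (eD es F) p.2 ≤ 2 ∧
      ∀ Y, Leaf s t vs es F P C Y → (s e ∈ Y ∧ t e ∈ Y) → (p.2 ∩ Y).Nonempty
  have hgood : ∃ p, p ∈ (vs.powerset ×ˢ vs.powerset).filter good := by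
    have mk : ∀ y ∈ C, y ∉ X → (∀ Y, Leaf s t vs es F P C Y → (s e ∈ Y ∧ t e ∈ Y) → y ∈ Y) →
        ∃ p, p ∈ (vs.powerset ×ˢ vs.powerset).filter good := by
      intro y hy hyX hyY
      refine ⟨(X, {y}), mem_filter.2 ⟨mem_product.2 ⟨mem_powerset.2 hX.1.1, mem_powerset.2
        (singleton_subset_iff.2 (K.sub hy))⟩, hX, heX, singleton_subset_iff.2 hy,
        disjoint_singleton_left.2 hyX, singleton_nonempty y, (D_two K hy).le, ?_⟩⟩
      intro Y hY heY
      exact ⟨y, mem_inter.2 ⟨mem_singleton_self _, hyY Y hY heY⟩⟩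
    by_cases hO : ∃ O, Leaf s t vs es F P C O ∧ (s e ∈ O ∧ t e ∈ O)
    · obtain ⟨O, hO, heO⟩ := hO
      obtain ⟨y, hy⟩ := fam_meets K hO.1
      rw [mem_inter] at hy
      have hOX : O ≠ X := by
        rintro rfl
        exact heX heO
      refine mk y hy.2 (disjoint_left.1 (leaf_disj K hO hX hOX) hy.1) ?_
      intro Y hY heY
      by_cases hYO : Y = O
      · rw [hYO]; exact hy.1
      · exact absurd heO.1 (disjoint_left.1 (leaf_disj K hY hO hYO) heY.1)
    · obtain ⟨y, hy⟩ := fam_meets K hX'.1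
      rw [mem_inter] at hy
      refine mk y hy.2 (disjoint_left.1 (leaf_disj K hX' hX hne.symm) hy.1) ?_
      intro Y hY heY
      exact absurd ⟨Y, hY, heY⟩ hO
  obtain ⟨p, hp, hmax⟩ := exists_max_image _ (fun p : Finset V × Finset V => p.2.card) hgood
  rw [mem_filter] at hp
  obtain ⟨-, hL, heL, hAC, hAX, hAne, hA2, hAO⟩ := hp
  have hXne : (p.1 ∩ C).Nonempty := fam_meets K hL.1
  have hACne : p.2 ≠ C := by
    intro h
    obtain ⟨v, hv⟩ := hXne
    rw [mem_inter] at hv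
    exact disjoint_left.1 hAX (h ▸ hv.2) hv.1
  have hends : ∀ g ∈ es, g ∉ F → cr s t p.2 g → s g ∈ p.1 ∨ t g ∈ p.1 := by
    intro g hg hF hc
    by_contra hcon
    rw [not_or] at hcon
    obtain ⟨w, hw, hwA, hgw, -, hle⟩ := seg_grow K hAC hA2 hg hF hc
    have hwX : w ∉ p.1 := by
      rcases hgw with h | h
      · exact h ▸ hcon.1
      · exact h ▸ hcon.2
    have h3 := hmax (p.1, insert w p.2) (mem_filter.2 ⟨mem_product.2 ⟨mem_powerset.2 hL.1.1,
      mem_powerset.2 ((insert_subset hw hAC).trans K.sub)⟩, hL, heL, insert_subset hw hAC,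
      disjoint_insert_left.2 ⟨hwX, hAX⟩, insert_nonempty _ _, hle, fun Y hY heY =>
        (hAO Y hY heY).mono (inter_subset_inter_right (subset_insert _ _))⟩)
    change (insert w p.2).card ≤ p.2.card at h3
    rw [card_insert_of_notMem hwA] at h3
    omega
  refine ⟨p.1, p.2, hL, heL, hAC, hAX, hAne, seg_two K hAC hAne hACne hA2, hends, ?_⟩
  intro Y hY hYX
  by_contra hcon
  rw [not_nonempty_iff_eq_empty] at hcon
  have hAY : Disjoint p.2 Y := disjoint_iff_inter_eq_empty.2 hcon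
  have heY : ¬ (s e ∈ Y ∧ t e ∈ Y) := by
    intro h
    obtain ⟨v, hv⟩ := hAO Y hY h
    rw [hcon] at hv
    exact absurd hv (notMem_empty _)
  obtain ⟨g, hg, hF, hc⟩ := seg_cross K hAC hAne hACne
  obtain ⟨w, hw, hwA, hgw, hgA, hle⟩ := seg_grow K hAC hA2 hg hF hc
  have hwX : w ∈ p.1 := by
    have h1 := hends g hg hF hc
    -- the end in `A` is not in `X`
    rcases hgw with h | h
    · -- `s g = w`, so `t g ∈ A`
      have h2 : t g ∈ p.2 := by
        rcases hgA with h' | h'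
        · exact absurd (h ▸ h') hwA
        · exact h'
      rcases h1 with h' | h'
      · exact h ▸ h'
      · exact absurd h' (disjoint_left.1 hAX h2)
    · have h2 : s g ∈ p.2 := by
        rcases hgA with h' | h'
        · exact h'
        · exact absurd (h ▸ h') hwA
      rcases h1 with h' | h'
      · exact absurd h' (disjoint_left.1 hAX h2)
      · exact h ▸ h'
  have hwY : w ∉ Y := disjoint_left.1 (leaf_disj K hL hY hYX.symm) hwX
  have h3 := hmax (Y, insert w p.2) (mem_filter.2 ⟨mem_product.2 ⟨mem_powerset.2 hY.1.1,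
    mem_powerset.2 ((insert_subset hw hAC).trans K.sub)⟩, hY, heY, insert_subset hw hAC,
    disjoint_insert_left.2 ⟨hwY, hAY⟩, insert_nonempty _ _, hle, fun Z hZ heZ =>
      (hAO Z hZ heZ).mono (inter_subset_inter_right (subset_insert _ _))⟩)
  change (insert w p.2).card ≤ p.2.card at h3
  rw [card_insert_of_notMem hwA] at h3
  omega

end

end Ev

end OddN
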