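import Pool.Agent.Lib.OddN.EvB
import Pool.Agent.Lib.OddN.Side

/-! Elimination of an even circuit, part C: no set of the family; gluing the two sides. -/

set_option autoImplicit false

namespace OddN

open Finset Classical

namespace Ev

variable {V E : Type*} {m : ℕ} {s t : E → V} {vs : Finset V} {es F P : Finset E} {C : Finset V}

lemma of_circ (h : Hyp m s t vs es F) (K : OddN.Circ s t vs es F P C) :
    Ev.Circ m s t vs es F P C where
  h := h
  sub := K.sub
  ne := K.ne
  even := K.even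
  cl := K.cl
  min := by
    intro X hX hne hc
    rcases K.min X (hX.trans K.sub) hc with h1 | h1
    · exact Finset.Subset.antisymm hX h1
    · obtain ⟨v, hv⟩ := hne
      exact absurd hv (disjoint_left.1 h1 (hX hv))
  Psub := K.Psub
  PF := fun g hg => disjoint_left.1 K.PF hg
  Pin := K.Pends
  Pone := K.Pone

lemma eD_eq : eD es F = es \ F := by
  ext g
  rw [mem_eD, mem_sdiff]

lemma eH_eq : OddN.eH s es F P C = Ev.eH s es F P C := by
  ext g
  rw [OddN.mem_eH, Ev.mem_eH]

section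

variable (K : Ev.Circ m s t vs es F P C)

include K

lemma closed_or {X : Finset V} (hX : ∀ g ∈ es, cr s t X g → g ∈ F) :
    C ⊆ X ∨ Disjoint C X := by
  by_cases hne : (C ∩ X).Nonempty
  · left
    have h1 := K.min (C ∩ X) inter_subset_left hne (by
      intro g hg hc
      by_contra hF
      have h2 := side K hg hF
      have h3 : ¬ cr s t X g := fun h => hF (hX g hg h)
      unfold cr at hc h3
      rw [mem_inter, mem_inter] at hc
      tauto)
    rw [← h1]
    exact inter_subset_right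
  · right
    rw [disjoint_iff_inter_eq_empty]
    exact not_nonempty_iff_eq_empty.1 hne

lemma sub_vs {X : Finset V} (hX : X ⊆ vs) (ho : Odd X.card)
    (hcl : ∀ g ∈ es, cr s t X g → g ∈ F) : Odd (X \ C).card := by
  rcases closed_or K hcl with h1 | h1
  · rw [card_sdiff_of_subset h1]
    obtain ⟨a, ha⟩ := ho
    obtain ⟨b, hb⟩ := K.even
    have := card_le_card h1
    exact ⟨a - b, by omega⟩
  · rwa [sdiff_eq_self_of_disjoint h1.symm]

/-- no set of the family: the graph without the other half of the circuit -/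
lemma hyp2_zero (hno : ∀ X, ¬ Fam s t vs es F P C X) :
    Hyp2 m s t vs (eH s es F P C) F P C where
  ends := fun g hg => K.h.ends g (mem_eH.1 hg).1
  noloop := H_noloop K
  vpsub := K.sub
  cubic := fun v hv hvC => H_three K hv hvC
  two := fun v hv => H_two K hv
  pone := K.Pone
  psub := fun g hg => mem_eH.2 ⟨K.Psub hg, Or.inr (Or.inl hg)⟩
  fsub := fun g hg => mem_eH.2 ⟨K.h.sub hg, Or.inl hg⟩
  pf := disjoint_left.2 K.PF
  pends := K.Pin
  join := K.h.join
  cut := by
    intro X hX ho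
    have h1 := (odd_H K hX).2 ho
    have h2 : cn s t (eH s es F P C) X ≠ 1 := fun h => hno X ⟨hX, ho, h⟩
    obtain ⟨k, hk⟩ := h1
    omega
  many := by
    rintro ⟨Z, hZ, hd⟩
    refine K.h.many ⟨fun i => Z i \ C, fun i => ⟨sdiff_subset.trans (hZ i).1, (hZ i).2.1, ?_⟩, ?_⟩
    · intro g hg hc
      by_contra hF
      have h1 := side K hg hF
      by_cases h2 : s g ∈ C
      · have h3 := h1.1 h2
        apply hc
        rw [mem_sdiff, mem_sdiff]
        tauto
      · have h3 : t g ∉ C := fun h => h2 (h1.2 h)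
        have h4 : cr s t (Z i) g := by
          unfold cr at hc ⊢
          rw [mem_sdiff, mem_sdiff] at hc
          tauto
        rcases (hZ i).2.2 g (mem_eH.2 ⟨hg, Or.inr (Or.inr h2)⟩) h4 with h5 | h5
        · exact hF h5
        · exact h2 (K.Pin g h5).1
    · intro i j hij
      exact (hd i j hij).mono sdiff_subset sdiff_subset

lemma concl_zero {e : E} (hC : Concl2 s t vs (eH s es F P C) F C e) : Concl s t vs es F e := by
  obtain ⟨M, hM, he, hp, hg⟩ := hC
  refine ⟨M, fun g hg => (mem_eH.1 (hM hg)).1, he, hp, fun Z hZ ho => ?_⟩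
  by_cases hcl : ∀ g ∈ es, cr s t Z g → g ∈ F
  · obtain ⟨g, h1, h2, h3⟩ := hg Z hZ (sub_vs K hZ ho hcl)
    exact ⟨g, (mem_eH.1 h1).1, h2, h3⟩
  · by_contra hcon
    apply hcl
    intro g hg hc
    by_contra hF
    exact hcon ⟨g, hg, hc, fun h => hF h.2⟩

end

/-- a perfect matching of one side `W`, with exactly one edge `g0` leaving `W` -/
structure Half (s t : E → V) (es F : Finset E) (C W : Finset V) (g0 : E) (M : Finset E) :
    Prop where
  sub : M ⊆ es
  touch : ∀ g ∈ M, s g ∈ W ∨ t g ∈ W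
  pm : ∀ v ∈ W, cn s t M {v} = 1
  cross : ∀ g ∈ M, cr s t W g → g = g0
  mem : g0 ∈ M
  good : ∀ Z ⊆ W, Disjoint Z C → Odd Z.card → ∃ g ∈ es, cr s t Z g ∧ ¬ (g ∈ M ∧ g ∈ F)

lemma half_of {W ρ : Finset V} {z : V} (hz : z ∉ W) {M : Finset E}
    (hM : M ⊆ eW s t es F P C W ρ)
    (hp : ∀ v ∈ insert z W, cn (con s W z) (con t W z) M {v} = 1)
    (hgood : ∀ Z ⊆ insert z W, Odd (Z \ ((C ∩ W) \ ρ)).card →
      ∃ g ∈ eW s t es F P C W ρ, cr (con s W z) (con t W z) Z g ∧
        ¬ (g ∈ M ∧ g ∈ touch s t F W))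
    {g0 : E} (hg0 : g0 ∈ M) (hc0 : cr s t W g0) : Half s t es F C W g0 M where
  sub := fun g hg => (mem_eW.1 (hM hg)).1
  touch := fun g hg => (mem_eW.1 (hM hg)).2.1
  pm := by
    intro v hv
    have h1 := hp v (mem_insert_of_mem hv)
    rwa [cn_con hz (singleton_subset_iff.2 hv)] at h1
  cross := by
    intro g hg hc
    have h1 := hp z (mem_insert_self _ _)
    rw [cn_con_z hz, cn_eq_card] at h1
    obtain ⟨x, hx⟩ := card_eq_one.1 h1
    have h2 : g ∈ M.filter (cr s t W) := mem_filter.2 ⟨hg, hc⟩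
    have h3 : g0 ∈ M.filter (cr s t W) := mem_filter.2 ⟨hg0, hc0⟩
    rw [hx, mem_singleton] at h2 h3
    rw [h2, h3]
  mem := hg0
  good := by
    intro Z hZ hd ho
    have h1 : Z \ ((C ∩ W) \ ρ) = Z := by
      ext v
      rw [mem_sdiff, mem_sdiff, mem_inter]
      constructor
      · exact fun h => h.1
      · exact fun h => ⟨h, fun h' => disjoint_left.1 hd h h'.1.1⟩
    obtain ⟨g, h2, h3, h4⟩ := hgood Z (hZ.trans (subset_insert _ _)) (by rwa [h1])
    rw [cr_con hz hZ] at h3
    have h5 := mem_eW.1 h2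
    exact ⟨g, h5.1, h3, fun h6 => h4 ⟨h6.1, mem_touch.2 ⟨h6.2, h5.2.1⟩⟩⟩

section

variable (K : Ev.Circ m s t vs es F P C)

include K

/-- one side of the goodness proof -/
lemma half_good {W : Finset V} {g0 f : E} {M M' : Finset E} (A : Half s t es F C W g0 M)
    (hW : W ⊆ vs) (hfF : f ∈ F)
    (hf : ∀ g ∈ eH s es F P C, cr s t W g → g = f)
    (hM' : ∀ g, (s g ∈ W ∨ t g ∈ W) → (g ∈ M' ↔ g ∈ M))
    {Q : Finset V} (hQ : Disjoint Q C) (hall : ∀ g ∈ es, cr s t Q g → g ∈ M' ∧ g ∈ F)
    (ho : Odd (Q ∩ W).card) : False := by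
  have hZW : Q ∩ W ⊆ W := inter_subset_right
  have hZC : Disjoint (Q ∩ W) C := hQ.mono_left inter_subset_left
  have key : ∀ g ∈ es, cr s t (Q ∩ W) g → ¬ cr s t Q g → g = f := by
    intro g hg hc hnQ
    have h1 : s g ∈ Q ∧ t g ∈ Q := by
      unfold cr at hc hnQ
      rw [mem_inter, mem_inter] at hc
      tauto
    have h2 : cr s t W g := by
      unfold cr at hc ⊢
      rw [mem_inter, mem_inter] at hc
      tauto
    exact hf g (mem_eH.2 ⟨hg, Or.inr (Or.inr (disjoint_left.1 hQ h1.1))⟩) h2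
  have htouch : ∀ g, cr s t (Q ∩ W) g → (s g ∈ W ∨ t g ∈ W) := by
    intro g hc
    unfold cr at hc
    rw [mem_inter, mem_inter] at hc
    tauto
  obtain ⟨g, hg, hc, hbad⟩ := A.good (Q ∩ W) hZW hZC ho
  by_cases hcQ : cr s t Q g
  · have h1 := hall g hg hcQ
    exact hbad ⟨(hM' g (htouch g hc)).1 h1.1, h1.2⟩
  · have hgf := key g hg hc hcQ
    have hfM : f ∉ M := fun h => hbad ⟨hgf ▸ h, hgf ▸ hfF⟩
    subst hgf
    -- parity
    have h1 : Odd (cn s t es (Q ∩ W)) := by
      rw [odd_cn K.h.noloop]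
      · exact ho
      · intro v hv
        rw [K.h.cubic v (hW (hZW hv))]
        decide
    have h2 : Odd (cn s t M (Q ∩ W)) := by
      rw [odd_cn fun g hg => K.h.noloop g (A.sub hg)]
      · exact ho
      · intro v hv
        rw [A.pm v (hZW hv)]
        decide
    have h3 : es.filter (cr s t (Q ∩ W)) = insert g (M.filter (cr s t (Q ∩ W))) := by
      ext g'
      rw [mem_filter, mem_insert, mem_filter]
      constructor
      · rintro ⟨h4, h5⟩
        by_cases h6 : cr s t Q g'
        · exact Or.inr ⟨(hM' g' (htouch g' h5)).1 (hall g' h4 h6).1, h5⟩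
        · exact Or.inl (key g' h4 h5 h6)
      · rintro (h4 | h4)
        · exact ⟨h4 ▸ hg, h4 ▸ hc⟩
        · exact ⟨A.sub h4.1, h4.2⟩
    rw [cn_eq_card, h3, card_insert_of_notMem (fun h => hfM (mem_filter.1 h).1),
      ← cn_eq_card] at h1
    obtain ⟨a, ha⟩ := h1
    obtain ⟨b, hb⟩ := h2
    omega

/-- **gluing two halves** -/
lemma glue_halves {X : Finset V} (hX : X ⊆ vs) {g0 f : E} {M1 M2 : Finset E}
    (A : Half s t es F C (vs \ X) g0 M1) (B : Half s t es F C X g0 M2) (hfF : f ∈ F)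
    (hf : ∀ g ∈ eH s es F P C, cr s t X g → g = f) {e : E} (he : e ∈ M1) :
    Concl s t vs es F e := by
  have hends := K.h.ends
  have hcc : ∀ g ∈ es, (cr s t (vs \ X) g ↔ cr s t X g) := fun g hg =>
    cr_compl (hends g hg).1 (hends g hg).2 X
  -- edges of `M1` touching `X`, edges of `M2` touching the other side
  have t1 : ∀ g ∈ M1, (s g ∈ X ∨ t g ∈ X) → g = g0 := by
    intro g hg h1
    have h2 := A.touch g hg
    refine A.cross g hg ((hcc g (A.sub hg)).2 ?_)
    rw [mem_sdiff, mem_sdiff] at h2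
    unfold cr
    tauto
  have t2 : ∀ g ∈ M2, (s g ∈ vs \ X ∨ t g ∈ vs \ X) → g = g0 := by
    intro g hg h1
    have h2 := B.touch g hg
    refine B.cross g hg ?_
    rw [mem_sdiff, mem_sdiff] at h1
    unfold cr
    tauto
  have u1 : ∀ g, (s g ∈ vs \ X ∨ t g ∈ vs \ X) → (g ∈ M1 ∪ M2 ↔ g ∈ M1) := by
    intro g h1
    rw [mem_union]
    constructor
    · rintro (h2 | h2)
      · exact h2
      · rw [t2 g h2 h1]; exact A.mem
    · exact Or.inl
  have u2 : ∀ g, (s g ∈ X ∨ t g ∈ X) → (g ∈ M1 ∪ M2 ↔ g ∈ M2) := by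
    intro g h1
    rw [mem_union]
    constructor
    · rintro (h2 | h2)
      · rw [t1 g h2 h1]; exact B.mem
      · exact h2
    · exact Or.inr
  have hsing : ∀ v : V, ∀ g, cr s t {v} g → (s g = v ∨ t g = v) := fun v g h => cr_sing h
  -- goodness for sets off the circuit
  have hgood : ∀ Q ⊆ vs, Disjoint Q C → Odd Q.card →
      ¬ ∀ g ∈ es, cr s t Q g → g ∈ M1 ∪ M2 ∧ g ∈ F := by
    intro Q hQ hQC ho hall
    have hc : Q.card = (Q ∩ (vs \ X)).card + (Q ∩ X).card := by
      rw [← card_union_of_disjoint]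
      · congr 1
        ext v
        rw [mem_union, mem_inter, mem_inter, mem_sdiff]
        constructor
        · intro hv
          by_cases h1 : v ∈ X
          · exact Or.inr ⟨hv, h1⟩
          · exact Or.inl ⟨hv, hQ hv, h1⟩
        · rintro (h1 | h1) <;> exact h1.1
      · rw [disjoint_left]
        intro v h1 h2
        exact (mem_sdiff.1 (mem_inter.1 h1).2).2 (mem_inter.1 h2).2
    by_cases h1 : Odd (Q ∩ X).card
    · exact half_good K B hX hfF hf u2 hQC hall h1
    · refine half_good K A sdiff_subset hfF (fun g hg hc' => hf g hg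
        ((hcc g (mem_eH.1 hg).1).1 hc')) u1 hQC hall ?_
      rw [Nat.not_odd_iff_even] at h1
      obtain ⟨a, ha⟩ := ho
      obtain ⟨b, hb⟩ := h1
      exact ⟨a - b, by omega⟩
  refine ⟨M1 ∪ M2, union_subset A.sub B.sub, mem_union_left _ he, ?_, ?_⟩
  · intro v hv
    by_cases hvX : v ∈ X
    · rw [← B.pm v hvX]
      refine cn_congr' fun g hg => u2 g ?_
      rcases hsing v g hg with h | h
      · exact Or.inl (h ▸ hvX)
      · exact Or.inr (h ▸ hvX)
    · have hvW : v ∈ vs \ X := mem_sdiff.2 ⟨hv, hvX⟩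
      rw [← A.pm v hvW]
      refine cn_congr' fun g hg => u1 g ?_
      rcases hsing v g hg with h | h
      · exact Or.inl (h ▸ hvW)
      · exact Or.inr (h ▸ hvW)
  · intro Z hZ ho
    by_contra hcon
    have hall : ∀ g ∈ es, cr s t Z g → g ∈ M1 ∪ M2 ∧ g ∈ F := by
      intro g hg hc
      by_contra h
      exact hcon ⟨g, hg, hc, h⟩
    rcases closed_or K (fun g hg hc => (hall g hg hc).2) with h1 | h1
    · -- pass to the complement
      refine hgood (vs \ Z) sdiff_subset ?_ ?_ ?_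
      · rw [disjoint_left]
        intro v h2 h3
        exact (mem_sdiff.1 h2).2 (h1 h3)
      · rw [card_sdiff_of_subset hZ]
        obtain ⟨a, ha⟩ := ho
        obtain ⟨b, hb⟩ := K.h.even_card
        have := card_le_card hZ
        exact ⟨b - a - 1, by omega⟩
      · intro g hg hc
        exact hall g hg ((cr_compl (hends g hg).1 (hends g hg).2 Z).1 hc)
    · exact hgood Z hZ h1.symm ho hall

end

end Ev

end OddN
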