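import Pool.Agent.Lib.OddN.EvC

/-! Elimination of an even circuit. -/

set_option autoImplicit false

namespace OddN

open Finset Classical

variable {V E : Type*} {m : ℕ} {s t : E → V} {vs : Finset V} {es F P : Finset E} {C : Finset V}

namespace Ev

/-- a set of the family has at least two vertices -/
lemma fam_card (K : Ev.Circ m s t vs es F P C) {X : Finset V} (hX : Fam s t vs es F P C X) :
    2 ≤ X.card := by
  obtain ⟨v, hv⟩ := fam_meets K hX
  have h1 : 0 < (X \ C).card := hX.2.1.pos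
  have h2 : 0 < (X ∩ C).card := card_pos.2 ⟨v, hv⟩
  have h3 : X.card = (X \ C).card + (X ∩ C).card := (card_sdiff_add_card_inter X C).symm
  omega

end Ev

open Ev in
/-- **Elimination of an even circuit.** -/
theorem elim_circ (h : Hyp m s t vs es F) (K0 : OddN.Circ s t vs es F P C)
    (ih : ∀ (s t : E → V) (vs' : Finset V) (es F : Finset E), vs'.card < vs.card →
      Hyp m s t vs' es F → ∀ e ∈ es, Concl s t vs' es F e)
    {e : E} (he : e ∈ es) (hs : s e ∉ C) (ht : t e ∉ C) : Concl s t vs es F e := by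
  have K := of_circ h K0
  by_cases hex : ∃ X, Ev.Fam s t vs es F P C X
  swap
  · -- the whole circuit is suppressed
    refine concl_zero K (supp (N := vs.card) ih _ s t vs _ F P C rfl ?_ (hyp2_zero K
      fun X hX => hex ⟨X, hX⟩) e (mem_eH.2 ⟨he, Or.inr (Or.inr hs)⟩) hs ht)
    refine card_lt_card ⟨sdiff_subset, fun h1 => ?_⟩
    obtain ⟨v, hv⟩ := K.ne
    exact (mem_sdiff.1 (h1 (K.sub hv))).2 hv
  obtain ⟨X, A, hX, heX, hAC, hAX, hAne, hA2, hAout, hAmeet⟩ := choice K e hex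
  have hXf := hX.1
  have hXv := hXf.1
  have hYf := fam_compl K hXf
  have hends := h.ends
  have hcc : ∀ g ∈ es, (cr s t (vs \ X) g ↔ cr s t X g) := fun g hg =>
    cr_compl (hends g hg).1 (hends g hg).2 X
  -- the crossing edge
  have h1 := hXf.2.2
  rw [cn_eq_card] at h1
  obtain ⟨f, hf⟩ := card_eq_one.1 h1
  have hfmem : f ∈ (Ev.eH s es F P C).filter (cr s t X) := by rw [hf]; exact mem_singleton_self _
  rw [mem_filter] at hfmem
  have hfX : ∀ g ∈ Ev.eH s es F P C, cr s t X g → g = f := by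
    intro g hg hc
    have : g ∈ (Ev.eH s es F P C).filter (cr s t X) := mem_filter.2 ⟨hg, hc⟩
    rwa [hf, mem_singleton] at this
  have hfF : f ∈ F := leaf_F K hX hfmem.1 hfmem.2
  obtain ⟨y, hy⟩ := fam_meets K hXf
  rw [mem_inter] at hy
  obtain ⟨y', hy'⟩ := fam_meets K hYf
  rw [mem_inter] at hy'
  have hAsub : A ⊆ vs \ X := fun v hv => mem_sdiff.2 ⟨K.sub (hAC hv), disjoint_left.1 hAX hv⟩
  -- the side of `e`
  have S1 : Seg s t es F C (vs \ X) A :=
  { sub := hAC
    subW := hAsub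
    ne := hAne
    two := by rw [← eD_eq]; exact hA2
    out := by
      intro g hg hF hc hin
      rcases hAout g hg hF hc with h2 | h2
      · exact (mem_sdiff.1 hin.1).2 h2
      · exact (mem_sdiff.1 hin.2).2 h2 }
  have H1 := side_hyp2 (z := y) h K0 (W := vs \ X) (ρ := A) sdiff_subset
    (by rw [eH_eq]; exact hYf.2.2)
    (by
      intro g hg hc
      rw [eH_eq] at hg
      exact leaf_F K hX hg ((hcc g (Ev.mem_eH.1 hg).1).1 hc))
    (fun h2 => (mem_sdiff.1 (h2 hy.2)).2 hy.1) S1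
    (by
      intro X' hX' h2
      rw [eH_eq] at h2
      have h3 : Odd (X' \ C).card := by
        rw [← odd_H K (hX'.trans sdiff_subset), h2]
        decide
      obtain ⟨Y, hYX', hY⟩ := exists_leaf (⟨hX'.trans sdiff_subset, h3, h2⟩ :
        Ev.Fam s t vs es F P C X')
      have hne : Y ≠ X := by
        rintro rfl
        exact (mem_sdiff.1 (hX' (hYX' hy.1))).2 hy.1
      obtain ⟨v, hv⟩ := hAmeet Y hY hne
      rw [mem_inter] at hv
      exact ⟨v, mem_inter.2 ⟨hYX' hv.2, hv.1⟩⟩)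
    (K.sub hy.2) (fun h2 => (mem_sdiff.1 h2).2 hy.1)
  have hyn : y ∉ vs \ X := fun h2 => (mem_sdiff.1 h2).2 hy.1
  have heW : s e ∈ vs \ X ∨ t e ∈ vs \ X := by
    have h2 := hends e he
    by_cases h3 : s e ∈ X
    · right
      exact mem_sdiff.2 ⟨h2.2, fun h4 => heX ⟨h3, h4⟩⟩
    · left
      exact mem_sdiff.2 ⟨h2.1, h3⟩
  have hcon : ∀ (r : E → V) (W ρ : Finset V) (z : V) (g : E), z ∉ W → (r g ∉ C ∨ r g ∈ ρ) →
      con r W z g ∉ (C ∩ W) \ ρ := by
    intro r W ρ z g hz h2 h3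
    unfold con at h3
    rw [mem_sdiff, mem_inter] at h3
    by_cases h4 : r g ∈ W
    · rw [if_pos h4] at h3
      rcases h2 with h2 | h2
      · exact h2 h3.1.1
      · exact h3.2 h2
    · rw [if_neg h4] at h3
      exact hz h3.1.2
  have hcard : ∀ (W ρ : Finset V) (z : V), z ∉ W → z ∈ vs → W ⊆ vs → 2 ≤ (vs \ W).card →
      (insert z W \ ((C ∩ W) \ ρ)).card < vs.card := by
    intro W ρ z hz hzv hW h2
    have h3 := card_le_card (sdiff_subset : insert z W \ ((C ∩ W) \ ρ) ⊆ insert z W)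
    rw [card_insert_of_notMem hz] at h3
    rw [card_sdiff_of_subset hW] at h2
    have h4 := card_le_card hW
    omega
  obtain ⟨M1, hM1, heM1, hp1, hg1⟩ := supp (N := vs.card) ih _ _ _ _ _ _ _ _ rfl
    (hcard (vs \ X) A y hyn (K.sub hy.2) sdiff_subset (by
      rw [Finset.sdiff_sdiff_eq_self hXv]
      exact fam_card K hXf)) H1 e
    (mem_eW.2 ⟨he, heW, Or.inr (Or.inr (Or.inl hs))⟩)
    (hcon s _ _ _ _ hyn (Or.inl hs)) (hcon t _ _ _ _ hyn (Or.inl ht))
  -- the edge of `M1` at the new vertex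
  obtain ⟨g0, hg0, hc0⟩ : ∃ g0 ∈ M1, cr s t (vs \ X) g0 := by
    have h2 := hp1 y (mem_insert_self _ _)
    rw [cn_con_z hyn, cn_eq_card] at h2
    obtain ⟨g, hg⟩ := card_eq_one.1 h2
    have : g ∈ M1.filter (cr s t (vs \ X)) := by rw [hg]; exact mem_singleton_self _
    rw [mem_filter] at this
    exact ⟨g, this.1, this.2⟩
  have A1 : Half s t es F C (vs \ X) g0 M1 := half_of hyn hM1 hp1 hg1 hg0 hc0
  have g0es := A1.sub hg0
  have hc0X : cr s t X g0 := (hcc g0 g0es).1 hc0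
  -- the segment on the other side
  have hnCX : ¬ C ⊆ X := by
    intro h2
    exact (mem_sdiff.1 hy'.1).2 (h2 hy'.2)
  obtain ⟨B, hBC, hBX, hyB, hB2, hBout, hend⟩ : ∃ B ⊆ C, B ⊆ X ∧ B.Nonempty ∧
      cn s t (eD es F) B = 2 ∧ (∀ g ∈ es, g ∉ F → cr s t B g → ¬ (s g ∈ X ∧ t g ∈ X)) ∧
      (∀ u, (s g0 = u ∨ t g0 = u) → u ∈ X → u ∉ C ∨ u ∈ B) := by
    by_cases hgH : g0 ∈ Ev.eH s es F P C
    · obtain ⟨B, hBC, hBX, hyB, hB2, hBout⟩ := exists_seg K hnCX hy.2 hy.1
      refine ⟨B, hBC, hBX, ⟨y, hyB⟩, hB2, hBout, ?_⟩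
      intro u hu huX
      left
      intro huC
      exact leaf_inner K hX hgH hc0X huX huC (cr_of_end (h.noloop g0 g0es) hu)
    · -- an edge of the other half
      have h2 : s g0 ∈ C ∧ t g0 ∈ C := by
        have h3 : g0 ∉ F := fun h3 => hgH (mem_eH.2 ⟨g0es, Or.inl h3⟩)
        have h4 := side K g0es h3
        have h5 : s g0 ∈ C := by
          by_contra h5
          exact hgH (mem_eH.2 ⟨g0es, Or.inr (Or.inr h5)⟩)
        exact ⟨h5, h4.1 h5⟩
      obtain ⟨u0, hu0, hu0X, hu0C, huniq⟩ : ∃ u0, (s g0 = u0 ∨ t g0 = u0) ∧ u0 ∈ X ∧ u0 ∈ C ∧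
          ∀ u, (s g0 = u ∨ t g0 = u) → u ∈ X → u = u0 := by
        by_cases h3 : s g0 ∈ X
        · refine ⟨s g0, Or.inl rfl, h3, h2.1, ?_⟩
          rintro u (h4 | h4) h5
          · exact h4.symm
          · exact absurd ⟨fun _ => h4 ▸ h5, fun _ => h3⟩ hc0X
        · have h4 : t g0 ∈ X := by
            by_contra h4
            exact hc0X ⟨fun h' => absurd h' h3, fun h' => absurd h' h4⟩
          refine ⟨t g0, Or.inr rfl, h4, h2.2, ?_⟩
          rintro u (h5 | h5) h6
          · exact absurd (h5 ▸ h6) h3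
          · exact h5.symm
      obtain ⟨B, hBC, hBX, hyB, hB2, hBout⟩ := exists_seg K hnCX hu0C hu0X
      refine ⟨B, hBC, hBX, ⟨u0, hyB⟩, hB2, hBout, ?_⟩
      intro u hu huX
      right
      rw [huniq u hu huX]
      exact hyB
  have S2 : Seg s t es F C X B :=
  { sub := hBC
    subW := hBX
    ne := hyB
    two := by rw [← eD_eq]; exact hB2
    out := hBout }
  have hy'n : y' ∉ X := (mem_sdiff.1 hy'.1).2
  have H2 := side_hyp2 (z := y') h K0 (W := X) (ρ := B) hXv
    (by rw [eH_eq]; exact hXf.2.2)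
    (by
      intro g hg hc
      rw [eH_eq] at hg
      exact leaf_F K hX hg hc)
    hnCX S2
    (by
      intro X' hX' h2
      rw [eH_eq] at h2
      have h3 : Odd (X' \ C).card := by
        rw [← odd_H K (hX'.trans hXv), h2]
        decide
      have h4 := hX.2 X' hX' ⟨hX'.trans hXv, h3, h2⟩
      rw [h4]
      obtain ⟨v, hv⟩ := hyB
      exact ⟨v, mem_inter.2 ⟨hBX hv, hv⟩⟩)
    (K.sub hy'.2) hy'n
  have hg0W : g0 ∈ eW s t es F P C X B := by
    refine mem_eW.2 ⟨g0es, ?_, ?_⟩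
    · by_contra h2
      rw [not_or] at h2
      exact hc0X ⟨fun h' => absurd h' h2.1, fun h' => absurd h' h2.2⟩
    · by_cases hgH : g0 ∈ Ev.eH s es F P C
      · rcases (mem_eH.1 hgH).2 with h2 | h2 | h2
        · exact Or.inl h2
        · exact Or.inr (Or.inl h2)
        · exact Or.inr (Or.inr (Or.inl h2))
      · right; right; right
        have h3 : g0 ∉ F := fun h3 => hgH (mem_eH.2 ⟨g0es, Or.inl h3⟩)
        have h5 : s g0 ∈ C := by
          by_contra h5
          exact hgH (mem_eH.2 ⟨g0es, Or.inr (Or.inr h5)⟩)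
        have h4 := (side K g0es h3).1 h5
        by_cases h6 : s g0 ∈ X
        · rcases hend (s g0) (Or.inl rfl) h6 with h7 | h7
          · exact absurd h5 h7
          · exact Or.inl h7
        · have h7 : t g0 ∈ X := by
            by_contra h7
            exact hc0X ⟨fun h' => absurd h' h6, fun h' => absurd h' h7⟩
          rcases hend (t g0) (Or.inr rfl) h7 with h8 | h8
          · exact absurd h4 h8
          · exact Or.inr h8
  have hcon2 : ∀ (r : E → V), (s g0 = r g0 ∨ t g0 = r g0) →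
      con r X y' g0 ∉ (C ∩ X) \ B := by
    intro r hr h3
    unfold con at h3
    rw [mem_sdiff, mem_inter] at h3
    by_cases h4 : r g0 ∈ X
    · rw [if_pos h4] at h3
      rcases hend (r g0) hr h4 with h2 | h2
      · exact h2 h3.1.1
      · exact h3.2 h2
    · rw [if_neg h4] at h3
      exact hy'n h3.1.2
  obtain ⟨M2, hM2, heM2, hp2, hg2⟩ := supp (N := vs.card) ih _ _ _ _ _ _ _ _ rfl
    (hcard X B y' hy'n (K.sub hy'.2) hXv (fam_card K hYf)) H2 g0 hg0W
    (hcon2 s (Or.inl rfl)) (hcon2 t (Or.inr rfl))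
  have A2 : Half s t es F C X g0 M2 := half_of hy'n hM2 hp2 hg2 heM2 hc0X
  exact glue_halves K hXv A1 A2 hfF hfX heM1

end OddN
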