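import Pool.Agent.Lib.OddN.Base

/-! Multigraphs, and the theorem in terms of 2-factors and cycles. -/

set_option autoImplicit false

namespace OddN

open Finset Classical

/-- A loopless multigraph with vertex set `V` and edge set `E` (parallel edges are allowed):
the edge `e` joins the two different vertices `src e` and `tgt e`. -/
structure Multigraph (V E : Type*) where
  src : E → V
  tgt : E → V
  loopless : ∀ e, src e ≠ tgt e

namespace Multigraph

variable {V E : Type*} (G : Multigraph V E)

/-- number of edges of `A` incident with the vertex `v` -/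
noncomputable def deg (A : Finset E) (v : V) : ℕ := {e ∈ A | G.src e = v ∨ G.tgt e = v}.card

/-- every vertex has degree 3 -/
def Cubic [Fintype E] : Prop := ∀ v, G.deg univ v = 3

/-- the simple graph on all of `V` in which two vertices are adjacent iff some edge of `A`
joins them -/
def graph (A : Finset E) : SimpleGraph V :=
  SimpleGraph.fromRel fun u v => ∃ e ∈ A, G.src e = u ∧ G.tgt e = v

/-- no edge is a bridge: the two ends of each edge `e` are joined by a walk avoiding `e` -/
def Bridgeless [Fintype E] : Prop :=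
  ∀ e, (G.graph (univ.erase e)).Reachable (G.src e) (G.tgt e)

/-- an edge set meeting every vertex an even number of times -/
def IsCycle (C : Finset E) : Prop := ∀ v, Even (G.deg C v)

/-- an edge set meeting every vertex in exactly two edges -/
def IsTwoFactor (C : Finset E) : Prop := ∀ v, G.deg C v = 2

/-- the number of connected components with an odd number of vertices of the spanning
subgraph `(V, C)`, isolated vertices included -/
noncomputable def oddComp (C : Finset E) : ℕ := (G.graph C).oddComponents.ncard

end Multigraph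

variable {V E : Type*}

lemma cr_singleton (s t : E → V) (hst : ∀ e, s e ≠ t e) (v : V) (e : E) :
    cr s t {v} e ↔ s e = v ∨ t e = v := by
  unfold cr
  simp only [mem_singleton]
  constructor
  · intro h
    by_contra h2
    rw [not_or] at h2
    exact h ⟨fun h3 => absurd h3 h2.1, fun h3 => absurd h3 h2.2⟩
  · rintro (h | h) h2
    · exact hst e (h.trans (h2.1 h).symm)
    · exact hst e ((h2.2 h).trans h.symm)

lemma deg_eq (G : Multigraph V E) (A : Finset E) (v : V) :
    G.deg A v = cn G.src G.tgt A {v} := by
  rw [cn_eq_card]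
  unfold Multigraph.deg
  congr 1
  ext e
  rw [mem_filter, mem_filter, cr_singleton _ _ G.loopless]

/-- an edge set containing no odd cut extends to a cycle -/
lemma exists_cycle [Fintype V] [Fintype E] (s t : E → V) (hst : ∀ e, s e ≠ t e)
    (D : Finset E)
    (hD : ∀ Z : Finset V, (∀ g, cr s t Z g → g ∈ D) → Even (cn s t univ Z)) :
    ∃ C : Finset E, D ⊆ C ∧ ∀ v, Even (cn s t C {v}) := by
  let bd : E → (V → ZMod 2) := fun g v => (ci s t {v} g : ZMod 2)
  have hbd : ∀ (A : Finset E) (v : V), (∑ g ∈ A, bd g) v = (cn s t A {v} : ZMod 2) := by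
    intro A v
    rw [Finset.sum_apply]
    unfold cn
    push_cast
    rfl
  by_cases hmem : (∑ g ∈ D, bd g) ∈ Submodule.span (ZMod 2) (bd '' ((Dᶜ : Finset E) : Set E))
  · rw [Submodule.mem_span_image_finset_iff_exists_fun'] at hmem
    obtain ⟨c, hc⟩ := hmem
    refine ⟨D ∪ (Dᶜ).filter fun g => c g = 1, subset_union_left, fun v => ?_⟩
    have hdj : Disjoint D ((Dᶜ).filter fun g => c g = 1) := by
      rw [Finset.disjoint_left]
      intro g h1 h2
      exact (mem_compl.1 (mem_filter.1 h2).1) h1
    have h1 : (∑ i ∈ Dᶜ, c i • bd i) = ∑ g ∈ (Dᶜ).filter (fun g => c g = 1), bd g := by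
      rw [Finset.sum_filter]
      refine Finset.sum_congr rfl fun g _ => ?_
      have : ∀ z : ZMod 2, z = 1 ∨ z = 0 := by decide
      rcases this (c g) with h | h
      · rw [if_pos h, h, one_smul]
      · rw [h, zero_smul, if_neg (by decide)]
    rw [h1] at hc
    have h2 := congrFun hc v
    rw [hbd, hbd] at h2
    rw [cn_union hdj, ← ZMod.natCast_eq_zero_iff_even]
    push_cast
    rw [h2]
    have : ∀ z : ZMod 2, z + z = 0 := by decide
    exact this _
  · exfalso
    obtain ⟨φ, hφ, hle⟩ := Submodule.exists_le_ker_of_notMem hmem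
    let Z : Finset V := univ.filter fun v => φ (Pi.single v 1) = 1
    have key : ∀ g, φ (bd g) = (ci s t Z g : ZMod 2) := by
      intro g
      have e1 : bd g = Pi.single (s g) 1 + Pi.single (t g) 1 := by
        funext v
        simp only [bd, Pi.add_apply, Pi.single_apply]
        unfold ci
        rw [if_congr (cr_singleton s t hst v g) rfl rfl]
        by_cases h1 : s g = v
        · have h2 : t g ≠ v := fun h => hst g (h1.trans h.symm)
          rw [if_pos (Or.inl h1), if_pos h1.symm, if_neg (Ne.symm h2)]
          simp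
        · by_cases h2 : t g = v
          · rw [if_pos (Or.inr h2), if_neg (Ne.symm h1), if_pos h2.symm]
            simp
          · rw [if_neg (not_or.2 ⟨h1, h2⟩), if_neg (Ne.symm h1), if_neg (Ne.symm h2)]
            simp
      rw [e1, map_add]
      have hz : ∀ v, φ (Pi.single v 1) = if v ∈ Z then 1 else 0 := by
        intro v
        have : ∀ z : ZMod 2, z = 1 ∨ z = 0 := by decide
        simp only [Z, mem_filter, mem_univ, true_and]
        rcases this (φ (Pi.single v 1)) with h | h
        · rw [if_pos h, h]
        · rw [h, if_neg (by decide)]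
      rw [hz, hz]
      unfold ci cr
      by_cases h1 : s g ∈ Z <;> by_cases h2 : t g ∈ Z <;> simp [h1, h2]
      decide
    have hZD : ∀ g, cr s t Z g → g ∈ D := by
      intro g hg
      by_contra hgD
      have h1 : bd g ∈ Submodule.span (ZMod 2) (bd '' ((Dᶜ : Finset E) : Set E)) :=
        Submodule.subset_span ⟨g, by simpa using hgD, rfl⟩
      have h2 := hle h1
      rw [LinearMap.mem_ker, key, ci_eq_one.2 hg] at h2
      revert h2
      decide
    have h3 := hD Z hZD
    apply hφ
    rw [map_sum, Finset.sum_congr rfl fun g _ => key g, ← Nat.cast_sum]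
    rw [ZMod.natCast_eq_zero_iff_even]
    have h4 : cn s t univ Z = ∑ g ∈ D, ci s t Z g := by
      unfold cn
      symm
      refine Finset.sum_subset (subset_univ D) fun g _ hg => ?_
      exact ci_eq_zero.2 fun h => hg (hZD g h)
    rw [← h4]
    exact h3

lemma closed_of_not_cr (G : Multigraph V E) (A : Finset E) (X : Finset V)
    (h : ∀ g ∈ A, ¬ cr G.src G.tgt X g) {u v : V} (hr : (G.graph A).Reachable u v) :
    u ∈ X ↔ v ∈ X := by
  obtain ⟨w⟩ := hr
  induction w with
  | nil => rfl
  | cons hadj _ ih =>
    rw [← ih]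
    unfold Multigraph.graph at hadj
    rw [SimpleGraph.fromRel_adj] at hadj
    rcases hadj.2 with ⟨e, he, h1, h2⟩ | ⟨e, he, h1, h2⟩
    · have := h e he
      unfold cr at this
      rw [not_not, h1, h2] at this
      exact this
    · have := h e he
      unfold cr at this
      rw [not_not, h1, h2] at this
      exact this.symm

lemma oddcut_of_bridgeless [Fintype V] [Fintype E] (G : Multigraph V E) (hc : G.Cubic)
    (hb : G.Bridgeless) (X : Finset V) (hX : Odd X.card) : 3 ≤ cn G.src G.tgt univ X := by
  have h1 : Odd (cn G.src G.tgt univ X) := by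
    rw [odd_cn fun e _ => G.loopless e]
    · exact hX
    · intro v _
      rw [← deg_eq, hc v]
      decide
  by_contra h2
  have h3 : cn G.src G.tgt univ X = 1 := by
    obtain ⟨k, hk⟩ := h1
    omega
  rw [cn_eq_card, card_eq_one] at h3
  obtain ⟨e, he⟩ := h3
  have h4 := closed_of_not_cr G (univ.erase e) X (by
    intro g hg hgc
    have : g ∈ univ.filter (cr G.src G.tgt X) := mem_filter.2 ⟨mem_univ _, hgc⟩
    rw [he, mem_singleton] at this
    exact (mem_erase.1 hg).1 this) (hb e)
  have h5 : e ∈ univ.filter (cr G.src G.tgt X) := by rw [he]; simp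
  exact (mem_filter.1 h5).2 h4

lemma many_of_oddComp [Fintype V] [Fintype E] (m : ℕ) (G : Multigraph V E) (C : Finset E)
    (hC : G.oddComp C < m) :
    ¬ ∃ Z : Fin m → Finset V, (∀ i, Z i ⊆ univ ∧ Odd (Z i).card ∧
      ∀ g ∈ (univ : Finset E), cr G.src G.tgt (Z i) g → g ∈ univ \ C) ∧
      ∀ i j, i ≠ j → Disjoint (Z i) (Z j) := by
  rintro ⟨Z, hZ, hdj⟩
  have hclosed : ∀ i {u v : V}, (G.graph C).Reachable u v → (u ∈ Z i ↔ v ∈ Z i) := by
    intro i u v hr
    refine closed_of_not_cr G C (Z i) (fun g hg hgc => ?_) hr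
    exact (mem_sdiff.1 ((hZ i).2.2 g (mem_univ _) hgc)).2 hg
  have hex : ∀ i, ∃ c : (G.graph C).ConnectedComponent, Odd c.supp.ncard ∧
      c.supp ⊆ (Z i : Set V) ∧ c.supp.Nonempty := by
    intro i
    have h1 := Finset.card_eq_sum_card_fiberwise (s := Z i)
      (t := (univ : Finset (G.graph C).ConnectedComponent))
      (f := (G.graph C).connectedComponentMk) (fun _ _ => mem_univ _)
    have h2 := (hZ i).2.1
    rw [h1] at h2
    obtain ⟨c, -, hc⟩ : ∃ c ∈ (univ : Finset (G.graph C).ConnectedComponent),
        Odd {a ∈ Z i | (G.graph C).connectedComponentMk a = c}.card := by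
      by_contra hcon
      push Not at hcon
      refine (Nat.not_even_iff_odd.2 h2) (Finset.even_sum _ fun c hc => ?_)
      exact Nat.not_odd_iff_even.1 (hcon c hc)
    have hne : {a ∈ Z i | (G.graph C).connectedComponentMk a = c}.Nonempty := by
      rw [← card_pos]
      exact hc.pos
    obtain ⟨a, ha⟩ := hne
    rw [mem_filter] at ha
    have hsub : c.supp ⊆ (Z i : Set V) := by
      intro v hv
      rw [SimpleGraph.ConnectedComponent.mem_supp_iff] at hv
      have : (G.graph C).Reachable a v :=
        SimpleGraph.ConnectedComponent.exact (ha.2.trans hv.symm)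
      exact (hclosed i this).1 ha.1
    refine ⟨c, ?_, hsub, a, ha.2⟩
    have hs : c.supp = ({a ∈ Z i | (G.graph C).connectedComponentMk a = c} : Finset V) := by
      ext v
      rw [mem_coe, mem_filter, SimpleGraph.ConnectedComponent.mem_supp_iff]
      exact ⟨fun h => ⟨hsub h, h⟩, fun h => h.2⟩
    rw [hs, Set.ncard_coe_finset]
    exact hc
  choose c hc1 hc2 hc3 using hex
  have hinj : Function.Injective c := by
    intro i j hij
    by_contra hne
    obtain ⟨v, hv⟩ := hc3 i
    have h1 := hc2 i hv
    rw [hij] at hv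
    have h2 := hc2 j hv
    exact (Finset.disjoint_left.1 (hdj i j hne)) h1 h2
  have h5 : Set.range c ⊆ (G.graph C).oddComponents := by
    rintro _ ⟨i, rfl⟩
    exact hc1 i
  have h6 := Set.ncard_le_ncard h5 (Set.toFinite _)
  rw [← Set.image_univ, Set.ncard_image_of_injective _ hinj, Set.ncard_univ, Nat.card_fin] at h6
  unfold Multigraph.oddComp at hC
  omega

/-- The theorem for a cycle `C1` such that `(V, C1)` has less than `m` odd components, once the
main theorem is known for the number `m`. -/
theorem cover (m : ℕ)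
    (main : ∀ (s t : E → V) (vs : Finset V) (es F : Finset E), Hyp m s t vs es F →
      ∀ e ∈ es, Concl s t vs es F e)
    [Fintype V] [Fintype E] (G : Multigraph V E) (hc : G.Cubic) (hb : G.Bridgeless)
    (C1 : Finset E) (h1 : G.IsCycle C1) (hm : G.oddComp C1 < m) (e : E) :
    ∃ C2 C3 : Finset E, G.IsTwoFactor C2 ∧ e ∉ C2 ∧ G.IsCycle C3 ∧ C1 ∪ C2 ∪ C3 = univ := by
  have hyp : Hyp m G.src G.tgt (univ : Finset V) (univ : Finset E) (univ \ C1) :=
    { ends := fun e _ => ⟨mem_univ _, mem_univ _⟩
      noloop := fun e _ => G.loopless e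
      cubic := fun v _ => by rw [← deg_eq]; exact hc v
      oddcut := fun X _ hX => oddcut_of_bridgeless G hc hb X hX
      sub := subset_univ _
      join := by
        intro v _
        have e1 := cn_union (s := G.src) (t := G.tgt) (sdiff_disjoint : Disjoint (univ \ C1) C1) {v}
        rw [sdiff_union_of_subset (subset_univ C1), ← deg_eq, ← deg_eq G C1, hc v] at e1
        obtain ⟨k, hk⟩ := h1 v
        exact ⟨1 - k, by omega⟩
      many := many_of_oddComp m G C1 hm }
  obtain ⟨M, -, heM, hM, hgood⟩ := main G.src G.tgt univ univ (univ \ C1) hyp e (mem_univ e)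
  obtain ⟨C3, hsub, hC3⟩ := exists_cycle G.src G.tgt G.loopless (M ∩ (univ \ C1)) (by
    intro Z hZ
    rw [← Nat.not_odd_iff_even]
    intro ho
    have h2 : Odd Z.card := by
      rw [← odd_cn (fun e _ => G.loopless e) (A := univ)]
      · exact ho
      · intro v _
        rw [← deg_eq, hc v]
        decide
    obtain ⟨g, -, hg1, hg2⟩ := hgood Z (subset_univ _) h2
    exact hg2 ⟨(mem_inter.1 (hZ g hg1)).1, (mem_inter.1 (hZ g hg1)).2⟩)
  refine ⟨univ \ M, C3, ?_, ?_, ?_, ?_⟩
  · intro v
    have e1 := cn_union (s := G.src) (t := G.tgt) (sdiff_disjoint : Disjoint (univ \ M) M) {v}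
    rw [sdiff_union_of_subset (subset_univ M), ← deg_eq, ← deg_eq G (univ \ M), hc v,
      hM v (mem_univ v)] at e1
    omega
  · intro h
    exact (mem_sdiff.1 h).2 heM
  · intro v
    rw [deg_eq]
    exact hC3 v
  · ext g
    simp only [mem_union, mem_sdiff, mem_univ, true_and, iff_true]
    by_cases hg1 : g ∈ C1
    · exact Or.inl (Or.inl hg1)
    · by_cases hg2 : g ∈ M
      · exact Or.inr (hsub (mem_inter.2 ⟨hg2, mem_sdiff.2 ⟨mem_univ _, hg1⟩⟩))
      · exact Or.inl (Or.inr hg2)

end OddN
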