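import Pool.Agent.Lib.OddN.Circ

/-! The sets crossed by exactly one edge of `H` and the minimal ones among them: they are disjoint,
there are at least two, each meets the circuit, the crossing edge is in `F` and its end in the
minimal set is not on the circuit. -/

set_option autoImplicit false

namespace OddN

open Finset Classical

variable {V E : Type*} {m : ℕ} {s t : E → V} {vs : Finset V} {es F P : Finset E} {C X : Finset V}

lemma Fam.odd (h : Hyp m s t vs es F) (K : Circ s t vs es F P C) (hX : Fam s t vs es F P C X) :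
    Odd (X \ C).card := by
  rw [← K.odd_H h hX.1, hX.2]
  decide

/-- the number of edges of `H` crossing a set which is odd outside `C` is odd -/
lemma Circ.fam_of (h : Hyp m s t vs es F) (K : Circ s t vs es F P C) (hX : X ⊆ vs)
    (ho : Odd (X \ C).card) (hle : cn s t (eH s es F P C) X < 3) : Fam s t vs es F P C X := by
  obtain ⟨k, hk⟩ := (K.odd_H h hX).2 ho
  exact ⟨hX, by omega⟩

lemma Fam.compl (h : Hyp m s t vs es F) (hX : Fam s t vs es F P C X) :
    Fam s t vs es F P C (vs \ X) := by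
  refine ⟨sdiff_subset, ?_⟩
  rw [cn_compl fun e he => h.ends e (eH_sub he)]
  exact hX.2

lemma Fam.meets (h : Hyp m s t vs es F) (K : Circ s t vs es F P C)
    (hX : Fam s t vs es F P C X) : (X ∩ C).Nonempty := by
  rw [nonempty_iff_ne_empty]
  intro h0
  have h1 : X \ C = X := by
    rw [Finset.sdiff_eq_self_iff_disjoint, disjoint_iff_inter_eq_empty]
    exact h0
  have h2 := hX.odd h K
  rw [h1] at h2
  have h3 := h.oddcut X hX.1 h2
  have h4 : cn s t es X = cn s t (eH s es F P C) X := by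
    rw [cn_eq_card, cn_eq_card]
    congr 1
    ext g
    rw [mem_filter, mem_filter]
    constructor
    · rintro ⟨h5, h6⟩
      refine ⟨?_, h6⟩
      by_contra h7
      obtain ⟨-, -, h8, h9⟩ := K.notin h5 h7
      have h6 : ∀ v ∈ C, v ∉ X := fun v hv hv' => by
        have : v ∈ X ∩ C := mem_inter.2 ⟨hv', hv⟩
        rw [h0] at this
        exact absurd this (notMem_empty v)
      rename_i h10
      exact h10 ⟨fun h7 => absurd h7 (h6 _ h8), fun h7 => absurd h7 (h6 _ h9)⟩
    · rintro ⟨h5, h6⟩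
      exact ⟨eH_sub h5, h6⟩
  rw [h4, hX.2] at h3
  omega

lemma exists_leaf : ∀ {X : Finset V}, Fam s t vs es F P C X → ∃ L, L ⊆ X ∧
    Leaf s t vs es F P C L := by
  intro X
  induction' hn : X.card using Nat.strong_induction_on with n ih generalizing X
  intro hX
  by_cases h1 : ∃ Y, Y ⊆ X ∧ Fam s t vs es F P C Y ∧ Y ≠ X
  · obtain ⟨Y, hY, hY', hne⟩ := h1
    obtain ⟨L, hL, hL'⟩ := ih Y.card (hn ▸ card_lt_card (ssubset_of_subset_of_ne hY hne)) rfl hY'
    exact ⟨L, hL.trans hY, hL'⟩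
  · refine ⟨X, Subset.refl _, hX, fun S hS hS' => ?_⟩
    by_contra hc
    exact h1 ⟨S, hS, hS', hc⟩

/-- parity of the parts of two sets outside `C` -/
lemma card_inter_sdiff (X Z C : Finset V) :
    (X \ C).card = ((X ∩ Z) \ C).card + ((X \ Z) \ C).card := by
  rw [← card_union_of_disjoint]
  · congr 1
    ext v
    simp only [mem_sdiff, mem_union, mem_inter]
    tauto
  · rw [disjoint_left]
    intro v h1 h2
    simp only [mem_sdiff, mem_inter] at h1 h2
    exact h2.1.2 h1.1.2

lemma card_union_sdiff (X Z C : Finset V) :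
    ((X ∪ Z) \ C).card = (X \ C).card + ((Z \ X) \ C).card := by
  rw [← card_union_of_disjoint]
  · congr 1
    ext v
    simp only [mem_sdiff, mem_union]
    tauto
  · rw [disjoint_left]
    intro v h1 h2
    simp only [mem_sdiff] at h1 h2
    exact h2.1.2 h1.1

/-- uncrossing -/
lemma Fam.uncross (h : Hyp m s t vs es F) (K : Circ s t vs es F P C) {X Z : Finset V}
    (hX : Fam s t vs es F P C X) (hZ : Fam s t vs es F P C Z) :
    (Fam s t vs es F P C (X ∩ Z) ∧ Fam s t vs es F P C (X ∪ Z)) ∨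
      (Fam s t vs es F P C (X \ Z) ∧ Fam s t vs es F P C (Z \ X)) := by
  have s1 : X ∩ Z ⊆ vs := inter_subset_left.trans hX.1
  have s2 : X ∪ Z ⊆ vs := union_subset hX.1 hZ.1
  have s3 : X \ Z ⊆ vs := sdiff_subset.trans hX.1
  have s4 : Z \ X ⊆ vs := sdiff_subset.trans hZ.1
  have c1 := card_inter_sdiff X Z C
  have c2 := card_inter_sdiff Z X C
  rw [inter_comm] at c2
  have c3 := card_union_sdiff X Z C
  have o1 := hX.odd h K
  have o2 := hZ.odd h K
  rcases Nat.even_or_odd ((X ∩ Z) \ C).card with he | ho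
  · right
    have p1 : Odd ((X \ Z) \ C).card := by
      rw [c1, Nat.odd_add] at o1
      by_contra hc
      rw [Nat.not_odd_iff_even] at hc
      exact (Nat.not_odd_iff_even.2 he) (o1.2 hc)
    have p2 : Odd ((Z \ X) \ C).card := by
      rw [c2, Nat.odd_add] at o2
      by_contra hc
      rw [Nat.not_odd_iff_even] at hc
      exact (Nat.not_odd_iff_even.2 he) (o2.2 hc)
    have q1 := (K.odd_H h s3).2 p1
    have q2 := (K.odd_H h s4).2 p2
    have h5 := cn_posimod s t (eH s es F P C) X Z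
    rw [hX.2, hZ.2] at h5
    obtain ⟨a, ha⟩ := q1
    obtain ⟨b, hb⟩ := q2
    exact ⟨⟨s3, by omega⟩, ⟨s4, by omega⟩⟩
  · left
    have p1 : Odd ((X ∪ Z) \ C).card := by
      rw [c3]
      rw [c2] at o2
      rw [Nat.odd_add] at o2 ⊢
      exact ⟨fun _ => o2.1 ho, fun _ => o1⟩
    have q1 := (K.odd_H h s1).2 ho
    have q2 := (K.odd_H h s2).2 p1
    have h5 := cn_submod s t (eH s es F P C) X Z
    rw [hX.2, hZ.2] at h5
    obtain ⟨a, ha⟩ := q1
    obtain ⟨b, hb⟩ := q2
    exact ⟨⟨s1, by omega⟩, ⟨s2, by omega⟩⟩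

lemma Leaf.disj (h : Hyp m s t vs es F) (K : Circ s t vs es F P C) {L L' : Finset V}
    (hL : Leaf s t vs es F P C L) (hL' : Leaf s t vs es F P C L') (hne : L ≠ L') :
    Disjoint L L' := by
  rcases Fam.uncross h K hL.1 hL'.1 with ⟨h1, -⟩ | ⟨h1, -⟩
  · exfalso
    have e1 := hL.2 _ inter_subset_left h1
    have e2 := hL'.2 _ inter_subset_right h1
    exact hne (e1.symm.trans e2)
  · have e1 := hL.2 _ sdiff_subset h1
    rwa [Finset.sdiff_eq_self_iff_disjoint] at e1

/-- there are two minimal sets -/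
lemma two_leaves (h : Hyp m s t vs es F) (K : Circ s t vs es F P C)
    (hX : Fam s t vs es F P C X) :
    ∃ L L', L ⊆ X ∧ L' ⊆ vs \ X ∧ Leaf s t vs es F P C L ∧ Leaf s t vs es F P C L' ∧ L ≠ L' := by
  obtain ⟨L, hL, hL'⟩ := exists_leaf hX
  obtain ⟨L1, hK, hK'⟩ := exists_leaf (hX.compl h)
  refine ⟨L, L1, hL, hK, hL', hK', ?_⟩
  rintro rfl
  obtain ⟨v, hv⟩ := Fam.meets h K hL'.1
  rw [mem_inter] at hv
  exact (mem_sdiff.1 (hK hv.1)).2 (hL hv.1)

/-- the unique crossing edge of `H` -/
lemma Fam.unique (hX : Fam s t vs es F P C X) : ∃ f ∈ eH s es F P C, cr s t X f ∧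
    ∀ g ∈ eH s es F P C, cr s t X g → g = f := by
  have h1 := hX.2
  rw [cn_eq_card, card_eq_one] at h1
  obtain ⟨f, hf⟩ := h1
  have hm : f ∈ (eH s es F P C).filter (cr s t X) := by rw [hf]; exact mem_singleton_self f
  rw [mem_filter] at hm
  refine ⟨f, hm.1, hm.2, fun g hg hc => ?_⟩
  have : g ∈ (eH s es F P C).filter (cr s t X) := mem_filter.2 ⟨hg, hc⟩
  rw [hf, mem_singleton] at this
  exact this

/-- removing a vertex of `C` from a set crossed by one edge only, which is at this vertex -/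
lemma Fam.erase (h : Hyp m s t vs es F) (K : Circ s t vs es F P C)
    (hX : Fam s t vs es F P C X) {f : E}
    (hf : f ∈ eH s es F P C) (hc : cr s t X f) (hu : ∀ g ∈ eH s es F P C, cr s t X g → g = f)
    {u : V} (huX : u ∈ X) (huC : u ∈ C) (hfu : cr s t {u} f) :
    Fam s t vs es F P C (X.erase u) := by
  refine ⟨(erase_subset _ _).trans hX.1, ?_⟩
  have h2 := K.degH h huC
  rw [cn_eq_card] at h2
  have hm : f ∈ (eH s es F P C).filter (cr s t {u}) := mem_filter.2 ⟨hf, hfu⟩
  have h3 : (((eH s es F P C).filter (cr s t {u})).erase f).card = 1 := by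
    rw [card_erase_of_mem hm, h2]
  rw [card_eq_one] at h3
  obtain ⟨g, hg⟩ := h3
  have hgm : g ∈ ((eH s es F P C).filter (cr s t {u})).erase f := by
    rw [hg]; exact mem_singleton_self g
  rw [mem_erase, mem_filter] at hgm
  rw [cn_eq_card, card_eq_one]
  refine ⟨g, ?_⟩
  ext e
  rw [mem_filter, mem_singleton]
  -- crossing of `X.erase u`
  have key : ∀ e ∈ eH s es F P C, (cr s t (X.erase u) e ↔
      ((cr s t X e ∧ ¬ cr s t {u} e) ∨ (¬ cr s t X e ∧ cr s t {u} e))) := by
    intro e he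
    have hn := h.noloop e (eH_sub he)
    unfold cr
    simp only [mem_erase, mem_singleton]
    by_cases a1 : s e = u
    · have a2 : t e ≠ u := fun h' => hn (a1.trans h'.symm)
      simp only [a1, huX, a2]
      tauto
    · by_cases a2 : t e = u
      · simp only [a1, a2, huX]
        tauto
      · simp only [a1, a2]
        tauto
  constructor
  · rintro ⟨he, hce⟩
    rw [key e he] at hce
    rcases hce with ⟨h5, h6⟩ | ⟨h5, h6⟩
    · rw [hu e he h5] at h6
      exact absurd hfu h6
    · have : e ∈ ((eH s es F P C).filter (cr s t {u})).erase f := by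
        rw [mem_erase, mem_filter]
        refine ⟨?_, he, h6⟩
        rintro rfl
        exact h5 hc
      rw [hg, mem_singleton] at this
      exact this
  · rintro rfl
    refine ⟨hgm.2.1, ?_⟩
    rw [key e hgm.2.1]
    right
    exact ⟨fun h' => hgm.1 (hu e hgm.2.1 h'), hgm.2.2⟩

/-- the edge leaving a leaf is in `F`, its end in the leaf is not in `C`; the other edges leaving
the leaf are deleted edges of the circuit -/
theorem Leaf.edge (h : Hyp m s t vs es F) (K : Circ s t vs es F P C)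
    (hX : Leaf s t vs es F P C X) :
    ∃ f ∈ F, cr s t X f ∧ (s f ∈ X → s f ∉ C) ∧ (t f ∈ X → t f ∉ C) ∧
      (∀ g ∈ eH s es F P C, cr s t X g → g = f) ∧
      (∀ g ∈ es, cr s t X g → g = f ∨ (g ∉ F ∧ g ∉ P ∧ s g ∈ C ∧ t g ∈ C)) := by
  obtain ⟨f, hf, hc, hu⟩ := hX.1.unique
  have hfes := eH_sub hf
  have hn := h.noloop f hfes
  have hno : ∀ u, u ∈ X → u ∈ C → ¬ cr s t {u} f := by
    intro u h1 h2 h3
    have h4 := hX.2 _ (erase_subset u X) (Fam.erase h K hX.1 hf hc hu h1 h2 h3)
    rw [← h4] at h1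
    exact absurd h1 (notMem_erase u X)
  have hsX : s f ∈ X → s f ∉ C := by
    intro h1 h2
    refine hno _ h1 h2 ?_
    unfold cr
    simp only [mem_singleton, true_iff]
    exact fun h' => hn h'.symm
  have htX : t f ∈ X → t f ∉ C := by
    intro h1 h2
    refine hno _ h1 h2 ?_
    unfold cr
    simp only [mem_singleton, iff_true]
    exact hn
  have hfF : f ∈ F := by
    by_contra hF
    have hP : f ∉ P := by
      intro hP
      have h1 := K.Pends f hP
      unfold cr at hc
      by_cases h2 : s f ∈ X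
      · exact hsX h2 h1.1
      · by_cases h3 : t f ∈ X
        · exact htX h3 h1.2
        · exact hc ⟨fun h' => absurd h' h2, fun h' => absurd h' h3⟩
    have hsC : s f ∉ C := by
      rcases (mem_eH.1 hf).2 with h1 | h1 | h1
      · exact absurd h1 hF
      · exact absurd h1 hP
      · exact h1
    exact hF (K.no_D' h hX.1.1 hX.1.2.le f hfes hsC hc)
  refine ⟨f, hfF, hc, hsX, htX, hu, fun g hg hcg => ?_⟩
  by_cases hgH : g ∈ eH s es F P C
  · exact Or.inl (hu g hgH hcg)
  · exact Or.inr (K.notin hg hgH)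

/-- edges of `P` do not leave a leaf -/
lemma Leaf.P_not_cross (h : Hyp m s t vs es F) (K : Circ s t vs es F P C)
    (hX : Leaf s t vs es F P C X) : ∀ g ∈ P, ¬ cr s t X g := by
  obtain ⟨f, hf, -, -, -, -, hall⟩ := Leaf.edge h K hX
  intro g hg hc
  rcases hall g (K.Psub hg) hc with h1 | h1
  · rw [h1] at hg
    exact (disjoint_left.1 K.PF) hg hf
  · exact h1.2.1 hg

/-- edges outside `F` which leave a leaf are on the circuit -/
lemma Leaf.D_not_cross (h : Hyp m s t vs es F) (K : Circ s t vs es F P C)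
    (hX : Leaf s t vs es F P C X) : ∀ g ∈ es, g ∉ F → s g ∉ C → ¬ cr s t X g := by
  obtain ⟨f, hf, -, -, -, -, hall⟩ := Leaf.edge h K hX
  intro g hg hgF hgC hc
  rcases hall g hg hc with h1 | h1
  · exact hgF (h1 ▸ hf)
  · exact hgC h1.2.2.1

/-- the crossing edge of a leaf joins it to the rest; vertex form -/
lemma Leaf.edge' (h : Hyp m s t vs es F) (K : Circ s t vs es F P C)
    (hX : Leaf s t vs es F P C X) :
    ∃ f ∈ F, ∃ u ∈ X, ∃ w ∈ vs, u ∉ C ∧ w ∉ X ∧ Ends s t f u w ∧
      ∀ g ∈ eH s es F P C, cr s t X g → g = f := by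
  obtain ⟨f, hf, hc, hs, ht, hu, -⟩ := Leaf.edge h K hX
  have he := h.ends f (h.sub hf)
  unfold cr at hc
  by_cases h1 : s f ∈ X
  · have h2 : t f ∉ X := fun h' => hc ⟨fun _ => h', fun _ => h1⟩
    exact ⟨f, hf, s f, h1, t f, he.2, hs h1, h2, Or.inl ⟨rfl, rfl⟩, hu⟩
  · have h2 : t f ∈ X := by
      by_contra h'
      exact hc ⟨fun h3 => absurd h3 h1, fun h3 => absurd h3 h'⟩
    exact ⟨f, hf, t f, h2, s f, he.1, ht h2, h1, Or.inr ⟨rfl, rfl⟩, hu⟩

/-- a leaf does not contain the circuit -/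
lemma Leaf.not_sub (h : Hyp m s t vs es F) (K : Circ s t vs es F P C)
    (hX : Leaf s t vs es F P C X) : ¬ C ⊆ X := by
  intro hc
  obtain ⟨v, hv⟩ := Fam.meets h K (hX.1.compl h)
  rw [mem_inter, mem_sdiff] at hv
  exact hv.1.2 (hc hv.2)

/-! ### the statements in the form of the plan -/

/-- the crossing edge of a leaf is in `F`, its end in the leaf is not on the circuit, no edge of `P`
crosses a leaf -/
theorem leaf_edge (h : Hyp m s t vs es F) (K : Circ s t vs es F P C) {X : Finset V}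
    (hX : Leaf s t vs es F P C X) :
    ∃ f ∈ F, cr s t X f ∧ (∀ g ∈ es, cr s t X g → g ≠ f → g ∉ F ∧ g ∉ P ∧ s g ∈ C ∧ t g ∈ C) ∧
      (s f ∈ X → s f ∉ C) ∧ (t f ∈ X → t f ∉ C) := by
  obtain ⟨f, hf, hc, h1, h2, -, hall⟩ := Leaf.edge h K hX
  exact ⟨f, hf, hc, fun g hg hcg hne => (hall g hg hcg).resolve_left hne, h1, h2⟩

/-- different leaves are disjoint -/
theorem leaf_disj (h : Hyp m s t vs es F) (K : Circ s t vs es F P C) {X Y : Finset V}
    (hX : Leaf s t vs es F P C X) (hY : Leaf s t vs es F P C Y) (hne : X ≠ Y) : Disjoint X Y :=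
  Leaf.disj h K hX hY hne

/-- every member of the family meets the circuit, is odd outside it, and its complement is in the
family -/
theorem fam_meets (h : Hyp m s t vs es F) (K : Circ s t vs es F P C) {S : Finset V}
    (hS : Fam s t vs es F P C S) : (S ∩ C).Nonempty ∧ Odd (S \ C).card ∧
      Fam s t vs es F P C (vs \ S) :=
  ⟨Fam.meets h K hS, Fam.odd h K hS, Fam.compl h hS⟩

end OddN
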