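import Pool.Agent.Lib.OddN.Step
import Pool.Agent.Lib.OddN.ElimC
import Pool.Agent.Lib.OddN.Circ2
import Pool.Agent.Lib.OddN.Base8

/-! The induction. -/

set_option autoImplicit false

namespace OddN

open Finset Classical

variable {V E : Type*} {m : ℕ} {s t : E → V} {vs : Finset V} {es F : Finset E} {R : Tree V E}

/-- an even circuit not met by `e` -/
theorem even_circuit {m n : ℕ} (ih : ∀ k < n, ∀ (s t : E → V) (vs : Finset V) (es F : Finset E),
      vs.card = k → Hyp m s t vs es F → ∀ e ∈ es, Concl s t vs es F e)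
    (hn : vs.card = n) (h : Hyp m s t vs es F) {e : E} (he : e ∈ es) {v : V} (hv : v ∈ vs)
    (hev : Even (comp s t vs es F v).card) (hse : s e ∉ comp s t vs es F v)
    (hte : t e ∉ comp s t vs es F v) : Concl s t vs es F e := by
  obtain ⟨P, K⟩ := exists_circ h hv hev
  refine elimC h K ?_ he hse hte
  intro s t vs' es F hlt h' e he
  exact ih vs'.card (hn ▸ hlt) s t vs' es F rfl h' e he

/-- the stuck case -/
theorem stuck_case {n : ℕ} (ih : ∀ k < n, ∀ (s t : E → V) (vs : Finset V) (es F : Finset E),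
      vs.card = k → Hyp 9 s t vs es F → ∀ e ∈ es, Concl s t vs es F e)
    (hn : vs.card = n) (S : Stk 9 s t vs es F R) : Concl s t vs es F R.e := by
  by_cases hodd : ∀ v ∈ vs, v ∉ R.T → Odd (comp s t vs es F v).card
  · exact base8 S hodd
  · push Not at hodd
    obtain ⟨v, hv, hvT, hev⟩ := hodd
    have hdisj := S.comp_disj hv hvT
    have hee : s R.e ∈ R.T ∧ t R.e ∈ R.T :=
      S.E0.mem (by simp [Tree.T]) (by simp [Tree.T])
    refine even_circuit ih hn S.h S.m0 hv ?_ ?_ ?_
    · simpa using hev
    · exact fun h' => (disjoint_left.1 hdisj) h' hee.1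
    · exact fun h' => (disjoint_left.1 hdisj) h' hee.2

/-- **Main theorem** -/
theorem main (n : ℕ) : ∀ (s t : E → V) (vs : Finset V) (es F : Finset E), vs.card = n →
    Hyp 9 s t vs es F → ∀ e ∈ es, Concl s t vs es F e := by
  induction n using Nat.strong_induction_on with
  | _ n ih =>
    intro s t vs es F hn h e he
    by_cases hcut : ∀ X ⊆ vs, Odd X.card → 3 ≤ X.card → X.card + 3 ≤ vs.card → cn s t es X ≠ 3
    · rcases Nat.lt_or_ge vs.card 6 with hlt | h6
      · exact small h (by omega) he
      · by_cases hno : ∃ w w' x h0, w ∈ vs ∧ w' ∈ vs ∧ x ∈ vs ∧ w ≠ w' ∧ w ≠ x ∧ w' ≠ x ∧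
            Ends s t e w w' ∧ h0 ∈ es ∧ e ≠ h0 ∧ Ends s t h0 w x ∧
            ∃ g ∈ es, cr s t {x} g ∧ g ∉ F
        · obtain ⟨w, w', x, h0, a1, a2, a3, a4, a5, a6, a7, a8, a9, a10, a11⟩ := hno
          exact step ih hn h hcut h6 he a1 a2 a3 a4 a5 a6 a7 a8 a9 a10 a11
        · obtain ⟨R, hRe, -, S⟩ := stuck h hcut h6 he hno
          rw [← hRe]
          exact stuck_case ih hn S
    · -- a nontrivial cut with three edges
      have key : ∀ X ⊆ vs, Odd X.card → 3 ≤ X.card → X.card + 3 ≤ vs.card →
          cn s t es X = 3 → (s e ∈ X ∨ t e ∈ X) → Concl s t vs es F e := by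
        intro X hX ho h1 h2 h3 heX
        have hXne : X.Nonempty := card_pos.1 (by omega)
        have hX'c : (vs \ X).card = vs.card - X.card := card_sdiff_of_subset hX
        have hX'ne : (vs \ X).Nonempty := card_pos.1 (by omega)
        obtain ⟨z2, hz2⟩ := hXne
        obtain ⟨z, hz⟩ := hX'ne
        rw [mem_sdiff] at hz
        have hz2' : z2 ∉ vs \ X := fun h' => (mem_sdiff.1 h').2 hz2
        have ho' : Odd (vs \ X).card := by
          rw [hX'c]
          obtain ⟨k, hk⟩ := ho
          obtain ⟨l, hl⟩ := h.even_card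
          exact ⟨l - k - 1, by omega⟩
        have h3' : cn s t es (vs \ X) = 3 := by rw [cn_compl h.ends]; exact h3
        refine glue h hX ho h3 hz.1 hz.2 hz2 ?_ ?_
        · refine ih (insert z X).card ?_ _ _ _ _ _ rfl (hyp_con h hX ho h3 hz.1 hz.2) e ?_
          · rw [card_insert_of_notMem hz.2]; omega
          · exact mem_touch.2 ⟨he, heX⟩
        · intro g hg
          refine ih (insert z2 (vs \ X)).card ?_ _ _ _ _ _ rfl
            (hyp_con h sdiff_subset ho' h3' (hX hz2) hz2') g hg
          rw [card_insert_of_notMem hz2']; omega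
      push Not at hcut
      obtain ⟨X, hX, ho, h1, h2, h3⟩ := hcut
      by_cases heX : s e ∈ X ∨ t e ∈ X
      · exact key X hX ho h1 h2 h3 heX
      · rw [not_or] at heX
        have hX'c : (vs \ X).card = vs.card - X.card := card_sdiff_of_subset hX
        have ho' : Odd (vs \ X).card := by
          rw [hX'c]
          obtain ⟨k, hk⟩ := ho
          obtain ⟨l, hl⟩ := h.even_card
          exact ⟨l - k - 1, by omega⟩
        refine key (vs \ X) sdiff_subset ho' (by omega) (by omega) ?_ ?_
        · rw [cn_compl h.ends]; exact h3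
        · exact Or.inl (mem_sdiff.2 ⟨(h.ends e he).1, heX.1⟩)

end OddN
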