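import Pool.Agent.Lib.OddN.Glue
import Pool.Agent.Lib.OddN.Final

/-! Graphs all of whose pieces (cubic contractions along cuts with three edges, without
nontrivial cuts of three edges) are small. -/

set_option autoImplicit false

namespace OddN

open Finset Classical

variable {V E : Type*} {m : ℕ} {s t : E → V} {vs : Finset V} {es F : Finset E}

/-- `p` is a contraction of the graph to a cubic graph -/
def CubicCon (s t : E → V) (vs : Finset V) (es : Finset E) (p : V → V) : Prop :=
  ∀ v ∈ vs, cn s t es (vs.filter fun u => p u = p v) = 3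

/-- the contracted graph has no nontrivial cut of three edges -/
def NoThree (s t : E → V) (vs : Finset V) (es : Finset E) (p : V → V) : Prop :=
  ∀ Y : Finset V, cn s t es (vs.filter fun u => p u ∈ Y) = 3 →
    (vs.image p ∩ Y).card ≤ 1 ∨ (vs.image p \ Y).card ≤ 1

/-- every piece has at most `c` vertices -/
def SmallP (c : ℕ) (s t : E → V) (vs : Finset V) (es : Finset E) : Prop :=
  ∀ p : V → V, CubicCon s t vs es p → NoThree s t vs es p → (vs.image p).card ≤ c

/-- the graphs considered: `F` is a perfect matching having one edge in each cut of three edges -/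
structure Gr (s t : E → V) (vs : Finset V) (es F : Finset E) : Prop where
  ends : ∀ e ∈ es, s e ∈ vs ∧ t e ∈ vs
  noloop : ∀ e ∈ es, s e ≠ t e
  cubic : ∀ v ∈ vs, cn s t es {v} = 3
  oddcut : ∀ X ⊆ vs, Odd X.card → 3 ≤ cn s t es X
  sub : F ⊆ es
  pm : ∀ v ∈ vs, cn s t F {v} = 1
  meet : ∀ X ⊆ vs, cn s t es X = 3 → cn s t F X = 1

/-- pairwise disjoint nonempty sets -/
lemma card_disj {k : ℕ} {Z : Fin k → Finset V} (hs : ∀ i, Z i ⊆ vs)
    (hd : ∀ i j, i ≠ j → Disjoint (Z i) (Z j)) {r : ℕ} (hr : ∀ i, r ≤ (Z i).card) :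
    k * r ≤ (univ.biUnion Z).card := by
  rw [card_biUnion fun i _ j _ h => hd i j h]
  calc k * r = ∑ _i : Fin k, r := by simp
    _ ≤ _ := Finset.sum_le_sum fun i _ => hr i

lemma Gr.hyp_big (h : Gr s t vs es F) : Hyp (vs.card + 1) s t vs es F where
  ends := h.ends
  noloop := h.noloop
  cubic := h.cubic
  oddcut := h.oddcut
  sub := h.sub
  join := fun v hv => by rw [h.pm v hv]; decide
  many := by
    rintro ⟨Z, hZ, hd⟩
    have h1 := card_disj (fun i => (hZ i).1) hd (r := 1) (fun i => (hZ i).2.1.pos)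
    have h2 : (univ.biUnion Z).card ≤ vs.card :=
      card_le_card (biUnion_subset.2 fun i _ => (hZ i).1)
    omega

lemma Gr.even_card (h : Gr s t vs es F) : Even vs.card := h.hyp_big.even_card

/-- a closed odd set has at least five vertices -/
lemma Gr.five (h : Gr s t vs es F) {K : Finset V} (hK : K ⊆ vs) (ho : Odd K.card)
    (hc : ∀ g ∈ es, cr s t K g → g ∈ F) : 5 ≤ K.card := by
  have h1 : cn s t es K = cn s t F K := by
    unfold cn
    symm
    refine Finset.sum_subset h.sub fun e he hne => ?_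
    rw [ci_eq_zero]
    exact fun h' => hne (hc e he h')
  have h2 : Odd (cn s t es K) := (odd_cn h.noloop (fun v hv => by
    rw [h.cubic v (hK hv)]; decide)).2 ho
  have h3 := h.oddcut K hK ho
  have h4 : cn s t es K ≠ 3 := by
    intro h5
    have := h.meet K hK h5
    omega
  have h5 := sum_cn (s := s) (t := t) (A := F) (fun e he => h.noloop e (h.sub he)) K
  have h6 : ∑ v ∈ K, cn s t F {v} = K.card := by
    rw [Finset.sum_congr rfl fun v hv => h.pm v (hK hv)]
    simp
  obtain ⟨a, ha⟩ := h2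
  omega

lemma Gr.hyp (h : Gr s t vs es F) (hm : Odd m) (hn : vs.card < 5 * (m + 1)) :
    Hyp m s t vs es F where
  ends := h.ends
  noloop := h.noloop
  cubic := h.cubic
  oddcut := h.oddcut
  sub := h.sub
  join := fun v hv => by rw [h.pm v hv]; decide
  many := by
    rintro ⟨Z, hZ, hd⟩
    have h1 := card_disj (fun i => (hZ i).1) hd (r := 5)
      (fun i => h.five (hZ i).1 (hZ i).2.1 (hZ i).2.2)
    have hU : univ.biUnion Z ⊆ vs := biUnion_subset.2 fun i _ => (hZ i).1
    have ho : Odd (univ.biUnion Z).card := by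
      rw [card_biUnion fun i _ j _ h => hd i j h, Finset.odd_sum_iff_odd_card_odd]
      rw [Finset.filter_true_of_mem fun i _ => (hZ i).2.1]
      simpa using hm
    have h2 : (vs \ univ.biUnion Z).card + (univ.biUnion Z).card = vs.card :=
      card_sdiff_add_card_eq_card hU
    have h3 : Odd (vs \ univ.biUnion Z).card := by
      obtain ⟨a, ha⟩ := ho
      obtain ⟨b, hb⟩ := h.even_card
      have : (vs \ univ.biUnion Z).card = 2 * (b - a - 1) + 1 := by omega
      exact ⟨_, this⟩
    have h4 := h.five sdiff_subset h3 (by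
      intro g hg hgc
      rw [cr_compl (h.ends g hg).1 (h.ends g hg).2] at hgc
      unfold cr at hgc
      simp only [mem_biUnion, mem_univ, true_and] at hgc
      by_cases h5 : ∃ i, s g ∈ Z i
      · obtain ⟨i, hi⟩ := h5
        refine (hZ i).2.2 g hg ?_
        intro h6
        exact hgc ⟨fun _ => ⟨i, h6.1 hi⟩, fun _ => ⟨i, hi⟩⟩
      · by_cases h6 : ∃ i, t g ∈ Z i
        · obtain ⟨i, hi⟩ := h6
          refine (hZ i).2.2 g hg ?_
          intro h7
          exact h5 ⟨i, h7.2 hi⟩
        · exact absurd ⟨fun h' => absurd h' h5, fun h' => absurd h' h6⟩ hgc)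
    omega

lemma Gr.con (h : Gr s t vs es F) {X : Finset V} (hX : X ⊆ vs) (ho : Odd X.card)
    (h3 : cn s t es X = 3) {z : V} (hzv : z ∈ vs) (hz : z ∉ X) :
    Gr (con s X z) (OddN.con t X z) (insert z X) (touch s t es X) (touch s t F X) := by
  have H := hyp_con h.hyp_big hX ho h3 hzv hz
  have key : ∀ S ⊆ X, cn s t es S = 3 → cn (OddN.con s X z) (OddN.con t X z) (touch s t F X) S = 1 := by
    intro S hS h4
    rw [cn_con hz hS, cn_touch hS]
    exact h.meet S (hS.trans hX) h4
  refine ⟨H.ends, H.noloop, H.cubic, H.oddcut, H.sub, ?_, ?_⟩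
  · intro v hv
    rcases mem_insert.1 hv with rfl | hv
    · rw [cn_con_z hz, cn_touch (Finset.Subset.refl _)]
      exact h.meet X hX h3
    · rw [cn_con hz (singleton_subset_iff.2 hv), cn_touch (singleton_subset_iff.2 hv)]
      exact h.pm v (hX hv)
  · intro S hS hS3
    by_cases hzS : z ∈ S
    · have e1 : ∀ A : Finset E, cn (OddN.con s X z) (OddN.con t X z) A S =
          cn (OddN.con s X z) (OddN.con t X z) A (insert z X \ S) := fun A =>
        (cn_compl (fun e _ => ⟨con_mem_insert s X z e, con_mem_insert t X z e⟩) S).symm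
      have hsub : insert z X \ S ⊆ X := by
        intro v hv
        rw [mem_sdiff, mem_insert] at hv
        rcases hv.1 with rfl | h'
        · exact absurd hzS hv.2
        · exact h'
      rw [e1]
      refine key _ hsub ?_
      rw [e1, cn_con hz hsub, cn_touch hsub] at hS3
      exact hS3
    · have hsub : S ⊆ X := by
        intro v hv
        rcases mem_insert.1 (hS hv) with rfl | h'
        · exact absurd hv hzS
        · exact h'
      refine key _ hsub ?_
      rw [cn_con hz hsub, cn_touch hsub] at hS3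
      exact hS3

/-- the label map of a contracted graph, on the original vertices -/
noncomputable def lift (p : V → V) (X : Finset V) (z : V) : V → V :=
  fun u => if u ∈ X then p u else p z

lemma cn_lift (he : ∀ e ∈ es, s e ∈ vs ∧ t e ∈ vs) {X : Finset V} {z : V}
    (p : V → V) (Y : V → Prop) (A A' : Finset V) (hA : ∀ u ∈ vs, (u ∈ A ↔ Y (lift p X z u)))
    (hA' : ∀ u ∈ insert z X, (u ∈ A' ↔ Y (p u))) :
    cn s t es A = cn (con s X z) (con t X z) (touch s t es X) A' := by
  have h1 : ∀ (r : E → V) (e : E), r e ∈ vs → (r e ∈ A ↔ OddN.con r X z e ∈ A') := by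
    intro r e hr
    rw [hA _ hr, hA' _ (con_mem_insert r X z e)]
    unfold lift OddN.con
    by_cases h : r e ∈ X
    · rw [if_pos h, if_pos h]
    · rw [if_neg h, if_neg h]
  have h2 : ∀ e ∈ es, ci s t A e = ci (con s X z) (con t X z) A' e := by
    intro e hee
    unfold ci cr
    have h3 := h1 s e (he e hee).1
    have h4 := h1 t e (he e hee).2
    by_cases h5 : s e ∈ A <;> by_cases h6 : t e ∈ A
    · rw [if_neg (by tauto), if_neg (by tauto)]
    · rw [if_pos (by tauto), if_pos (by tauto)]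
    · rw [if_pos (by tauto), if_pos (by tauto)]
    · rw [if_neg (by tauto), if_neg (by tauto)]
  unfold cn
  rw [Finset.sum_congr rfl h2]
  symm
  refine Finset.sum_subset (filter_subset _ _) fun e hee hne => ?_
  rw [ci_eq_zero]
  unfold cr
  rw [not_not]
  have h3 : ¬ (s e ∈ X ∨ t e ∈ X) := fun h => hne (mem_touch.2 ⟨hee, h⟩)
  rw [not_or] at h3
  unfold OddN.con
  rw [if_neg h3.1, if_neg h3.2]

lemma image_lift {X : Finset V} (hX : X ⊆ vs) {z : V} (hzv : z ∈ vs) (hz : z ∉ X) (p : V → V) :
    vs.image (lift p X z) = (insert z X).image p := by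
  ext v
  rw [mem_image, mem_image]
  constructor
  · rintro ⟨u, hu, rfl⟩
    unfold lift
    by_cases h : u ∈ X
    · exact ⟨u, mem_insert_of_mem h, by rw [if_pos h]⟩
    · exact ⟨z, mem_insert_self _ _, by rw [if_neg h]⟩
  · rintro ⟨u, hu, rfl⟩
    rcases mem_insert.1 hu with rfl | h
    · exact ⟨u, hzv, by unfold lift; rw [if_neg hz]⟩
    · exact ⟨u, hX h, by unfold lift; rw [if_pos h]⟩

lemma CubicCon.lift (he : ∀ e ∈ es, s e ∈ vs ∧ t e ∈ vs) {X : Finset V} {z : V}
    {p : V → V} (h : CubicCon (con s X z) (con t X z) (insert z X) (touch s t es X) p) :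
    CubicCon s t vs es (lift p X z) := by
  intro v hv
  have h1 : ∃ w ∈ insert z X, OddN.lift p X z v = p w := by
    unfold OddN.lift
    by_cases h : v ∈ X
    · exact ⟨v, mem_insert_of_mem h, by rw [if_pos h]⟩
    · exact ⟨z, mem_insert_self _ _, by rw [if_neg h]⟩
  obtain ⟨w, hw, hvw⟩ := h1
  rw [hvw, ← h w hw]
  refine cn_lift he p (fun x => x = p w) _ _ (fun u hu => ?_) (fun u hu => ?_)
  · rw [mem_filter]
    exact ⟨fun h => h.2, fun h => ⟨hu, h⟩⟩
  · rw [mem_filter]
    exact ⟨fun h => h.2, fun h => ⟨hu, h⟩⟩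

lemma NoThree.lift (he : ∀ e ∈ es, s e ∈ vs ∧ t e ∈ vs) {X : Finset V} (hX : X ⊆ vs) {z : V}
    (hzv : z ∈ vs) (hz : z ∉ X)
    {p : V → V} (h : NoThree (con s X z) (con t X z) (insert z X) (touch s t es X) p) :
    NoThree s t vs es (lift p X z) := by
  intro Y hY
  rw [image_lift hX hzv hz]
  refine h Y ?_
  rw [← hY]
  symm
  refine cn_lift he p (fun x => x ∈ Y) _ _ (fun u hu => ?_) (fun u hu => ?_)
  · rw [mem_filter]
    exact ⟨fun h => h.2, fun h => ⟨hu, h⟩⟩
  · rw [mem_filter]
    exact ⟨fun h => h.2, fun h => ⟨hu, h⟩⟩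

lemma SmallP.con {c : ℕ} (he : ∀ e ∈ es, s e ∈ vs ∧ t e ∈ vs) (h : SmallP c s t vs es)
    {X : Finset V} (hX : X ⊆ vs) {z : V} (hzv : z ∈ vs) (hz : z ∉ X) :
    SmallP c (con s X z) (OddN.con t X z) (insert z X) (touch s t es X) := by
  intro p h1 h2
  rw [← image_lift hX hzv hz]
  exact h _ (h1.lift he) (h2.lift he hX hzv hz)

/-- a graph without a nontrivial cut of three edges is a piece of itself -/
lemma exists_cut (hcub : ∀ v ∈ vs, cn s t es {v} = 3)
    (hno : ¬ ∃ X ⊆ vs, cn s t es X = 3 ∧ 2 ≤ X.card ∧ 2 ≤ (vs \ X).card) :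
    CubicCon s t vs es id ∧ NoThree s t vs es id := by
  constructor
  · intro v hv
    have h1 : (vs.filter fun u => id u = id v) = {v} := by
      ext u
      rw [mem_filter, mem_singleton]
      exact ⟨fun h => h.2, fun h => by subst h; exact ⟨hv, rfl⟩⟩
    rw [h1]
    exact hcub v hv
  · intro Y hY
    rw [image_id]
    have h1 : (vs.filter fun u => id u ∈ Y) = vs ∩ Y := by
      ext u
      rw [mem_filter, mem_inter]
      rfl
    rw [h1] at hY
    by_contra hcon
    rw [not_or, not_le, not_le] at hcon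
    refine hno ⟨vs ∩ Y, inter_subset_left, hY, hcon.1, ?_⟩
    rw [sdiff_inter_self_left]
    exact hcon.2

/-- gluing along cuts of three edges: a property inherited by contractions which gives the
conclusion in absence of nontrivial cuts gives it always -/
theorem glue_all (Q : (E → V) → (E → V) → Finset V → Finset E → Finset E → Prop)
    (hyp : ∀ s t vs es F, Q s t vs es F → Hyp (vs.card + 1) s t vs es F)
    (hcon : ∀ s t vs es F, Q s t vs es F → ∀ X ⊆ vs, Odd X.card → cn s t es X = 3 →
      ∀ z ∈ vs, z ∉ X → Q (con s X z) (con t X z) (insert z X) (touch s t es X) (touch s t F X))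
    (hbase : ∀ s t vs es F, Q s t vs es F →
      (¬ ∃ X ⊆ vs, cn s t es X = 3 ∧ 2 ≤ X.card ∧ 2 ≤ (vs \ X).card) →
      ∀ e ∈ es, Concl s t vs es F e) :
    ∀ (n : ℕ) (s t : E → V) (vs : Finset V) (es F : Finset E), vs.card = n → Q s t vs es F →
      ∀ e ∈ es, Concl s t vs es F e := by
  intro n
  induction n using Nat.strong_induction_on with
  | _ n ih =>
  intro s t vs es F hn hQ e he
  have h := hyp s t vs es F hQ
  by_cases hno : ∃ X ⊆ vs, cn s t es X = 3 ∧ 2 ≤ X.card ∧ 2 ≤ (vs \ X).card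
  · have hodd : ∀ X ⊆ vs, cn s t es X = 3 → Odd X.card := by
      intro X hX h3
      rw [← odd_cn h.noloop (fun v hv => by rw [h.cubic v (hX hv)]; decide), h3]
      decide
    have hX' : ∃ X ⊆ vs, cn s t es X = 3 ∧ 2 ≤ X.card ∧ 2 ≤ (vs \ X).card ∧ s e ∈ X := by
      obtain ⟨X, hX, h3, h4, h5⟩ := hno
      by_cases hs : s e ∈ X
      · exact ⟨X, hX, h3, h4, h5, hs⟩
      · refine ⟨vs \ X, sdiff_subset, ?_, h5, ?_, mem_sdiff.2 ⟨(h.ends e he).1, hs⟩⟩
        · rw [cn_compl h.ends, h3]
        · rw [sdiff_sdiff_right_self]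
          rwa [inf_eq_inter, inter_eq_right.2 hX]
    obtain ⟨X, hX, h3, h4, h5, hs⟩ := hX'
    have ho := hodd X hX h3
    have hX2 : vs \ X ⊆ vs := sdiff_subset
    have h32 : cn s t es (vs \ X) = 3 := by rw [cn_compl h.ends, h3]
    have ho2 := hodd (vs \ X) hX2 h32
    obtain ⟨z, hz⟩ : (vs \ X).Nonempty := card_pos.1 (by omega)
    obtain ⟨z2, hz2⟩ : X.Nonempty := card_pos.1 (by omega)
    rw [mem_sdiff] at hz
    have hz2' : z2 ∉ vs \ X := fun h' => (mem_sdiff.1 h').2 hz2
    have hc : (vs \ X).card + X.card = vs.card := card_sdiff_add_card_eq_card hX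
    refine glue h hX ho h3 hz.1 hz.2 hz2 ?_ ?_
    · refine ih (insert z X).card ?_ _ _ _ _ _ rfl (hcon s t vs es F hQ X hX ho h3 z hz.1 hz.2) e
        (mem_touch.2 ⟨he, Or.inl hs⟩)
      rw [card_insert_of_notMem hz.2]
      omega
    · intro g hg
      refine ih (insert z2 (vs \ X)).card ?_ _ _ _ _ _ rfl
        (hcon s t vs es F hQ (vs \ X) hX2 ho2 h32 z2 (hX hz2) hz2') g hg
      rw [card_insert_of_notMem hz2']
      omega
  · exact hbase s t vs es F hQ hno e he

/-- the theorem for graphs with small pieces -/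
theorem small_pieces (hm : Odd m)
    (main : ∀ (s t : E → V) (vs : Finset V) (es F : Finset E), Hyp m s t vs es F →
      ∀ e ∈ es, Concl s t vs es F e)
    (h : Gr s t vs es F) (hs : SmallP (5 * m + 3) s t vs es) {e : E} (he : e ∈ es) :
    Concl s t vs es F e := by
  refine glue_all (fun s t vs es F => Gr s t vs es F ∧ SmallP (5 * m + 3) s t vs es)
    (fun s t vs es F h => h.1.hyp_big)
    (fun s t vs es F h X hX ho h3 z hz hzX => ⟨h.1.con hX ho h3 hz hzX, h.2.con h.1.ends hX hz hzX⟩)
    (fun s t vs es F h hno e he => ?_) vs.card s t vs es F rfl ⟨h, hs⟩ e he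
  obtain ⟨h1, h2⟩ := exists_cut h.1.cubic hno
  have h3 := h.2 id h1 h2
  rw [image_id] at h3
  exact main s t vs es F (h.1.hyp hm (by omega)) e he

end OddN
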