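import Pool.Agent.Results.MP_c95763_co.PiecesOddnessEight
import Pool.Agent.Lib.EdP.Cubic

/-! Two cases of the theorem `PiecesOddnessEight.result` on pieces of oddness at most eight:
cycles with at most eight odd components, and 2-factors meeting every cut of three edges in
graphs whose pieces have at most 48 vertices. -/

set_option autoImplicit false

namespace OddN

open Finset Pool.Agent.Results.MP_c95763_co.PiecesOddnessEight

section

variable {V E : Type*} [Fintype V] [Fintype E] [DecidableEq V]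

omit [Fintype V] in
lemma mem_cut (G : Multigraph V E) (Z : Finset V) (e : E) :
    e ∈ cut G Z ↔ cr G.src G.tgt Z e := by
  unfold cut cr
  simp

omit [Fintype V] in
lemma card_cut (G : Multigraph V E) (Z : Finset V) :
    (cut G Z).card = cn G.src G.tgt univ Z := by
  classical
  rw [cn_eq_card]
  congr 1
  ext e
  simp [mem_cut]

/-- a cycle with at most eight odd components: there are no nine odd sets at all -/
theorem not_nine_of_oddComp (G : Multigraph V E) (C1 : Finset E) (h : G.oddComp C1 ≤ 8)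
    (p : V → V) : ¬ NineOddSets G C1 p := by
  classical
  rintro ⟨Y, hd, hY⟩
  refine many_of_oddComp 9 G C1 (by omega) ⟨fun i => univ.filter fun u => p u ∈ Y i,
    fun i => ⟨subset_univ _, (hY i).1, fun g _ hg => ?_⟩, fun i j hij => ?_⟩
  · exact mem_sdiff.2 ⟨mem_univ g, (hY i).2 g ((mem_cut G _ g).2 hg)⟩
  · rw [Finset.disjoint_left]
    intro u hu hu'
    exact Finset.disjoint_left.1 (hd i j hij) (mem_filter.1 hu).2 (mem_filter.1 hu').2

/-- a 2-factor meeting every cut of three edges in a graph with small pieces -/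
theorem not_nine_of_small (G : Multigraph V E) (hcubic : G.Cubic) (hbridgeless : G.Bridgeless)
    (hpieces : ∀ p : V → V, CubicContraction G p → NoNontrivialThreeCut G p →
      (univ.image p).card ≤ 48)
    (C1 : Finset E) (hC1 : G.IsTwoFactor C1)
    (h3 : ∀ Z : Finset V, (cut G Z).card = 3 → ∃ e ∈ cut G Z, e ∈ C1)
    (p : V → V) (hp1 : CubicContraction G p) (hp2 : NoNontrivialThreeCut G p) :
    ¬ NineOddSets G C1 p := by
  rename_i dV
  obtain rfl : dV = fun a b => Classical.propDecidable (a = b) := Subsingleton.elim _ _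
  classical
  rintro ⟨Y, hd, hY⟩
  refine few_of_small (m := 9) (by decide) G hcubic hbridgeless ?_ C1 hC1 ?_ p ?_ ?_
    ⟨Y, fun i => ⟨(hY i).1, fun g _ hg => ?_⟩, hd⟩
  · intro p hp1 hp2
    refine hpieces p (fun v => ?_) (fun Y hY => ?_)
    · rw [card_cut]
      exact hp1 v (mem_univ v)
    · rw [card_cut] at hY
      exact hp2 Y hY
  · intro Z hZ
    obtain ⟨g, hg, hgC⟩ := h3 Z (by rw [card_cut]; exact hZ)
    exact ⟨g, hgC, (mem_cut G Z g).1 hg⟩
  · intro v _
    rw [← card_cut]
    exact hp1 v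
  · intro Z hZ
    refine hp2 Z ?_
    rw [card_cut]
    exact hZ
  · exact mem_sdiff.2 ⟨mem_univ g, (hY i).2 g ((mem_cut G _ g).2 hg)⟩

/-- some 2-factor meets every cut of three edges -/
theorem exists_meeting (G : Multigraph V E) (hcubic : G.Cubic) (hbridgeless : G.Bridgeless) :
    ∃ C1 : Finset E, G.IsTwoFactor C1 ∧
      ∀ Z : Finset V, (cut G Z).card = 3 → ∃ e ∈ cut G Z, e ∈ C1 := by
  rename_i dV
  obtain rfl : dV = fun a b => Classical.propDecidable (a = b) := Subsingleton.elim _ _
  classical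
  have hcub : ∀ v, OddFour.cn G.src G.tgt univ {v} = 3 := fun v => by
    have := deg_eq G univ v
    rw [hcubic v] at this
    exact this.symm
  have hcut : ∀ X : Finset V, Odd X.card → 3 ≤ OddFour.cn G.src G.tgt univ X :=
    fun X hX => oddcut_of_bridgeless G hcubic hbridgeless X hX
  obtain ⟨J, hJ, hJ3⟩ := EdP.exists_J G.loopless hcub hcut
  have hadd : ∀ Z : Finset V, cn G.src G.tgt univ Z =
      cn G.src G.tgt (univ \ J) Z + cn G.src G.tgt J Z := by
    intro Z
    have e1 := cn_union (s := G.src) (t := G.tgt) (sdiff_disjoint : Disjoint (univ \ J) J) Z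
    rwa [sdiff_union_of_subset (subset_univ J)] at e1
  refine ⟨univ \ J, fun v => ?_, fun Z hZ => ?_⟩
  · have e1 := hadd {v}
    rw [← deg_eq, ← deg_eq, hcubic v] at e1
    have e2 : cn G.src G.tgt J {v} = 1 := hJ v
    omega
  · rw [card_cut] at hZ
    have hodd : Odd Z.card := by
      rw [← odd_cn (s := G.src) (t := G.tgt) (A := univ) (fun e _ => G.loopless e)]
      · rw [hZ]; decide
      · intro v _
        rw [← deg_eq, hcubic v]
        decide
    have h1 : cn G.src G.tgt J Z = 1 := hJ3 Z hodd hZ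
    by_contra hcon
    push Not at hcon
    have h2 : cn G.src G.tgt (univ \ J) Z = 0 := by
      rw [cn_eq_zero]
      intro g hg hgc
      exact hcon g ((mem_cut G Z g).2 hgc) hg
    have e1 := hadd Z
    omega

end

/-- the case of a cycle with at most eight odd components -/
theorem oddness_eight {V E : Type*} [Fintype V] [Fintype E] [DecidableEq E] (G : Multigraph V E)
    (hcubic : G.Cubic) (hbridgeless : G.Bridgeless) (C1 : Finset E) (hC1 : G.IsCycle C1)
    (h8 : G.oddComp C1 ≤ 8) (e : E) :
    ∃ C2 C3 : Finset E, G.IsTwoFactor C2 ∧ e ∉ C2 ∧ G.IsCycle C3 ∧ C1 ∪ C2 ∪ C3 = univ := by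
  classical
  obtain ⟨C2, C3, h2, he, h3, hu⟩ := result G hcubic hbridgeless C1 hC1
    (fun p _ _ => not_nine_of_oddComp G C1 h8 p) e
  refine ⟨C2, C3, h2, he, h3, ?_⟩
  ext g
  have := Finset.ext_iff.1 hu g
  simp only [mem_union] at this ⊢
  exact this

/-- the case of graphs whose pieces have at most 48 vertices -/
theorem pieces_forty_eight {V E : Type*} [Fintype V] [Fintype E] [DecidableEq V] [DecidableEq E]
    (G : Multigraph V E) (hcubic : G.Cubic) (hbridgeless : G.Bridgeless)
    (hpieces : ∀ p : V → V, CubicContraction G p → NoNontrivialThreeCut G p →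
      (univ.image p).card ≤ 48) :
    (∃ C1 : Finset E, G.IsTwoFactor C1 ∧
      ∀ Z : Finset V, (cut G Z).card = 3 → ∃ e ∈ cut G Z, e ∈ C1) ∧
    ∀ C1 : Finset E, G.IsTwoFactor C1 →
      (∀ Z : Finset V, (cut G Z).card = 3 → ∃ e ∈ cut G Z, e ∈ C1) →
      ∀ e : E, ∃ C2 C3 : Finset E, G.IsTwoFactor C2 ∧ e ∉ C2 ∧ G.IsCycle C3 ∧
        C1 ∪ C2 ∪ C3 = univ := by
  refine ⟨exists_meeting G hcubic hbridgeless, fun C1 hC1 h3 e => ?_⟩
  have hcyc : G.IsCycle C1 := fun v => by
    rw [hC1 v]
    decide
  exact result G hcubic hbridgeless C1 hcyc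
    (fun p hp1 hp2 => not_nine_of_small G hcubic hbridgeless hpieces C1 hC1 h3 p hp1 hp2) e

end OddN
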