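import Pool.Agent.Lib.OddN.Pieces

/-! The theorem on small pieces for multigraphs on types. -/

set_option autoImplicit false

namespace OddN

open Finset Classical

variable {V E : Type*} [Fintype V] [Fintype E]

/-- from a good perfect matching to the 2-factor `C2` and the cycle `C3` -/
theorem cover_of_concl (G : Multigraph V E) (hc : G.Cubic) (C1 : Finset E) (e : E)
    (h : Concl G.src G.tgt univ univ (univ \ C1) e) :
    ∃ C2 C3 : Finset E, G.IsTwoFactor C2 ∧ e ∉ C2 ∧ G.IsCycle C3 ∧ C1 ∪ C2 ∪ C3 = univ := by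
  obtain ⟨M, -, heM, hM, hgood⟩ := h
  obtain ⟨C3, hsub, hC3⟩ := exists_cycle G.src G.tgt G.loopless (M ∩ (univ \ C1)) (by
    intro Z hZ
    rw [← Nat.not_odd_iff_even]
    intro ho
    have h2 : Odd Z.card := by
      rw [← odd_cn (fun e _ => G.loopless e) (A := univ)]
      · exact ho
      · intro v _
        rw [← deg_eq, hc v]
        decide
    obtain ⟨g, -, hg1, hg2⟩ := hgood Z (subset_univ _) h2
    exact hg2 ⟨(mem_inter.1 (hZ g hg1)).1, (mem_inter.1 (hZ g hg1)).2⟩)
  refine ⟨univ \ M, C3, ?_, ?_, ?_, ?_⟩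
  · intro v
    have e1 := cn_union (s := G.src) (t := G.tgt) (sdiff_disjoint : Disjoint (univ \ M) M) {v}
    rw [sdiff_union_of_subset (subset_univ M), ← deg_eq, ← deg_eq G (univ \ M), hc v,
      hM v (mem_univ v)] at e1
    omega
  · intro h
    exact (mem_sdiff.1 h).2 heM
  · intro v
    rw [deg_eq]
    exact hC3 v
  · ext g
    simp only [mem_union, mem_sdiff, mem_univ, true_and, iff_true]
    by_cases hg1 : g ∈ C1
    · exact Or.inl (Or.inl hg1)
    · by_cases hg2 : g ∈ M
      · exact Or.inr (hsub (mem_inter.2 ⟨hg2, mem_sdiff.2 ⟨mem_univ _, hg1⟩⟩))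
      · exact Or.inl (Or.inr hg2)

/-- a 2-factor meeting all cuts of three edges, in a graph with small pieces -/
theorem cover_pieces {m : ℕ} (hm : Odd m)
    (main : ∀ (s t : E → V) (vs : Finset V) (es F : Finset E), Hyp m s t vs es F →
      ∀ e ∈ es, Concl s t vs es F e)
    (G : Multigraph V E) (hc : G.Cubic) (hb : G.Bridgeless)
    (hs : SmallP (5 * m + 3) G.src G.tgt univ univ)
    (C1 : Finset E) (h1 : G.IsTwoFactor C1)
    (h3 : ∀ Z : Finset V, cn G.src G.tgt univ Z = 3 → ∃ g ∈ C1, cr G.src G.tgt Z g) (e : E) :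
    ∃ C2 C3 : Finset E, G.IsTwoFactor C2 ∧ e ∉ C2 ∧ G.IsCycle C3 ∧ C1 ∪ C2 ∪ C3 = univ := by
  have hadd : ∀ Z : Finset V, cn G.src G.tgt univ Z =
      cn G.src G.tgt (univ \ C1) Z + cn G.src G.tgt C1 Z := by
    intro Z
    have e1 := cn_union (s := G.src) (t := G.tgt) (sdiff_disjoint : Disjoint (univ \ C1) C1) Z
    rwa [sdiff_union_of_subset (subset_univ C1)] at e1
  have hcub : ∀ v, cn G.src G.tgt univ {v} = 3 := fun v => by rw [← deg_eq]; exact hc v
  have hpm : ∀ v, cn G.src G.tgt (univ \ C1) {v} = 1 := by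
    intro v
    have e1 := hadd {v}
    rw [hcub v, ← deg_eq G C1, h1 v] at e1
    omega
  refine cover_of_concl G hc C1 e (small_pieces hm main
    { ends := fun e _ => ⟨mem_univ _, mem_univ _⟩
      noloop := fun e _ => G.loopless e
      cubic := fun v _ => hcub v
      oddcut := fun X _ hX => oddcut_of_bridgeless G hc hb X hX
      sub := subset_univ _
      pm := fun v _ => hpm v
      meet := ?_ } hs (mem_univ e))
  intro X _ hX3
  have ho : Odd (cn G.src G.tgt (univ \ C1) X) := by
    rw [odd_cn fun e _ => G.loopless e]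
    · rw [← odd_cn (s := G.src) (t := G.tgt) (A := univ) fun e _ => G.loopless e, hX3]
      · decide
      · intro v _
        rw [hcub v]
        decide
    · intro v _
      rw [hpm v]
      decide
  obtain ⟨g, hg, hgc⟩ := h3 X hX3
  have h2 : cn G.src G.tgt C1 X ≠ 0 := by
    intro h
    exact (cn_eq_zero.1 h) g hg hgc
  have e1 := hadd X
  rw [hX3] at e1
  obtain ⟨a, ha⟩ := ho
  omega

end OddN
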