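import Pool.Agent.Lib.OddN.Pieces

/-! Graphs with a cycle having few odd components in every piece (piece: cubic contraction
along cuts with three edges, without nontrivial cuts of three edges). -/

set_option autoImplicit false

namespace OddN

open Finset Classical

variable {V E : Type*} {m : ℕ} {s t : E → V} {vs : Finset V} {es F : Finset E}

/-- in no piece there are `m` disjoint odd sets left by edges of `F` only -/
def FewP (m : ℕ) (s t : E → V) (vs : Finset V) (es F : Finset E) : Prop :=
  ∀ p : V → V, CubicCon s t vs es p → NoThree s t vs es p →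
    ¬ ∃ Y : Fin m → Finset V, (∀ i, Odd (vs.filter fun u => p u ∈ Y i).card ∧
      ∀ g ∈ es, cr s t (vs.filter fun u => p u ∈ Y i) g → g ∈ F) ∧
      ∀ i j, i ≠ j → Disjoint (Y i) (Y j)

lemma Hyp.big (h : Hyp m s t vs es F) : Hyp (vs.card + 1) s t vs es F where
  ends := h.ends
  noloop := h.noloop
  cubic := h.cubic
  oddcut := h.oddcut
  sub := h.sub
  join := h.join
  many := by
    rintro ⟨Z, hZ, hd⟩
    have h1 := card_disj (fun i => (hZ i).1) hd (r := 1) (fun i => (hZ i).2.1.pos)
    have h2 : (univ.biUnion Z).card ≤ vs.card :=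
      card_le_card (biUnion_subset.2 fun i _ => (hZ i).1)
    omega

lemma FewP.con (h : Hyp (vs.card + 1) s t vs es F) (hf : FewP m s t vs es F)
    {X : Finset V} (hX : X ⊆ vs) (ho : Odd X.card) (h3 : cn s t es X = 3)
    {z : V} (hzv : z ∈ vs) (hz : z ∉ X) :
    FewP m (con s X z) (OddN.con t X z) (insert z X) (touch s t es X) (touch s t F X) := by
  have H := hyp_con h hX ho h3 hzv hz
  rintro p h1 h2 ⟨Y, hY, hd⟩
  refine hf _ (h1.lift h.ends) (h2.lift h.ends hX hzv hz) ⟨Y, fun i => ?_, hd⟩
  have key : ∀ A ⊆ es, cn s t A (vs.filter fun u => lift p X z u ∈ Y i) =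
      cn (OddN.con s X z) (OddN.con t X z) (touch s t A X)
        ((insert z X).filter fun u => p u ∈ Y i) := by
    intro A hA
    refine cn_lift (fun e he => h.ends e (hA he)) p (fun x => x ∈ Y i) _ _ (fun u hu => ?_)
      (fun u hu => ?_)
    · rw [mem_filter]
      exact ⟨fun h => h.2, fun h => ⟨hu, h⟩⟩
    · rw [mem_filter]
      exact ⟨fun h => h.2, fun h => ⟨hu, h⟩⟩
  constructor
  · rw [← odd_cn (s := s) (t := t) (A := es) h.noloop (fun v hv => by
      rw [h.cubic v (mem_filter.1 hv).1]; decide), key es (Finset.Subset.refl _)]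
    rw [odd_cn H.noloop (fun v hv => by rw [H.cubic v (mem_filter.1 hv).1]; decide)]
    exact (hY i).1
  · intro g hg hgc
    by_contra hgF
    have h4 := key {g} (singleton_subset_iff.2 hg)
    have h5 : cn s t {g} (vs.filter fun u => lift p X z u ∈ Y i) ≠ 0 := by
      intro h6
      exact (cn_eq_zero.1 h6) g (mem_singleton_self g) hgc
    rw [h4] at h5
    apply h5
    rw [cn_eq_zero]
    intro g' hg' hgc'
    rw [mem_touch, mem_singleton] at hg'
    obtain ⟨rfl, hg'⟩ := hg'
    have h6 := (hY i).2 g' (mem_touch.2 ⟨hg, hg'⟩) hgc'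
    exact hgF (mem_touch.1 h6).1

/-- the theorem for graphs with few odd components in every piece -/
theorem few_pieces
    (main : ∀ (s t : E → V) (vs : Finset V) (es F : Finset E), Hyp m s t vs es F →
      ∀ e ∈ es, Concl s t vs es F e)
    (h : Hyp (vs.card + 1) s t vs es F) (hs : FewP m s t vs es F) {e : E} (he : e ∈ es) :
    Concl s t vs es F e := by
  refine glue_all (fun s t vs es F => Hyp (vs.card + 1) s t vs es F ∧ FewP m s t vs es F)
    (fun s t vs es F h => h.1)
    (fun s t vs es F h X hX ho h3 z hz hzX =>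
      ⟨(hyp_con h.1 hX ho h3 hz hzX).big, h.2.con h.1 hX ho h3 hz hzX⟩)
    (fun s t vs es F h hno e he => ?_) vs.card s t vs es F rfl ⟨h, hs⟩ e he
  obtain ⟨h1, h2⟩ := exists_cut h.1.cubic hno
  refine main s t vs es F { h.1 with many := ?_ } e he
  rintro ⟨Z, hZ, hd⟩
  refine h.2 id h1 h2 ⟨Z, fun i => ?_, hd⟩
  have h3 : (vs.filter fun u => id u ∈ Z i) = Z i := by
    ext u
    rw [mem_filter]
    exact ⟨fun h => h.2, fun h => ⟨(hZ i).1 h, h⟩⟩
  rw [h3]
  exact (hZ i).2

/-- nine disjoint odd closed sets of a piece have five vertices of the piece each -/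
lemma Gr.few (h : Gr s t vs es F) (hm : Odd m) (hs : SmallP (5 * m + 3) s t vs es) :
    FewP m s t vs es F := by
  rintro p h1 h2 ⟨Y, hY, hd⟩
  have h3 := hs p h1 h2
  have hb := h.hyp_big
  -- a set of classes which is odd and closed contains at least five classes
  have five : ∀ A : Finset V, Odd (vs.filter fun u => p u ∈ A).card →
      (∀ g ∈ es, cr s t (vs.filter fun u => p u ∈ A) g → g ∈ F) → 5 ≤ (vs.image p ∩ A).card := by
    intro A ho hc
    set K := vs.filter fun u => p u ∈ A with hK
    have hKs : K ⊆ vs := filter_subset _ _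
    have e1 : cn s t es K = cn s t F K := by
      unfold cn
      symm
      refine Finset.sum_subset h.sub fun e he hne => ?_
      rw [ci_eq_zero]
      exact fun h' => hne (hc e he h')
    have e2 : Odd (cn s t es K) := (odd_cn h.noloop (fun v hv => by
      rw [h.cubic v (hKs hv)]; decide)).2 ho
    have e3 := h.oddcut K hKs ho
    have e4 : cn s t es K ≠ 3 := by
      intro h5
      have := h.meet K hKs h5
      omega
    -- each class has one edge of `F` leaving it
    have e5 : ∀ v ∈ vs, cn s t F (vs.filter fun u => p u = p v) = 1 := fun v hv =>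
      h.meet _ (filter_subset _ _) (h1 v hv)
    have e6 : ∀ g ∈ F, ci s t K g ≤
        ∑ y ∈ vs.image p ∩ A, ci s t (vs.filter fun u => p u = y) g := by
      intro g hg
      have hends := h.ends g (h.sub hg)
      by_cases hcr : cr s t K g
      · rw [ci_eq_one.2 hcr]
        have h6 : ∃ y ∈ vs.image p ∩ A, cr s t (vs.filter fun u => p u = y) g := by
          unfold cr at hcr
          by_cases h7 : s g ∈ K
          · have h8 : t g ∉ K := fun h8 => hcr ⟨fun _ => h8, fun _ => h7⟩
            have h9 := (mem_filter.1 h7).2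
            refine ⟨p (s g), mem_inter.2 ⟨mem_image_of_mem p hends.1, h9⟩, ?_⟩
            unfold cr
            intro h10
            have h11 := h10.1 (mem_filter.2 ⟨hends.1, rfl⟩)
            rw [mem_filter] at h11
            refine h8 (mem_filter.2 ⟨hends.2, ?_⟩)
            rw [h11.2]
            exact h9
          · have h8 : t g ∈ K := by
              by_contra h8
              exact hcr ⟨fun h => absurd h h7, fun h => absurd h h8⟩
            have h9 := (mem_filter.1 h8).2
            refine ⟨p (t g), mem_inter.2 ⟨mem_image_of_mem p hends.2, h9⟩, ?_⟩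
            unfold cr
            intro h10
            have h11 := h10.2 (mem_filter.2 ⟨hends.2, rfl⟩)
            rw [mem_filter] at h11
            refine h7 (mem_filter.2 ⟨hends.1, ?_⟩)
            rw [h11.2]
            exact h9
        obtain ⟨y, hy, hyc⟩ := h6
        calc 1 = ci s t (vs.filter fun u => p u = y) g := (ci_eq_one.2 hyc).symm
          _ ≤ _ := Finset.single_le_sum
            (f := fun y => ci s t (vs.filter fun u => p u = y) g) (fun _ _ => Nat.zero_le _) hy
      · rw [ci_eq_zero.2 hcr]
        exact Nat.zero_le _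
    have e7 : cn s t F K ≤ (vs.image p ∩ A).card := by
      calc cn s t F K = ∑ g ∈ F, ci s t K g := rfl
        _ ≤ ∑ g ∈ F, ∑ y ∈ vs.image p ∩ A, ci s t (vs.filter fun u => p u = y) g :=
          Finset.sum_le_sum e6
        _ = ∑ y ∈ vs.image p ∩ A, cn s t F (vs.filter fun u => p u = y) := by
          rw [Finset.sum_comm]
          rfl
        _ = ∑ _y ∈ vs.image p ∩ A, 1 := by
          refine Finset.sum_congr rfl fun y hy => ?_
          obtain ⟨v, hv, rfl⟩ := mem_image.1 (mem_inter.1 hy).1
          exact e5 v hv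
        _ = _ := by simp
    obtain ⟨a, ha⟩ := e2
    omega
  -- the union of the nine sets and its complement
  set U := univ.biUnion Y with hU
  have hUf : (vs.filter fun u => p u ∈ U) = univ.biUnion fun i => vs.filter fun u => p u ∈ Y i := by
    ext u
    simp only [hU, mem_filter, mem_biUnion, mem_univ, true_and]
    constructor
    · rintro ⟨h4, i, h5⟩
      exact ⟨i, h4, h5⟩
    · rintro ⟨i, h4, h5⟩
      exact ⟨h4, i, h5⟩
  have hdf : ∀ i j, i ≠ j → Disjoint (vs.filter fun u => p u ∈ Y i)
      (vs.filter fun u => p u ∈ Y j) := by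
    intro i j hij
    rw [Finset.disjoint_left]
    intro u hu hu'
    exact Finset.disjoint_left.1 (hd i j hij) (mem_filter.1 hu).2 (mem_filter.1 hu').2
  have ho : Odd (vs.filter fun u => p u ∈ U).card := by
    rw [hUf, card_biUnion fun i _ j _ h => hdf i j h, Finset.odd_sum_iff_odd_card_odd]
    rw [Finset.filter_true_of_mem fun i _ => (hY i).1]
    simpa using hm
  -- the complement, as a set of values
  set W := vs.image p \ U with hW
  have hWf : (vs.filter fun u => p u ∈ W) = vs \ (vs.filter fun u => p u ∈ U) := by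
    ext u
    simp only [hW, mem_filter, mem_sdiff, mem_image]
    constructor
    · rintro ⟨h4, -, h5⟩
      exact ⟨h4, fun h6 => h5 h6.2⟩
    · rintro ⟨h4, h5⟩
      exact ⟨h4, ⟨u, h4, rfl⟩, fun h6 => h5 ⟨h4, h6⟩⟩
  have hWo : Odd (vs.filter fun u => p u ∈ W).card := by
    have h4 : (vs \ (vs.filter fun u => p u ∈ U)).card + (vs.filter fun u => p u ∈ U).card =
        vs.card := card_sdiff_add_card_eq_card (filter_subset _ _)
    rw [hWf]
    obtain ⟨a, ha⟩ := ho
    obtain ⟨b, hb⟩ := h.even_card
    exact ⟨b - a - 1, by omega⟩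
  have hWc : ∀ g ∈ es, cr s t (vs.filter fun u => p u ∈ W) g → g ∈ F := by
    intro g hg hgc
    rw [hWf, cr_compl (h.ends g hg).1 (h.ends g hg).2, hUf] at hgc
    unfold cr at hgc
    simp only [mem_biUnion, mem_univ, true_and] at hgc
    by_cases h5 : ∃ i, s g ∈ vs.filter fun u => p u ∈ Y i
    · obtain ⟨i, hi⟩ := h5
      refine (hY i).2 g hg ?_
      intro h6
      exact hgc ⟨fun _ => ⟨i, h6.1 hi⟩, fun _ => ⟨i, hi⟩⟩
    · by_cases h6 : ∃ i, t g ∈ vs.filter fun u => p u ∈ Y i
      · obtain ⟨i, hi⟩ := h6
        refine (hY i).2 g hg ?_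
        intro h7
        exact h5 ⟨i, h7.2 hi⟩
      · exact absurd ⟨fun h' => absurd h' h5, fun h' => absurd h' h6⟩ hgc
  have h5 := five W hWo hWc
  have h6 : ∀ i, 5 ≤ (vs.image p ∩ Y i).card := fun i => five (Y i) (hY i).1 (hY i).2
  have h7 : m * 5 ≤ (univ.biUnion fun i => vs.image p ∩ Y i).card :=
    card_disj (vs := vs.image p) (fun i => inter_subset_left)
      (fun i j hij => (hd i j hij).mono inter_subset_right inter_subset_right) h6
  have h8 : (univ.biUnion fun i => vs.image p ∩ Y i).card + (vs.image p ∩ W).card ≤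
      (vs.image p).card := by
    rw [← card_union_of_disjoint]
    · refine card_le_card (union_subset (biUnion_subset.2 fun i _ => inter_subset_left)
        inter_subset_left)
    · rw [Finset.disjoint_left]
      intro v hv hv'
      simp only [mem_biUnion, mem_univ, true_and, mem_inter] at hv
      obtain ⟨i, -, hi⟩ := hv
      have h9 := (mem_inter.1 hv').2
      rw [hW, mem_sdiff] at h9
      exact h9.2 (mem_biUnion.2 ⟨i, mem_univ i, hi⟩)
  omega

end OddN
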