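import Pool.Agent.Lib.OddN.PiecesFinal
import Pool.Agent.Lib.OddN.PiecesOdd

/-! The theorem on pieces with few odd components, for multigraphs on types. -/

set_option autoImplicit false

namespace OddN

open Finset Classical

variable {V E : Type*} [Fintype V] [Fintype E]

/-- a cycle `C1` with few odd components in every piece -/
theorem cover_few {m : ℕ}
    (main : ∀ (s t : E → V) (vs : Finset V) (es F : Finset E), Hyp m s t vs es F →
      ∀ e ∈ es, Concl s t vs es F e)
    (G : Multigraph V E) (hc : G.Cubic) (hb : G.Bridgeless)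
    (C1 : Finset E) (h1 : G.IsCycle C1)
    (hs : FewP m G.src G.tgt univ univ (univ \ C1)) (e : E) :
    ∃ C2 C3 : Finset E, G.IsTwoFactor C2 ∧ e ∉ C2 ∧ G.IsCycle C3 ∧ C1 ∪ C2 ∪ C3 = univ := by
  refine cover_of_concl G hc C1 e (few_pieces main
    { ends := fun e _ => ⟨mem_univ _, mem_univ _⟩
      noloop := fun e _ => G.loopless e
      cubic := fun v _ => by rw [← deg_eq]; exact hc v
      oddcut := fun X _ hX => oddcut_of_bridgeless G hc hb X hX
      sub := subset_univ _
      join := ?_
      many := ?_ } hs (mem_univ e))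
  · intro v _
    have e1 := cn_union (s := G.src) (t := G.tgt) (sdiff_disjoint : Disjoint (univ \ C1) C1) {v}
    rw [sdiff_union_of_subset (subset_univ C1), ← deg_eq, ← deg_eq G C1, hc v] at e1
    obtain ⟨k, hk⟩ := h1 v
    exact ⟨1 - k, by omega⟩
  · rintro ⟨Z, hZ, hd⟩
    have h1 := card_disj (vs := (univ : Finset V)) (fun i => (hZ i).1) hd (r := 1)
      (fun i => (hZ i).2.1.pos)
    have h2 : (univ.biUnion Z).card ≤ (univ : Finset V).card := card_le_card (subset_univ _)
    omega

/-- few odd components give few odd components in every piece -/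
theorem few_of_oddComp (m : ℕ) (G : Multigraph V E) (C : Finset E) (hC : G.oddComp C < m) :
    FewP m G.src G.tgt univ univ (univ \ C) := by
  rintro p - - ⟨Y, hY, hd⟩
  refine many_of_oddComp m G C hC ⟨fun i => univ.filter fun u => p u ∈ Y i,
    fun i => ⟨subset_univ _, (hY i).1, (hY i).2⟩, fun i j hij => ?_⟩
  rw [Finset.disjoint_left]
  intro u hu hu'
  exact Finset.disjoint_left.1 (hd i j hij) (mem_filter.1 hu).2 (mem_filter.1 hu').2

/-- a 2-factor meeting all cuts of three edges, in a graph with small pieces -/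
theorem few_of_small {m : ℕ} (hm : Odd m) (G : Multigraph V E) (hc : G.Cubic)
    (hb : G.Bridgeless) (hs : SmallP (5 * m + 3) G.src G.tgt univ univ)
    (C1 : Finset E) (h1 : G.IsTwoFactor C1)
    (h3 : ∀ Z : Finset V, cn G.src G.tgt univ Z = 3 → ∃ g ∈ C1, cr G.src G.tgt Z g) :
    FewP m G.src G.tgt univ univ (univ \ C1) := by
  have hadd : ∀ Z : Finset V, cn G.src G.tgt univ Z =
      cn G.src G.tgt (univ \ C1) Z + cn G.src G.tgt C1 Z := by
    intro Z
    have e1 := cn_union (s := G.src) (t := G.tgt) (sdiff_disjoint : Disjoint (univ \ C1) C1) Z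
    rwa [sdiff_union_of_subset (subset_univ C1)] at e1
  have hcub : ∀ v, cn G.src G.tgt univ {v} = 3 := fun v => by rw [← deg_eq]; exact hc v
  have hpm : ∀ v, cn G.src G.tgt (univ \ C1) {v} = 1 := by
    intro v
    have e1 := hadd {v}
    rw [hcub v, ← deg_eq G C1, h1 v] at e1
    omega
  refine Gr.few
    { ends := fun e _ => ⟨mem_univ _, mem_univ _⟩
      noloop := fun e _ => G.loopless e
      cubic := fun v _ => hcub v
      oddcut := fun X _ hX => oddcut_of_bridgeless G hc hb X hX
      sub := subset_univ _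
      pm := fun v _ => hpm v
      meet := ?_ } hm hs
  intro X _ hX3
  have ho : Odd (cn G.src G.tgt (univ \ C1) X) := by
    rw [odd_cn fun e _ => G.loopless e]
    · rw [← odd_cn (s := G.src) (t := G.tgt) (A := univ) fun e _ => G.loopless e, hX3]
      · decide
      · intro v _
        rw [hcub v]
        decide
    · intro v _
      rw [hpm v]
      decide
  obtain ⟨g, hg, hgc⟩ := h3 X hX3
  have h2 : cn G.src G.tgt C1 X ≠ 0 := by
    intro h
    exact (cn_eq_zero.1 h) g hg hgc
  have e1 := hadd X
  rw [hX3] at e1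
  obtain ⟨a, ha⟩ := ho
  omega

end OddN
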