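import Pool.Agent.Lib.OddN.Stk

/-! Segments of a circuit of the complement of `F`, and the walk which finds a leaf `X` and a
segment of the circuit outside `X` which meets all other leaves. -/

set_option autoImplicit false

namespace OddN

open Finset Classical

variable {V E : Type*}

/-- `F` together with the edges which do not stay in `A` -/
noncomputable def segF (s t : E → V) (es F : Finset E) (A : Finset V) : Finset E :=
  F ∪ es.filter fun g => ¬ (s g ∈ A ∧ t g ∈ A)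

/-- the segment of `c` inside `A` -/
noncomputable def seg (s t : E → V) (vs : Finset V) (es F : Finset E) (A : Finset V) (c : V) :
    Finset V :=
  comp s t vs es (segF s t es F A) c

variable {s t : E → V} {vs : Finset V} {es F : Finset E} {A : Finset V} {c : V}

lemma mem_segF {g : E} : g ∈ segF s t es F A ↔ g ∈ F ∨ (g ∈ es ∧ ¬ (s g ∈ A ∧ t g ∈ A)) := by
  unfold segF
  rw [mem_union, mem_filter]

lemma comp_subset {Z : Finset V} (hZ : Cl s t vs es F Z) {v : V} (hv : v ∈ Z) :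
    comp s t vs es F v ⊆ Z := fun _ hu => (mem_filter.1 hu).2 Z hZ hv

/-- the circuit of `v` contains no smaller nonempty closed set -/
lemma comp_min (ends : ∀ e ∈ es, s e ∈ vs ∧ t e ∈ vs) {v : V} (hv : v ∈ vs) {X : Finset V}
    (hX : X ⊆ comp s t vs es F v) (hne : X.Nonempty) (hcl : ∀ g ∈ es, cr s t X g → g ∈ F) :
    X = comp s t vs es F v := by
  rcases comp_or ends hv (X := X) ⟨hX.trans (comp_sub v), hcl⟩ with h1 | h1
  · exact Finset.Subset.antisymm hX h1
  · obtain ⟨x, hx⟩ := hne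
    exact absurd hx (disjoint_left.1 h1 (hX hx))

lemma seg_sub_of_closed {C : Finset V} (hC : C ⊆ vs) (hCcl : ∀ g ∈ es, cr s t C g → g ∈ F)
    (hc : c ∈ C) : seg s t vs es F A c ⊆ C :=
  comp_subset ⟨hC, fun g hg h => mem_segF.2 (Or.inl (hCcl g hg h))⟩ hc

lemma seg_sub_comp (ends : ∀ e ∈ es, s e ∈ vs ∧ t e ∈ vs) (hc : c ∈ vs) :
    seg s t vs es F A c ⊆ comp s t vs es F c := by
  refine comp_subset ⟨comp_sub c, fun g hg h => ?_⟩ (mem_comp_self hc)
  exact mem_segF.2 (Or.inl ((comp_closed ends c).2 g hg h))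

lemma seg_sub (hA : A ⊆ vs) (hc : c ∈ A) :
    seg s t vs es F A c ⊆ A := by
  refine comp_subset ⟨hA, fun g hg h => mem_segF.2 (Or.inr ⟨hg, fun h' => h ?_⟩)⟩ hc
  exact ⟨fun _ => h'.2, fun _ => h'.1⟩

lemma seg_self (hc : c ∈ vs) : c ∈ seg s t vs es F A c := mem_comp_self hc

/-- an edge outside `F` which leaves the segment leaves `A` -/
lemma seg_cross (ends : ∀ e ∈ es, s e ∈ vs ∧ t e ∈ vs) (hA : A ⊆ vs) (hc : c ∈ A) {g : E}
    (hg : g ∈ es) (hF : g ∉ F) (h : cr s t (seg s t vs es F A c) g) : cr s t A g := by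
  have h1 := (comp_closed (F := segF s t es F A) ends c).2 g hg h
  rw [mem_segF] at h1
  have h2 : ¬ (s g ∈ A ∧ t g ∈ A) := (h1.resolve_left hF).2
  have h3 := seg_sub (s := s) (t := t) (es := es) (F := F) hA hc
  intro h4
  apply h
  constructor
  · intro h5
    exact absurd ⟨h3 h5, h4.1 (h3 h5)⟩ h2
  · intro h5
    exact absurd ⟨h4.2 (h3 h5), h3 h5⟩ h2

/-- the segment is the smallest set closed in this sense -/
lemma seg_min {Z : Finset V} (hZ : Z ⊆ vs) (hc : c ∈ Z)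
    (h : ∀ g ∈ es, g ∉ F → s g ∈ A → t g ∈ A → ¬ cr s t Z g) : seg s t vs es F A c ⊆ Z := by
  refine comp_subset ⟨hZ, fun g hg hcr => ?_⟩ hc
  rw [mem_segF]
  by_contra hn
  rw [not_or, not_and, not_not] at hn
  have := hn.2 hg
  exact h g hg hn.1 this.1 this.2 hcr

lemma cn_insert_le {Q : Finset E} {Z : Finset V} {u : V} (hu : u ∉ Z)
    (h2 : cn s t Q {u} ≤ 2) {g : E} (hg : g ∈ Q) (hgu : cr s t {u} g) (hgZ : cr s t Z g) :
    cn s t Q (insert u Z) ≤ cn s t Q Z := by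
  have h1 : cn s t Q (insert u Z) + 2 ≤ cn s t Q Z + cn s t Q {u} := by
    unfold cn
    rw [← Finset.sum_erase_add _ _ hg, ← Finset.sum_erase_add (a := g) _ _ hg,
      ← Finset.sum_erase_add (a := g) Q _ hg]
    have e1 : ci s t (insert u Z) g = 0 := by
      rw [ci_eq_zero]
      intro h
      unfold cr at hgu hgZ h
      simp only [mem_singleton, mem_insert] at hgu hgZ h
      have : s g ∈ Z → s g ≠ u := fun h1 h2 => hu (h2 ▸ h1)
      have : t g ∈ Z → t g ≠ u := fun h1 h2 => hu (h2 ▸ h1)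
      tauto
    have e2 : ci s t Z g = 1 := ci_eq_one.2 hgZ
    have e3 : ci s t {u} g = 1 := ci_eq_one.2 hgu
    have e4 : ∑ x ∈ Q.erase g, ci s t (insert u Z) x ≤
        ∑ x ∈ Q.erase g, ci s t Z x + ∑ x ∈ Q.erase g, ci s t {u} x := by
      rw [← Finset.sum_add_distrib]
      refine Finset.sum_le_sum fun x _ => ?_
      unfold ci cr
      simp only [mem_singleton, mem_insert]
      by_cases a1 : s x = u <;> by_cases a2 : t x = u <;> by_cases a3 : s x ∈ Z <;>
        by_cases a4 : t x ∈ Z <;> simp [a1, a2, a3, a4]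
    omega
  omega

/-- a segment is left by exactly two edges outside `F` -/
lemma seg_two (ends : ∀ e ∈ es, s e ∈ vs ∧ t e ∈ vs) (noloop : ∀ e ∈ es, s e ≠ t e)
    (hA : A ⊆ vs) {C : Finset V} (hC : C ⊆ vs) (hCcl : ∀ g ∈ es, cr s t C g → g ∈ F)
    (hCmin : ∀ X ⊆ C, X.Nonempty → (∀ g ∈ es, cr s t X g → g ∈ F) → X = C)
    (deg : ∀ u ∈ C, cn s t (es \ F) {u} = 2) (hc : c ∈ A) (hcC : c ∈ C) (hne : ¬ C ⊆ A) :
    cn s t (es \ F) (seg s t vs es F A c) = 2 := by
  set σ := seg s t vs es F A c with hσ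
  have hcvs : c ∈ vs := hA hc
  have hσC : σ ⊆ C := seg_sub_of_closed hC hCcl hcC
  have hσA : σ ⊆ A := seg_sub hA hc
  have hσvs : σ ⊆ vs := fun u hu => hA (hσA hu)
  -- at most two
  have hle : cn s t (es \ F) σ ≤ 2 := by
    have hex : ∃ Z ∈ σ.powerset.filter fun Z => c ∈ Z ∧ cn s t (es \ F) Z ≤ 2,
        ∀ Z' ∈ σ.powerset.filter fun Z => c ∈ Z ∧ cn s t (es \ F) Z ≤ 2, Z'.card ≤ Z.card := by
      apply Finset.exists_max_image
      refine ⟨{c}, ?_⟩
      rw [mem_filter, mem_powerset, singleton_subset_iff]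
      exact ⟨seg_self hcvs, mem_singleton_self c, (deg c hcC).le⟩
    obtain ⟨Z, hZ, hmax⟩ := hex
    rw [mem_filter, mem_powerset] at hZ
    obtain ⟨hZσ, hcZ, hZ2⟩ := hZ
    have hsub : σ ⊆ Z := by
      refine seg_min (hZσ.trans hσvs) hcZ fun g hg hF hsA htA hcr => ?_
      -- the other end
      have hσcr : ¬ cr s t σ g := by
        intro h'
        exact seg_cross ends hA hc hg hF h' ⟨fun _ => htA, fun _ => hsA⟩
      unfold cr at hσcr hcr
      rw [not_not] at hσcr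
      have hgm : g ∈ es \ F := mem_sdiff.2 ⟨hg, hF⟩
      have key : ∀ u, u ∈ σ → u ∉ Z → cr s t {u} g → False := by
        intro u huσ huZ hgu
        have h2 := cn_insert_le huZ (deg u (hσC huσ)).le hgm hgu hcr
        have h3 := hmax (insert u Z) (by
          rw [mem_filter, mem_powerset]
          exact ⟨insert_subset huσ hZσ, mem_insert_of_mem hcZ, h2.trans hZ2⟩)
        rw [card_insert_of_notMem huZ] at h3
        omega
      by_cases hs : s g ∈ Z
      · have ht : t g ∉ Z := fun h' => hcr ⟨fun _ => h', fun _ => hs⟩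
        refine key (t g) (hσcr.1 (hZσ hs)) ht ?_
        unfold cr
        simp only [mem_singleton, iff_true]
        exact noloop g hg
      · have ht : t g ∈ Z := by
          by_contra h'
          exact hcr ⟨fun h => absurd h hs, fun h => absurd h h'⟩
        refine key (s g) (hσcr.2 (hZσ ht)) hs ?_
        unfold cr
        simp only [mem_singleton, true_iff]
        exact (noloop g hg).symm
    have : σ = Z := Finset.Subset.antisymm hsub hZσ
    rw [this]
    exact hZ2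
  -- even
  have hev : Even (cn s t (es \ F) σ) := by
    have h1 := sum_cn (A := es \ F) (s := s) (t := t) (fun e he => noloop e (mem_sdiff.1 he).1) σ
    have h2 : ∑ u ∈ σ, cn s t (es \ F) {u} = 2 * σ.card := by
      rw [Finset.sum_congr rfl fun u hu => deg u (hσC hu), Finset.sum_const, smul_eq_mul, mul_comm]
    rw [h2] at h1
    exact ⟨σ.card - inn s t (es \ F) σ, by omega⟩
  -- not zero
  have hnz : cn s t (es \ F) σ ≠ 0 := by
    intro h0
    rw [cn_eq_zero] at h0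
    have hcl : ∀ g ∈ es, cr s t σ g → g ∈ F := by
      intro g hg hcr
      by_contra hF
      exact h0 g (mem_sdiff.2 ⟨hg, hF⟩) hcr
    exact hne ((hCmin σ hσC ⟨c, seg_self hcvs⟩ hcl) ▸ hσA)
  obtain ⟨k, hk⟩ := hev
  omega

/-- an edge of `P` does not cross the segment if it does not cross `A` -/
lemma seg_P (ends : ∀ e ∈ es, s e ∈ vs ∧ t e ∈ vs) (hA : A ⊆ vs) (hc : c ∈ A) {P : Finset E}
    (hP : P ⊆ es) (hPF : Disjoint P F) (hPA : ∀ g ∈ P, ¬ cr s t A g) :
    ∀ g ∈ P, ¬ cr s t (seg s t vs es F A c) g := fun g hg h =>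
  hPA g hg (seg_cross ends hA hc (hP hg) (disjoint_left.1 hPF hg) h)

/-- the number of vertices of a segment is even -/
lemma seg_even (ends : ∀ e ∈ es, s e ∈ vs ∧ t e ∈ vs) (noloop : ∀ e ∈ es, s e ≠ t e)
    (hA : A ⊆ vs) (hc : c ∈ A) {P : Finset E}
    (hP : P ⊆ es) (hPF : Disjoint P F) (hPA : ∀ g ∈ P, ¬ cr s t A g)
    (hP1 : ∀ u ∈ seg s t vs es F A c, cn s t P {u} = 1) : Even (seg s t vs es F A c).card := by
  have h0 : cn s t P (seg s t vs es F A c) = 0 := by
    rw [cn_eq_zero]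
    exact seg_P ends hA hc hP hPF hPA
  by_contra hodd
  rw [Nat.not_even_iff_odd] at hodd
  have h1 := (odd_cn (s := s) (t := t) (A := P) (fun e he => noloop e (hP he))
    (X := seg s t vs es F A c) (fun u hu => by rw [hP1 u hu]; decide)).2 hodd
  rw [h0] at h1
  exact absurd h1 (by decide)

/-- the walk: there are a leaf `X`, different from `L0`, and a segment of the circuit outside `X`
which meets all other leaves -/
theorem walk (ends : ∀ e ∈ es, s e ∈ vs ∧ t e ∈ vs) (noloop : ∀ e ∈ es, s e ≠ t e)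
    {C : Finset V} (hC : C ⊆ vs) (hCcl : ∀ g ∈ es, cr s t C g → g ∈ F)
    (hCmin : ∀ X ⊆ C, X.Nonempty → (∀ g ∈ es, cr s t X g → g ∈ F) → X = C)
    (deg : ∀ u ∈ C, cn s t (es \ F) {u} = 2)
    {Lf : Finset V → Prop} (hsub : ∀ L, Lf L → L ⊆ vs)
    (hdis : ∀ L L', Lf L → Lf L' → L ≠ L' → Disjoint L L')
    (hmeet : ∀ L, Lf L → (L ∩ C).Nonempty)
    {L0 L1 : Finset V} (hL0 : Lf L0) (hL1 : Lf L1) (hne : L1 ≠ L0) :
    ∃ X, Lf X ∧ X ≠ L0 ∧ ∃ σ ⊆ C \ X, σ.Nonempty ∧ cn s t (es \ F) σ = 2 ∧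
      (∀ g ∈ es, g ∉ F → cr s t σ g → cr s t X g) ∧
      ∀ L, Lf L → L ≠ X → (L ∩ σ).Nonempty := by
  obtain ⟨c, hc'⟩ := hmeet L0 hL0
  obtain ⟨hc0, hcC⟩ := mem_inter.1 hc'
  have hcvs : c ∈ vs := hsub L0 hL0 hc0
  have hcX : ∀ X, Lf X → X ≠ L0 → c ∈ vs \ X := fun X hX h =>
    mem_sdiff.2 ⟨hcvs, fun h' => disjoint_left.1 (hdis X L0 hX hL0 h) h' hc0⟩
  have hex : ∃ X ∈ vs.powerset.filter fun X => Lf X ∧ X ≠ L0,
      ∀ X' ∈ vs.powerset.filter fun X => Lf X ∧ X ≠ L0,
        (seg s t vs es F (vs \ X') c).card ≤ (seg s t vs es F (vs \ X) c).card := by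
    apply Finset.exists_max_image
    exact ⟨L1, mem_filter.2 ⟨mem_powerset.2 (hsub L1 hL1), hL1, hne⟩⟩
  obtain ⟨X, hX, hmax⟩ := hex
  rw [mem_filter, mem_powerset] at hX
  obtain ⟨hXvs, hXL, hX0⟩ := hX
  obtain ⟨x0, hx0'⟩ := hmeet X hXL
  obtain ⟨hx0, hx0C⟩ := mem_inter.1 hx0'
  have h2 := seg_two ends noloop (A := vs \ X) sdiff_subset hC hCcl hCmin deg (hcX X hXL hX0) hcC
    (fun h' => (mem_sdiff.1 (h' hx0C)).2 hx0)
  refine ⟨X, hXL, hX0, seg s t vs es F (vs \ X) c, fun u hu => mem_sdiff.2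
    ⟨seg_sub_of_closed hC hCcl hcC hu, (mem_sdiff.1 (seg_sub sdiff_subset
      (hcX X hXL hX0) hu)).2⟩, ⟨c, seg_self hcvs⟩, h2, fun g hg hF hcr => ?_, fun L hL hLX => ?_⟩
  · have := seg_cross ends sdiff_subset (hcX X hXL hX0) hg hF hcr
    rwa [cr_compl (ends g hg).1 (ends g hg).2] at this
  by_contra hno'
  have hno : ∀ u ∈ L, u ∉ seg s t vs es F (vs \ X) c := fun u hu hu' =>
    hno' ⟨u, mem_inter.2 ⟨hu, hu'⟩⟩
  set σ := seg s t vs es F (vs \ X) c with hσ
  have hcσ : c ∈ σ := seg_self hcvs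
  have hL0' : L ≠ L0 := fun h' => hno c (h' ▸ hc0) hcσ
  set σ' := seg s t vs es F (vs \ L) c with hσ'
  have hcσ' : c ∈ σ' := seg_self hcvs
  have hσA : σ ⊆ vs \ X := seg_sub sdiff_subset (hcX X hXL hX0)
  have hσvs : σ ⊆ vs := hσA.trans sdiff_subset
  -- an edge outside `F` with both ends outside `L` does not cross `σ'`
  have hin : ∀ g ∈ es, g ∉ F → s g ∉ L → t g ∉ L → ¬ cr s t σ' g := by
    intro g hg hF h1 h2 h3
    have := seg_cross ends sdiff_subset (hcX L hL hL0') hg hF h3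
    apply this
    simp only [mem_sdiff, (ends g hg).1, (ends g hg).2, h1, h2]
  have h1 : σ ⊆ σ' := by
    have h2 : σ ⊆ σ ∩ σ' := by
      refine seg_min (fun u hu => hσvs (mem_inter.1 hu).1) (mem_inter.2 ⟨hcσ, hcσ'⟩) ?_
      intro g hg hF hsX htX hcr
      have h3 : ¬ cr s t σ g := fun h' =>
        seg_cross ends sdiff_subset (hcX X hXL hX0) hg hF h' ⟨fun _ => htX, fun _ => hsX⟩
      unfold cr at h3 hcr
      rw [not_not] at h3
      simp only [mem_inter] at hcr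
      by_cases h4 : s g ∈ σ
      · have h5 := h3.1 h4
        have h6 := hin g hg hF (fun h' => hno _ h' h4) (fun h' => hno _ h' h5)
        unfold cr at h6
        rw [not_not] at h6
        apply hcr
        rw [h6]
        exact ⟨fun h' => ⟨h5, h'.2⟩, fun h' => ⟨h4, h'.2⟩⟩
      · have h5 : t g ∉ σ := fun h' => h4 (h3.2 h')
        exact hcr ⟨fun h' => absurd h'.1 h4, fun h' => absurd h'.1 h5⟩
    exact fun u hu => (mem_inter.1 (h2 hu)).2
  have h3 : ∃ g ∈ es \ F, cr s t σ g := by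
    by_contra hn
    push Not at hn
    have := cn_eq_zero.2 hn
    omega
  obtain ⟨g, hg, hgc⟩ := h3
  rw [mem_sdiff] at hg
  have h4 := seg_cross ends sdiff_subset (hcX X hXL hX0) hg.1 hg.2 hgc
  have h5 : ∃ x ∈ X, x ∈ σ' := by
    have hXd : ∀ x ∈ X, x ∉ L := fun x hx hxL =>
      disjoint_left.1 (hdis X L hXL hL hLX.symm) hx hxL
    by_cases hs : s g ∈ σ
    · have ht : t g ∉ σ := fun h' => hgc ⟨fun _ => h', fun _ => hs⟩
      have hsX := mem_sdiff.1 (hσA hs)
      have htX : t g ∈ X := by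
        by_contra h'
        apply h4
        simp only [mem_sdiff, hsX, (ends g hg.1).2, h', not_false_eq_true, and_self]
      have h6 := hin g hg.1 hg.2 (fun h' => hno _ h' hs) (hXd _ htX)
      unfold cr at h6
      rw [not_not] at h6
      exact ⟨t g, htX, h6.1 (h1 hs)⟩
    · have ht : t g ∈ σ := by
        by_contra h'
        exact hgc ⟨fun h => absurd h hs, fun h => absurd h h'⟩
      have htX := mem_sdiff.1 (hσA ht)
      have hsX : s g ∈ X := by
        by_contra h'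
        apply h4
        simp only [mem_sdiff, htX, (ends g hg.1).1, h', not_false_eq_true, and_self]
      have h6 := hin g hg.1 hg.2 (hXd _ hsX) (fun h' => hno _ h' ht)
      unfold cr at h6
      rw [not_not] at h6
      exact ⟨s g, hsX, h6.2 (h1 ht)⟩
  obtain ⟨x, hxX, hxσ'⟩ := h5
  have h6 : σ.card < σ'.card := by
    refine Finset.card_lt_card ((Finset.ssubset_iff_of_subset h1).2 ⟨x, hxσ', fun h' => ?_⟩)
    exact (mem_sdiff.1 (hσA h')).2 hxX
  have h7 := hmax L (mem_filter.2 ⟨mem_powerset.2 (hsub L hL), hL, hL0'⟩)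
  exact absurd h6 (not_lt.2 h7)

/-- a segment inside `A` through a given vertex: the form used for both sides of a cut -/
theorem seg_exists (ends : ∀ e ∈ es, s e ∈ vs ∧ t e ∈ vs) (noloop : ∀ e ∈ es, s e ≠ t e)
    {C : Finset V} (hC : C ⊆ vs) (hCcl : ∀ g ∈ es, cr s t C g → g ∈ F)
    (hCmin : ∀ X ⊆ C, X.Nonempty → (∀ g ∈ es, cr s t X g → g ∈ F) → X = C)
    (deg : ∀ u ∈ C, cn s t (es \ F) {u} = 2) (hA : A ⊆ vs) (hc : c ∈ A) (hcC : c ∈ C)
    (hne : ¬ C ⊆ A) :
    ∃ σ ⊆ C ∩ A, c ∈ σ ∧ cn s t (es \ F) σ = 2 ∧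
      ∀ g ∈ es, g ∉ F → cr s t σ g → cr s t A g :=
  ⟨seg s t vs es F A c, fun _ hu => mem_inter.2 ⟨seg_sub_of_closed hC hCcl hcC hu,
    seg_sub hA hc hu⟩, seg_self (hA hc), seg_two ends noloop hA hC hCcl hCmin deg hc hcC hne,
    fun _ hg hF hcr => seg_cross ends hA hc hg hF hcr⟩

end OddN
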