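import Pool.Agent.Lib.OddN.Leaf

/-! Segments of the even circuit, and the choice of a leaf `X` together with a segment outside `X`
which meets all other leaves. -/

set_option autoImplicit false

namespace OddN

open Finset Classical

variable {V E : Type*} {m : ℕ} {s t : E → V} {vs : Finset V} {es F P : Finset E} {C : Finset V}

lemma segs_insert {Q : Finset E} {Z : Finset V} {u : V} (hu : u ∉ Z)
    (h2 : cn s t Q {u} ≤ 2) {g : E} (hg : g ∈ Q) (hgu : cr s t {u} g) (hgZ : cr s t Z g) :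
    cn s t Q (insert u Z) ≤ cn s t Q Z := by
  have h1 : cn s t Q (insert u Z) + 2 ≤ cn s t Q Z + cn s t Q {u} := by
    unfold cn
    rw [← Finset.sum_erase_add _ _ hg, ← Finset.sum_erase_add (a := g) _ _ hg,
      ← Finset.sum_erase_add (a := g) Q _ hg]
    have e1 : ci s t (insert u Z) g = 0 := by
      rw [ci_eq_zero]
      intro h
      unfold cr at hgu hgZ h
      simp only [mem_singleton, mem_insert] at hgu hgZ h
      have : s g ∈ Z → s g ≠ u := fun h1 h2 => hu (h2 ▸ h1)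
      have : t g ∈ Z → t g ≠ u := fun h1 h2 => hu (h2 ▸ h1)
      tauto
    have e2 : ci s t Z g = 1 := ci_eq_one.2 hgZ
    have e3 : ci s t {u} g = 1 := ci_eq_one.2 hgu
    have e4 : ∑ x ∈ Q.erase g, ci s t (insert u Z) x ≤
        ∑ x ∈ Q.erase g, ci s t Z x + ∑ x ∈ Q.erase g, ci s t {u} x := by
      rw [← Finset.sum_add_distrib]
      refine Finset.sum_le_sum fun x _ => ?_
      unfold ci cr
      simp only [mem_singleton, mem_insert]
      by_cases a1 : s x = u <;> by_cases a2 : t x = u <;> by_cases a3 : s x ∈ Z <;>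
        by_cases a4 : t x ∈ Z <;> simp [a1, a2, a3, a4]
    omega
  omega

/-- the segment of `W` containing a given vertex (`C ⊄ W`) -/
theorem exists_seg (h : Hyp m s t vs es F) (K : Circ s t vs es F P C) {W : Finset V}
    (hCW : ¬ C ⊆ W) {A : Finset V} (hA : A ⊆ C) (hAW : A ⊆ W) (hne : A.Nonempty)
    (hn : cn s t (es \ F) A ≤ 2) : ∃ ρ, A ⊆ ρ ∧ Seg s t es F C W ρ := by
  have hex : ∃ Z ∈ (C ∩ W).powerset.filter fun Z => A ⊆ Z ∧ cn s t (es \ F) Z ≤ 2,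
      ∀ Z' ∈ (C ∩ W).powerset.filter fun Z => A ⊆ Z ∧ cn s t (es \ F) Z ≤ 2,
        Z'.card ≤ Z.card := by
    apply Finset.exists_max_image
    exact ⟨A, mem_filter.2 ⟨mem_powerset.2 (subset_inter hA hAW), Finset.Subset.refl _, hn⟩⟩
  obtain ⟨ρ, hρ, hmax⟩ := hex
  rw [mem_filter, mem_powerset] at hρ
  obtain ⟨hρs, hAρ, hρ2⟩ := hρ
  have hρC : ρ ⊆ C := hρs.trans inter_subset_left
  have hρW : ρ ⊆ W := hρs.trans inter_subset_right
  have hρne : ρ.Nonempty := hne.mono hAρ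
  refine ⟨ρ, hAρ, hρC, hρW, hρne, ?_, ?_⟩
  · have := K.two_le h hρC hρne fun h' => hCW (h' ▸ hρW)
    omega
  · rintro g hg hF hcr ⟨hsW, htW⟩
    have hgm : g ∈ es \ F := mem_sdiff.2 ⟨hg, hF⟩
    have hb := K.both hg hF
    have key : ∀ u, u ∈ C → u ∈ W → u ∉ ρ → cr s t {u} g → False := by
      intro u huC huW huρ hgu
      have h2 := segs_insert huρ (K.deg u huC).le hgm hgu hcr
      have h3 := hmax (insert u ρ) (mem_filter.2 ⟨mem_powerset.2 (insert_subset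
        (mem_inter.2 ⟨huC, huW⟩) hρs), hAρ.trans (subset_insert _ _), h2.trans hρ2⟩)
      rw [card_insert_of_notMem huρ] at h3
      omega
    have hn := h.noloop g hg
    by_cases hs : s g ∈ ρ
    · have ht : t g ∉ ρ := fun h' => hcr ⟨fun _ => h', fun _ => hs⟩
      refine key (t g) (hb.1 (hρC hs)) htW ht ?_
      unfold cr
      simp only [mem_singleton, iff_true]
      exact hn
    · have ht : t g ∈ ρ := by
        by_contra h'
        exact hcr ⟨fun h => absurd h hs, fun h => absurd h h'⟩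
      refine key (s g) (hb.2 (hρC ht)) hsW hs ?_
      unfold cr
      simp only [mem_singleton, true_iff]
      exact hn.symm

/-- **choice of the leaf `X` and of the segment `σ`** -/
theorem exists_choice (h : Hyp m s t vs es F) (K : Circ s t vs es F P C)
    (hfam : ∃ S, Fam s t vs es F P C S) {e : E} (_he : e ∈ es) :
    ∃ X σ, Leaf s t vs es F P C X ∧ ¬ (s e ∈ X ∧ t e ∈ X) ∧ Seg s t es F C (vs \ X) σ ∧
      ∀ S ⊆ vs \ X, Fam s t vs es F P C S → ¬ Disjoint S σ := by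
  -- a leaf `L0` which contains `e` if some leaf does
  obtain ⟨L0, hL0, hL0e⟩ : ∃ L0, Leaf s t vs es F P C L0 ∧
      ∀ X, Leaf s t vs es F P C X → X ≠ L0 → ¬ (s e ∈ X ∧ t e ∈ X) := by
    by_cases h1 : ∃ L, Leaf s t vs es F P C L ∧ (s e ∈ L ∧ t e ∈ L)
    · obtain ⟨L, hL, h2⟩ := h1
      exact ⟨L, hL, fun X hX hne h3 => disjoint_left.1 (Leaf.disj h K hX hL hne) h3.1 h2.1⟩
    · obtain ⟨S, hS⟩ := hfam
      obtain ⟨L, -, hL⟩ := exists_leaf hS
      exact ⟨L, hL, fun X hX _ h3 => h1 ⟨X, hX, h3⟩⟩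
  -- another leaf
  obtain ⟨L1, hL1, hL1ne⟩ : ∃ L1, Leaf s t vs es F P C L1 ∧ L1 ≠ L0 := by
    obtain ⟨L, hL, hLf⟩ := exists_leaf (hL0.1.compl h)
    refine ⟨L, hLf, ?_⟩
    rintro rfl
    obtain ⟨x, hx⟩ := hLf.1.meets h K
    exact (mem_sdiff.1 (hL (mem_inter.1 hx).1)).2 (mem_inter.1 hx).1
  obtain ⟨c, hc'⟩ := hL0.1.meets h K
  obtain ⟨hc0, hcC⟩ := mem_inter.1 hc'
  have hcvs : c ∈ vs := K.sub hcC
  have hcX : ∀ X, Leaf s t vs es F P C X → X ≠ L0 → c ∈ vs \ X := fun X hX hne =>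
    mem_sdiff.2 ⟨hcvs, fun h' => disjoint_left.1 (Leaf.disj h K hX hL0 hne) h' hc0⟩
  have hnC : ∀ X, Leaf s t vs es F P C X → ¬ C ⊆ vs \ X := by
    intro X hX h'
    obtain ⟨x, hx⟩ := hX.1.meets h K
    exact (mem_sdiff.1 (h' (mem_inter.1 hx).2)).2 (mem_inter.1 hx).1
  -- pairs of maximal size
  let Q : Finset (Finset V × Finset V) := (vs.powerset ×ˢ C.powerset).filter fun p =>
    Leaf s t vs es F P C p.1 ∧ p.1 ≠ L0 ∧ Seg s t es F C (vs \ p.1) p.2 ∧ c ∈ p.2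
  have hQ : ∀ p, p ∈ Q ↔ Leaf s t vs es F P C p.1 ∧ p.1 ≠ L0 ∧
      Seg s t es F C (vs \ p.1) p.2 ∧ c ∈ p.2 := by
    intro p
    simp only [Q, mem_filter, mem_product, mem_powerset]
    exact ⟨fun h' => h'.2, fun h' => ⟨⟨h'.1.1.1, h'.2.2.1.sub⟩, h'⟩⟩
  have hmk : ∀ X, Leaf s t vs es F P C X → X ≠ L0 → ∃ σ, (X, σ) ∈ Q := by
    intro X hX hne
    obtain ⟨σ, h1, h2⟩ := exists_seg h K (hnC X hX) (singleton_subset_iff.2 hcC)
      (singleton_subset_iff.2 (hcX X hX hne)) (singleton_nonempty c) (K.deg c hcC).le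
    exact ⟨σ, (hQ _).2 ⟨hX, hne, h2, h1 (mem_singleton_self c)⟩⟩
  obtain ⟨σ1, hσ1⟩ := hmk L1 hL1 hL1ne
  obtain ⟨⟨X, σ⟩, hp, hmax⟩ := Finset.exists_max_image Q (fun p => p.2.card) ⟨_, hσ1⟩
  obtain ⟨hX, hX0, hσ, hcσ⟩ := (hQ _).1 hp
  simp only at hX hX0 hσ hcσ hmax
  refine ⟨X, σ, hX, hL0e X hX hX0, hσ, fun S hS hSf hdis => ?_⟩
  obtain ⟨L, hLS, hL⟩ := exists_leaf hSf
  have hLX : L ⊆ vs \ X := hLS.trans hS
  have hLσ : ∀ u ∈ L, u ∉ σ := fun u hu hu' => disjoint_left.1 hdis (hLS hu) hu'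
  have hL0' : L ≠ L0 := fun h' => hLσ c (h' ▸ hc0) hcσ
  have hσL : σ ⊆ vs \ L := fun u hu =>
    mem_sdiff.2 ⟨K.sub (hσ.sub hu), fun h' => hLσ u h' hu⟩
  obtain ⟨σ', h1, h2⟩ := exists_seg h K (hnC L hL) hσ.sub hσL hσ.ne hσ.two.le
  -- an edge leaving `σ`
  obtain ⟨g, hg, hgc⟩ : ∃ g ∈ es \ F, cr s t σ g := by
    by_contra hn
    push Not at hn
    have h3 := cn_eq_zero.2 hn
    have h4 := hσ.two
    omega
  rw [mem_sdiff] at hg
  have hout := hσ.out g hg.1 hg.2 hgc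
  have hne : σ' ≠ σ := by
    rintro rfl
    apply h2.out g hg.1 hg.2 hgc
    have hin : ∀ x ∈ vs, x ∉ vs \ X → x ∈ vs \ L := by
      intro x hx hxX
      refine mem_sdiff.2 ⟨hx, fun h' => ?_⟩
      exact hxX (hLX h')
    have e1 := h.ends g hg.1
    by_cases hs : s g ∈ σ'
    · have ht : t g ∉ vs \ X := fun h' => hout ⟨hσ.subW hs, h'⟩
      exact ⟨hσL hs, hin _ e1.2 ht⟩
    · have ht : t g ∈ σ' := by
        by_contra h'
        exact hgc ⟨fun h => absurd h hs, fun h => absurd h h'⟩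
      have hs' : s g ∉ vs \ X := fun h' => hout ⟨h', hσ.subW ht⟩
      exact ⟨hin _ e1.1 hs', hσL ht⟩
  have h5 : σ.card < σ'.card :=
    Finset.card_lt_card (Finset.ssubset_iff_subset_ne.2 ⟨h1, hne.symm⟩)
  have h6 := hmax (L, σ') ((hQ _).2 ⟨hL, hL0', h2, h1 hcσ⟩)
  simp only at h6
  omega

end OddN
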