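import Pool.Agent.Lib.OddN.Final

/-! The Petersen graph shows that the bound is best possible. -/

set_option autoImplicit false

namespace OddN

/-- exactly two of three -/
def two3 (a b c : Bool) : Bool := (a && b && !c) || (a && !b && c) || (!a && b && c)

set_option synthInstance.maxSize 4000 in
/-- the 2-factors of the Petersen graph: one of six cuts with five edges is missed -/
lemma six_cuts : ∀ c0 c4 c5 : Bool, two3 c0 c4 c5 = true →
    ∀ c1 c6 : Bool, two3 c0 c1 c6 = true →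
    ∀ c2 c7 : Bool, two3 c1 c2 c7 = true →
    ∀ c3 c8 : Bool, two3 c2 c3 c8 = true →
    ∀ c9 : Bool, two3 c3 c4 c9 = true →
    ∀ c10 c13 : Bool, two3 c5 c10 c13 = true →
    ∀ c12 : Bool, two3 c7 c10 c12 = true →
    ∀ c11 : Bool, two3 c8 c11 c13 = true →
    ∀ c14 : Bool, two3 c6 c11 c14 = true → two3 c9 c12 c14 = true →
    ((c5 || c6 || c7 || c8 || c9) = false) ∨ ((c0 || c2 || c9 || c10 || c11) = false) ∨
    ((c1 || c3 || c5 || c11 || c12) = false) ∨ ((c2 || c4 || c6 || c12 || c13) = false) ∨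
    ((c1 || c4 || c8 || c10 || c14) = false) ∨ ((c0 || c3 || c7 || c13 || c14) = false) := by
  decide

open Finset Classical

/-- first ends of the edges of the Petersen graph -/
def petS : Fin 15 → Fin 10 := ![0, 1, 2, 3, 4, 0, 1, 2, 3, 4, 5, 6, 7, 8, 9]

/-- second ends of the edges of the Petersen graph -/
def petT : Fin 15 → Fin 10 := ![1, 2, 3, 4, 0, 5, 6, 7, 8, 9, 7, 8, 9, 5, 6]

/-- the Petersen graph -/
def petersen : Multigraph (Fin 10) (Fin 15) where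
  src := petS
  tgt := petT
  loopless := by decide

/-- the three edges at a vertex -/
def pet3 : Fin 10 → Fin 15 × Fin 15 × Fin 15 :=
  ![(0, 4, 5), (0, 1, 6), (1, 2, 7), (2, 3, 8), (3, 4, 9), (5, 10, 13), (6, 11, 14),
    (7, 10, 12), (8, 11, 13), (9, 12, 14)]

lemma pet3_iff : ∀ (v : Fin 10) (g : Fin 15), (petS g = v ∨ petT g = v) ↔
    (g = (pet3 v).1 ∨ g = (pet3 v).2.1 ∨ g = (pet3 v).2.2) := by decide

lemma pet3_ne : ∀ v : Fin 10, (pet3 v).1 ≠ (pet3 v).2.1 ∧ (pet3 v).1 ≠ (pet3 v).2.2 ∧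
    (pet3 v).2.1 ≠ (pet3 v).2.2 := by decide

lemma pet_deg (A : Finset (Fin 15)) (v : Fin 10) : petersen.deg A v =
    (if (pet3 v).1 ∈ A then 1 else 0) + (if (pet3 v).2.1 ∈ A then 1 else 0) +
      (if (pet3 v).2.2 ∈ A then 1 else 0) := by
  have e1 : petersen.deg A v =
      (({(pet3 v).1, (pet3 v).2.1, (pet3 v).2.2} : Finset (Fin 15)).filter fun g => g ∈ A).card := by
    unfold Multigraph.deg
    congr 1
    ext g
    simp only [mem_filter, mem_insert, mem_singleton]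
    constructor
    · exact fun h => ⟨(pet3_iff v g).1 h.2, h.1⟩
    · exact fun h => ⟨h.2, (pet3_iff v g).2 h.1⟩
  obtain ⟨h1, h2, h3⟩ := pet3_ne v
  rw [e1, card_filter, sum_insert, sum_insert, sum_singleton, add_assoc]
  · rw [mem_singleton]; exact h3
  · rw [mem_insert, mem_singleton, not_or]; exact ⟨h1, h2⟩

lemma two3_iff (A : Finset (Fin 15)) (x y z : Fin 15)
    (h : (if x ∈ A then 1 else 0) + (if y ∈ A then 1 else 0) + (if z ∈ A then 1 else 0) = 2) :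
    two3 (decide (x ∈ A)) (decide (y ∈ A)) (decide (z ∈ A)) = true := by
  unfold two3
  by_cases h1 : x ∈ A <;> by_cases h2 : y ∈ A <;> by_cases h3 : z ∈ A <;>
    simp [h1, h2, h3] at h ⊢

lemma two_factor_cut (A : Finset (Fin 15)) (hA : petersen.IsTwoFactor A) :
    (5 ∉ A ∧ 6 ∉ A ∧ 7 ∉ A ∧ 8 ∉ A ∧ 9 ∉ A) ∨ (0 ∉ A ∧ 2 ∉ A ∧ 9 ∉ A ∧ 10 ∉ A ∧ 11 ∉ A) ∨
    (1 ∉ A ∧ 3 ∉ A ∧ 5 ∉ A ∧ 11 ∉ A ∧ 12 ∉ A) ∨ (2 ∉ A ∧ 4 ∉ A ∧ 6 ∉ A ∧ 12 ∉ A ∧ 13 ∉ A) ∨
    (1 ∉ A ∧ 4 ∉ A ∧ 8 ∉ A ∧ 10 ∉ A ∧ 14 ∉ A) ∨ (0 ∉ A ∧ 3 ∉ A ∧ 7 ∉ A ∧ 13 ∉ A ∧ 14 ∉ A) := by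
  have key : ∀ v : Fin 10, two3 (decide ((pet3 v).1 ∈ A)) (decide ((pet3 v).2.1 ∈ A))
      (decide ((pet3 v).2.2 ∈ A)) = true := by
    intro v
    apply two3_iff
    rw [← pet_deg]
    exact hA v
  have h := six_cuts _ _ _ (key 0) _ _ (key 1) _ _ (key 2) _ _ (key 3) _ (key 4) _ _ (key 5) _
    (key 7) _ (key 8) _ (key 6) (key 9)
  simp only [Bool.or_eq_false_iff, decide_eq_false_iff_not] at h
  rcases h with h | h | h | h | h | h
  · exact Or.inl ⟨h.1.1.1.1, h.1.1.1.2, h.1.1.2, h.1.2, h.2⟩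
  · exact Or.inr (Or.inl ⟨h.1.1.1.1, h.1.1.1.2, h.1.1.2, h.1.2, h.2⟩)
  · exact Or.inr (Or.inr (Or.inl ⟨h.1.1.1.1, h.1.1.1.2, h.1.1.2, h.1.2, h.2⟩))
  · exact Or.inr (Or.inr (Or.inr (Or.inl ⟨h.1.1.1.1, h.1.1.1.2, h.1.1.2, h.1.2, h.2⟩)))
  · exact Or.inr (Or.inr (Or.inr (Or.inr (Or.inl ⟨h.1.1.1.1, h.1.1.1.2, h.1.1.2, h.1.2, h.2⟩))))
  · exact Or.inr (Or.inr (Or.inr (Or.inr (Or.inr ⟨h.1.1.1.1, h.1.1.1.2, h.1.1.2, h.1.2, h.2⟩))))

/-- the Petersen graph is not the union of a 2-factor and a cycle -/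
lemma pet_no (C2 C3 : Finset (Fin 15)) (h2 : petersen.IsTwoFactor C2) (h3 : petersen.IsCycle C3)
    (hu : ∀ g, g ∈ C2 ∨ g ∈ C3) : False := by
  have e : ∀ v : Fin 10, Even ((if (pet3 v).1 ∈ C3 then 1 else 0) +
      (if (pet3 v).2.1 ∈ C3 then 1 else 0) + (if (pet3 v).2.2 ∈ C3 then 1 else 0)) := by
    intro v
    rw [← pet_deg]
    exact h3 v
  obtain ⟨k0, e0⟩ := e 0
  obtain ⟨k1, e1⟩ := e 1
  obtain ⟨k2, e2⟩ := e 2
  obtain ⟨k3, e3⟩ := e 3
  obtain ⟨k4, e4⟩ := e 4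
  obtain ⟨k5, e5⟩ := e 5
  obtain ⟨k6, e6⟩ := e 6
  obtain ⟨k7, e7⟩ := e 7
  obtain ⟨k8, e8⟩ := e 8
  obtain ⟨k9, e9⟩ := e 9
  have one : ∀ g : Fin 15, g ∉ C2 → (if g ∈ C3 then 1 else 0) = 1 := by
    intro g hg
    rw [if_pos ((hu g).resolve_left hg)]
  change (if (0 : Fin 15) ∈ C3 then 1 else 0) + (if (4 : Fin 15) ∈ C3 then 1 else 0) +
    (if (5 : Fin 15) ∈ C3 then 1 else 0) = k0 + k0 at e0
  change (if (0 : Fin 15) ∈ C3 then 1 else 0) + (if (1 : Fin 15) ∈ C3 then 1 else 0) +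
    (if (6 : Fin 15) ∈ C3 then 1 else 0) = k1 + k1 at e1
  change (if (1 : Fin 15) ∈ C3 then 1 else 0) + (if (2 : Fin 15) ∈ C3 then 1 else 0) +
    (if (7 : Fin 15) ∈ C3 then 1 else 0) = k2 + k2 at e2
  change (if (2 : Fin 15) ∈ C3 then 1 else 0) + (if (3 : Fin 15) ∈ C3 then 1 else 0) +
    (if (8 : Fin 15) ∈ C3 then 1 else 0) = k3 + k3 at e3
  change (if (3 : Fin 15) ∈ C3 then 1 else 0) + (if (4 : Fin 15) ∈ C3 then 1 else 0) +
    (if (9 : Fin 15) ∈ C3 then 1 else 0) = k4 + k4 at e4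
  change (if (5 : Fin 15) ∈ C3 then 1 else 0) + (if (10 : Fin 15) ∈ C3 then 1 else 0) +
    (if (13 : Fin 15) ∈ C3 then 1 else 0) = k5 + k5 at e5
  change (if (6 : Fin 15) ∈ C3 then 1 else 0) + (if (11 : Fin 15) ∈ C3 then 1 else 0) +
    (if (14 : Fin 15) ∈ C3 then 1 else 0) = k6 + k6 at e6
  change (if (7 : Fin 15) ∈ C3 then 1 else 0) + (if (10 : Fin 15) ∈ C3 then 1 else 0) +
    (if (12 : Fin 15) ∈ C3 then 1 else 0) = k7 + k7 at e7
  change (if (8 : Fin 15) ∈ C3 then 1 else 0) + (if (11 : Fin 15) ∈ C3 then 1 else 0) +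
    (if (13 : Fin 15) ∈ C3 then 1 else 0) = k8 + k8 at e8
  change (if (9 : Fin 15) ∈ C3 then 1 else 0) + (if (12 : Fin 15) ∈ C3 then 1 else 0) +
    (if (14 : Fin 15) ∈ C3 then 1 else 0) = k9 + k9 at e9
  rcases two_factor_cut C2 h2 with h | h | h | h | h | h
  · have a1 := one _ h.1
    have a2 := one _ h.2.1
    have a3 := one _ h.2.2.1
    have a4 := one _ h.2.2.2.1
    have a5 := one _ h.2.2.2.2
    omega
  · have a1 := one _ h.1
    have a2 := one _ h.2.1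
    have a3 := one _ h.2.2.1
    have a4 := one _ h.2.2.2.1
    have a5 := one _ h.2.2.2.2
    omega
  · have a1 := one _ h.1
    have a2 := one _ h.2.1
    have a3 := one _ h.2.2.1
    have a4 := one _ h.2.2.2.1
    have a5 := one _ h.2.2.2.2
    omega
  · have a1 := one _ h.1
    have a2 := one _ h.2.1
    have a3 := one _ h.2.2.1
    have a4 := one _ h.2.2.2.1
    have a5 := one _ h.2.2.2.2
    omega
  · have a1 := one _ h.1
    have a2 := one _ h.2.1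
    have a3 := one _ h.2.2.1
    have a4 := one _ h.2.2.2.1
    have a5 := one _ h.2.2.2.2
    omega
  · have a1 := one _ h.1
    have a2 := one _ h.2.1
    have a3 := one _ h.2.2.1
    have a4 := one _ h.2.2.2.1
    have a5 := one _ h.2.2.2.2
    omega

lemma pet_cubic : petersen.Cubic := by
  intro v
  rw [pet_deg]
  simp

lemma pet_adj (A : Finset (Fin 15)) (g : Fin 15) (h : g ∈ A) :
    (petersen.graph A).Reachable (petS g) (petT g) := by
  apply SimpleGraph.Adj.reachable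
  unfold Multigraph.graph
  rw [SimpleGraph.fromRel_adj]
  exact ⟨petersen.loopless g, Or.inl ⟨g, h, rfl, rfl⟩⟩

lemma pet_path (A : Finset (Fin 15)) (e : Fin 15) (hA : ∀ g, g ≠ e → g ∈ A) (a b : Fin 10)
    (g : Fin 15) (h : g ≠ e ∧ ((petS g = a ∧ petT g = b) ∨ (petS g = b ∧ petT g = a))) :
    (petersen.graph A).Reachable a b := by
  rcases h with ⟨h1, ⟨h2, h3⟩ | ⟨h2, h3⟩⟩
  · rw [← h2, ← h3]; exact pet_adj A g (hA g h1)
  · rw [← h2, ← h3]; exact (pet_adj A g (hA g h1)).symm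

/-- for every edge a path of four edges joining its ends -/
def petP : Fin 15 → (Fin 15 × Fin 10) × (Fin 15 × Fin 10) × (Fin 15 × Fin 10) × Fin 15 :=
  ![((4, 4), (3, 3), (2, 2), 1), ((0, 0), (4, 4), (3, 3), 2), ((1, 1), (0, 0), (4, 4), 3),
    ((2, 2), (1, 1), (0, 0), 4), ((3, 3), (2, 2), (1, 1), 0),
    ((0, 1), (6, 6), (11, 8), 13), ((1, 2), (7, 7), (12, 9), 14), ((2, 3), (8, 8), (13, 5), 10),
    ((3, 4), (9, 9), (14, 6), 11), ((4, 0), (5, 5), (10, 7), 12),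
    ((13, 8), (11, 6), (14, 9), 12), ((14, 9), (12, 7), (10, 5), 13),
    ((10, 5), (13, 8), (11, 6), 14), ((11, 6), (14, 9), (12, 7), 10),
    ((12, 7), (10, 5), (13, 8), 11)]

lemma petP_ok : ∀ e : Fin 15,
    ((petP e).1.1 ≠ e ∧ ((petS (petP e).1.1 = petS e ∧ petT (petP e).1.1 = (petP e).1.2) ∨
      (petS (petP e).1.1 = (petP e).1.2 ∧ petT (petP e).1.1 = petS e))) ∧
    ((petP e).2.1.1 ≠ e ∧ ((petS (petP e).2.1.1 = (petP e).1.2 ∧
        petT (petP e).2.1.1 = (petP e).2.1.2) ∨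
      (petS (petP e).2.1.1 = (petP e).2.1.2 ∧ petT (petP e).2.1.1 = (petP e).1.2))) ∧
    ((petP e).2.2.1.1 ≠ e ∧ ((petS (petP e).2.2.1.1 = (petP e).2.1.2 ∧
        petT (petP e).2.2.1.1 = (petP e).2.2.1.2) ∨
      (petS (petP e).2.2.1.1 = (petP e).2.2.1.2 ∧ petT (petP e).2.2.1.1 = (petP e).2.1.2))) ∧
    ((petP e).2.2.2 ≠ e ∧ ((petS (petP e).2.2.2 = (petP e).2.2.1.2 ∧
        petT (petP e).2.2.2 = petT e) ∨
      (petS (petP e).2.2.2 = petT e ∧ petT (petP e).2.2.2 = (petP e).2.2.1.2))) := by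
  decide

lemma pet_walk (A : Finset (Fin 15)) (e : Fin 15) (hA : ∀ g, g ≠ e → g ∈ A) :
    (petersen.graph A).Reachable (petS e) (petT e) := by
  obtain ⟨h1, h2, h3, h4⟩ := petP_ok e
  exact (((pet_path _ e hA _ _ _ h1).trans (pet_path _ e hA _ _ _ h2)).trans
    (pet_path _ e hA _ _ _ h3)).trans (pet_path _ e hA _ _ _ h4)

lemma pet_bridgeless : petersen.Bridgeless := by
  intro e
  refine pet_walk _ e fun g hg => ?_
  simp [hg]

lemma pet_empty : petersen.IsCycle ∅ := by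
  intro v
  rw [pet_deg]
  simp

lemma pet_oddComp : petersen.oddComp ∅ = 10 := by
  have hbot : petersen.graph ∅ = ⊥ := by
    ext u v
    unfold Multigraph.graph
    rw [SimpleGraph.fromRel_adj]
    simp
  have hreach : ∀ u v : Fin 10, (petersen.graph ∅).Reachable u v → u = v := by
    intro u v h
    rw [hbot] at h
    exact SimpleGraph.reachable_bot.1 h
  have hinj : Function.Injective (petersen.graph ∅).connectedComponentMk := by
    intro u v h
    exact hreach u v (SimpleGraph.ConnectedComponent.exact h)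
  have hodd : (petersen.graph ∅).oddComponents =
      (petersen.graph ∅).connectedComponentMk '' Set.univ := by
    ext c
    constructor
    · intro _
      obtain ⟨v, rfl⟩ := c.exists_rep
      exact ⟨v, Set.mem_univ v, rfl⟩
    · rintro ⟨v, -, rfl⟩
      have hs : ((petersen.graph ∅).connectedComponentMk v).supp = {v} := by
        ext w
        rw [SimpleGraph.ConnectedComponent.mem_supp_iff, Set.mem_singleton_iff]
        constructor
        · intro h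
          exact hreach w v (SimpleGraph.ConnectedComponent.exact h)
        · rintro rfl
          rfl
      change Odd ((petersen.graph ∅).connectedComponentMk v).supp.ncard
      rw [hs, Set.ncard_singleton]
      decide
  unfold Multigraph.oddComp
  rw [hodd, Set.ncard_image_of_injective _ hinj, Set.ncard_univ, Nat.card_eq_fintype_card]
  rfl

/-- **Sharpness**: ten odd components are too many. -/
theorem sharp : ∃ (G : Multigraph (Fin 10) (Fin 15)) (C1 : Finset (Fin 15)), G.Cubic ∧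
    G.Bridgeless ∧ G.IsCycle C1 ∧ G.oddComp C1 = 10 ∧
    ¬ ∃ C2 C3 : Finset (Fin 15), G.IsTwoFactor C2 ∧ G.IsCycle C3 ∧ C1 ∪ C2 ∪ C3 = univ := by
  refine ⟨petersen, ∅, pet_cubic, pet_bridgeless, pet_empty, pet_oddComp, ?_⟩
  rintro ⟨C2, C3, h2, h3, hu⟩
  refine pet_no C2 C3 h2 h3 fun g => ?_
  have hg : g ∈ (∅ : Finset (Fin 15)) ∪ C2 ∪ C3 := by rw [hu]; exact mem_univ g
  simpa only [mem_union, notMem_empty, false_or] using hg

end OddN
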